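import Pool.Agent.HDS.Defs

/-!
MP_134267_co, Theorem HDS, row W4 (helper14): division of the items into groups with prescribed
sums.
-/

set_option autoImplicit false

namespace Pool.Agent.HDS

open Finset

/-- a map with prescribed sizes of the fibres -/
theorem balance_fibre {K ρ : Type} [Fintype K] [DecidableEq K] [Fintype ρ] [DecidableEq ρ]
    [Nonempty ρ] (A : Finset K) (x : ρ → ℕ) (h : ∑ r, x r = A.card) :
    ∃ ψ : K → ρ, ∀ r, (A.filter (fun k => ψ k = r)).card = x r := by
  have hcard : Fintype.card {k // k ∈ A} = Fintype.card (Σ r, Fin (x r)) := by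
    rw [Fintype.card_coe, Fintype.card_sigma]
    simp only [Fintype.card_fin]
    exact h.symm
  let e : {k // k ∈ A} ≃ (Σ r, Fin (x r)) := Fintype.equivOfCardEq hcard
  let r₀ : ρ := Classical.arbitrary ρ
  refine ⟨fun k => if hk : k ∈ A then (e ⟨k, hk⟩).1 else r₀, fun r => ?_⟩
  have h1 : (A.filter (fun k => (if hk : k ∈ A then (e ⟨k, hk⟩).1 else r₀) = r)).card =
      (univ : Finset (Fin (x r))).card := by
    symm
    apply Finset.card_bij (fun (i : Fin (x r)) _ => ((e.symm ⟨r, i⟩ : {k // k ∈ A}) : K))
    · intro i _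
      rw [mem_filter]
      refine ⟨(e.symm ⟨r, i⟩).2, ?_⟩
      rw [dif_pos (e.symm ⟨r, i⟩).2]
      simp
    · intro i _ i' _ hii
      have h2 : e.symm ⟨r, i⟩ = e.symm ⟨r, i'⟩ := Subtype.ext hii
      have h3 := e.symm.injective h2
      exact eq_of_heq (Sigma.mk.inj h3).2
    · intro k hk
      rw [mem_filter] at hk
      obtain ⟨hkA, hkr⟩ := hk
      rw [dif_pos hkA] at hkr
      subst hkr
      exact ⟨(e ⟨k, hkA⟩).2, mem_univ _, by simp⟩
  rw [h1, Finset.card_univ, Fintype.card_fin]

/-- pigeonhole for sums of natural numbers -/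
theorem balance_pigeon {ρ : Type} [Fintype ρ] (f : ρ → ℕ) (b : ℕ)
    (h : Fintype.card ρ * b < ∑ r, f r) : ∃ r, b + 1 ≤ f r := by
  by_contra hcon
  push Not at hcon
  have h1 : ∑ r, f r ≤ ∑ _r : ρ, b := Finset.sum_le_sum fun r _ => by
    have := hcon r
    omega
  rw [Finset.sum_const, smul_eq_mul, Finset.card_univ] at h1
  omega

theorem balance_pigeon' {ρ : Type} [Fintype ρ] (f : ρ → ℕ) (b : ℕ) (hρ : 1 ≤ Fintype.card ρ)
    (h : Fintype.card ρ * b ≤ ∑ r, f r) : ∃ r, b ≤ f r := by
  rcases Nat.eq_zero_or_pos b with hb | hb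
  · have hne : Nonempty ρ := Fintype.card_pos_iff.mp hρ
    exact ⟨Classical.arbitrary ρ, by omega⟩
  · obtain ⟨r, hr⟩ := balance_pigeon f (b - 1) (by
      have h1 : Fintype.card ρ * (b - 1) < Fintype.card ρ * b :=
        Nat.mul_lt_mul_of_pos_left (by omega) (by omega)
      omega)
    exact ⟨r, by omega⟩

/-- the loads `c r` are written with items of weight `a` and `a + 1` -/
theorem balance_xy {ρ : Type} [Fintype ρ] [DecidableEq ρ] (a nA nC : ℕ) (ha : 1 ≤ a)
    (c : ρ → ℕ) (hc : ∀ r, (a + 1) ^ 2 ≤ c r) (hsum : ∑ r, c r = a * nA + (a + 1) * nC)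
    (h1 : Fintype.card ρ * (a + 1) ≤ nA) (h2 : Fintype.card ρ * (a + 1) ≤ nC) :
    ∃ x y : ρ → ℕ, (∀ r, c r = a * x r + (a + 1) * y r) ∧ ∑ r, x r = nA ∧ ∑ r, y r = nC := by
  -- totals
  have htot : ∀ x y : ρ → ℕ, (∀ r, c r = a * x r + (a + 1) * y r) →
      a * (∑ r, x r) + (a + 1) * (∑ r, y r) = a * nA + (a + 1) * nC := by
    intro x y hxy
    rw [← hsum, Finset.mul_sum, Finset.mul_sum, ← Finset.sum_add_distrib]
    exact (Finset.sum_congr rfl fun r _ => hxy r).symm
  -- start
  have hstart : ∃ x y : ρ → ℕ, (∀ r, c r = a * x r + (a + 1) * y r) ∧ ∑ r, y r ≤ nC := by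
    refine ⟨fun r => c r / a - c r % a, fun r => c r % a, fun r => ?_, ?_⟩
    · have h3 := Nat.div_add_mod (c r) a
      have h4 : c r % a < a := Nat.mod_lt _ ha
      have h5 : a ≤ c r / a := by
        rw [Nat.le_div_iff_mul_le ha]
        have := hc r
        nlinarith
      obtain ⟨z, hz⟩ := Nat.exists_eq_add_of_le (h4.le.trans h5)
      change c r = a * (c r / a - c r % a) + (a + 1) * (c r % a)
      rw [hz]
      have h6 : c r % a + z - c r % a = z := by omega
      rw [h6]
      rw [hz] at h3
      nlinarith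
    · calc ∑ r, c r % a ≤ ∑ _r : ρ, (a + 1) := Finset.sum_le_sum fun r _ => by
            have h4 : c r % a < a := Nat.mod_lt _ ha
            omega
        _ = Fintype.card ρ * (a + 1) := by
            rw [Finset.sum_const, smul_eq_mul, Finset.card_univ]
        _ ≤ nC := h2
  -- swaps
  have hswap : ∀ (g : ℕ) (x y : ρ → ℕ), (∀ r, c r = a * x r + (a + 1) * y r) →
      ∑ r, y r ≤ nC → nC - ∑ r, y r = g →
      ∃ x y : ρ → ℕ, (∀ r, c r = a * x r + (a + 1) * y r) ∧ ∑ r, x r = nA ∧ ∑ r, y r = nC := by
    intro g
    induction g using Nat.strong_induction_on with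
    | _ g ih =>
      intro x y hxy hle hg
      have ht := htot x y hxy
      rcases Nat.eq_zero_or_pos g with hg0 | hg0
      · have hy : ∑ r, y r = nC := by omega
        refine ⟨x, y, hxy, ?_, hy⟩
        rw [hy] at ht
        have h3 : a * (∑ r, x r) = a * nA := by omega
        exact Nat.eq_of_mul_eq_mul_left ha h3
      · -- divisibility
        obtain ⟨w, hw⟩ := Nat.exists_eq_add_of_le hle
        have hwg : w = g := by omega
        rw [hw] at ht
        have h3 : a * (∑ r, x r) = a * nA + (a + 1) * w := by nlinarith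
        have h4 : a ∣ w := by
          have h5 : a ∣ a * nA + (a + 1) * w := ⟨∑ r, x r, h3.symm⟩
          have h6 : a ∣ (a + 1) * w := (Nat.dvd_add_right (Dvd.intro _ rfl)).mp h5
          have h7 : (a + 1) * w = a * w + w := by ring
          rw [h7] at h6
          exact (Nat.dvd_add_right (Dvd.intro _ rfl)).mp h6
        obtain ⟨w', hw'⟩ := h4
        have hw'pos : 1 ≤ w' := by
          rcases Nat.eq_zero_or_pos w' with h | h
          · rw [h] at hw'
            omega
          · exact h
        have h5 : nA ≤ ∑ r, x r := by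
          have : a * nA ≤ a * ∑ r, x r := by omega
          exact Nat.le_of_mul_le_mul_left this ha
        have h5' : nA < ∑ r, x r := by
          rcases h5.lt_or_eq with h | h
          · exact h
          · rw [← h] at h3
            have : (a + 1) * w = 0 := by omega
            rcases Nat.mul_eq_zero.mp this with h' | h' <;> omega
        obtain ⟨r, hr⟩ := balance_pigeon x a (by
          have h6 : Fintype.card ρ * a ≤ Fintype.card ρ * (a + 1) :=
            Nat.mul_le_mul_left _ (by omega)
          omega)
        have hsx : ∀ (f : ρ → ℕ) (v : ℕ), ∑ r', Function.update f r v r' + f r =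
            ∑ r', f r' + v := by
          intro f v
          rw [← Finset.add_sum_erase univ (Function.update f r v) (mem_univ r),
            ← Finset.add_sum_erase univ f (mem_univ r)]
          have h6 : ∑ r' ∈ univ.erase r, Function.update f r v r' =
              ∑ r' ∈ univ.erase r, f r' := by
            apply Finset.sum_congr rfl
            intro r' hr'
            rw [Function.update_of_ne (Finset.ne_of_mem_erase hr')]
          rw [h6, Function.update_self]
          ring
        have hy' := hsx y (y r + a)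
        refine ih (g - a) ?_ (Function.update x r (x r - (a + 1)))
          (Function.update y r (y r + a)) ?_ ?_ ?_
        · omega
        · intro r'
          by_cases hrr : r' = r
          · subst hrr
            rw [Function.update_self, Function.update_self, hxy r']
            obtain ⟨z, hz⟩ := Nat.exists_eq_add_of_le hr
            rw [hz]
            have h6 : a + 1 + z - (a + 1) = z := by omega
            rw [h6]
            ring
          · rw [Function.update_of_ne hrr, Function.update_of_ne hrr]
            exact hxy r'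
        · have h7 : a ≤ w := by
            rw [hw']
            exact Nat.le_mul_of_pos_right a hw'pos
          omega
        · omega
  obtain ⟨x, y, hxy, hle⟩ := hstart
  exact hswap _ x y hxy hle rfl

theorem balance {K ρ : Type} [Fintype K] [DecidableEq K] [Fintype ρ] [DecidableEq ρ]
    (ω : K → ℕ) (a Wm l : ℕ) (ha : 1 ≤ a) (N : ρ → ℕ) (hN : ∀ r, l ≤ N r ∧ N r ≤ l + 1)
    (hsum : ∑ k, ω k = ∑ r, N r) (hW : ∀ k, ω k ≠ a → ω k ≠ a + 1 → ω k ≤ Wm)
    (h1 : Fintype.card ρ * (a + 1) ≤ (univ.filter (fun k => ω k = a)).card)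
    (h2 : Fintype.card ρ * (a + 1) ≤ (univ.filter (fun k => ω k = a + 1)).card)
    (h3 : Fintype.card ρ * (Wm + 2 + (a + 1) ^ 2) ≤ a * (univ.filter (fun k => ω k = a)).card)
    (hρ : 1 ≤ Fintype.card ρ) :
    ∃ φ : K → ρ, ∀ r, ∑ k ∈ univ.filter (fun k => φ k = r), ω k = N r := by
  classical
  have hne : Nonempty ρ := Fintype.card_pos_iff.mp hρ
  set A := univ.filter (fun k => ω k = a) with hA
  set C := univ.filter (fun k => ω k = a + 1) with hC
  set L := univ.filter (fun k => ω k ≠ a ∧ ω k ≠ a + 1) with hL
  have hsplit : ∀ f : K → ℕ, ∑ k, f k = ∑ k ∈ L, f k + (∑ k ∈ A, f k + ∑ k ∈ C, f k) := by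
    intro f
    have e1 : ∀ k, f k = (if ω k ≠ a ∧ ω k ≠ a + 1 then f k else 0) +
        ((if ω k = a then f k else 0) + (if ω k = a + 1 then f k else 0)) := by
      intro k
      by_cases h4 : ω k = a
      · have h5 : ω k ≠ a + 1 := by omega
        simp [h4]
      · by_cases h5 : ω k = a + 1
        · simp [h5]
        · simp [h4, h5]
    rw [hL, hA, hC, Finset.sum_filter, Finset.sum_filter, Finset.sum_filter,
      ← Finset.sum_add_distrib, ← Finset.sum_add_distrib]
    exact Finset.sum_congr rfl fun k _ => e1 k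
  have hAs : ∑ k ∈ A, ω k = a * A.card := by
    rw [Finset.sum_congr rfl fun k hk => (Finset.mem_filter.mp hk).2, Finset.sum_const,
      smul_eq_mul, mul_comm]
  have hCs : ∑ k ∈ C, ω k = (a + 1) * C.card := by
    rw [Finset.sum_congr rfl fun k hk => (Finset.mem_filter.mp hk).2, Finset.sum_const,
      smul_eq_mul, mul_comm]
  have htot := hsplit ω
  rw [hAs, hCs] at htot
  -- greedy
  have hgreedy : ∀ S : Finset K, S ⊆ L → ∃ φ : K → ρ, ∀ r,
      ∑ k ∈ S.filter (fun k => φ k = r), ω k + (a + 1) ^ 2 ≤ N r := by
    intro S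
    induction S using Finset.induction_on with
    | empty =>
      intro _
      refine ⟨fun _ => Classical.arbitrary ρ, fun r => ?_⟩
      rw [Finset.filter_empty, Finset.sum_empty]
      obtain ⟨r₀, hr₀⟩ := balance_pigeon' N (Wm + 2 + (a + 1) ^ 2) hρ (by
        rw [← hsum, htot]
        omega)
      have h4 := hN r
      have h5 := hN r₀
      omega
    | insert k S hkS ih =>
      intro hS
      obtain ⟨φ, hφ⟩ := ih ((Finset.subset_insert _ _).trans hS)
      have hkL : k ∈ L := hS (Finset.mem_insert_self _ _)
      have hkL' := (Finset.mem_filter.mp hkL).2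
      have hkW := hW k hkL'.1 hkL'.2
      -- remaining capacity
      have hcap : ∑ r, (N r - ∑ k ∈ S.filter (fun k => φ k = r), ω k) + ∑ k ∈ S, ω k =
          ∑ r, N r := by
        have h4 : ∑ k ∈ S, ω k = ∑ r, ∑ k ∈ S.filter (fun k => φ k = r), ω k :=
          (Finset.sum_fiberwise S φ ω).symm
        rw [h4, ← Finset.sum_add_distrib]
        apply Finset.sum_congr rfl
        intro r _
        have := hφ r
        omega
      have hSL : ∑ k ∈ S, ω k ≤ ∑ k ∈ L, ω k :=
        Finset.sum_le_sum_of_subset ((Finset.subset_insert _ _).trans hS)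
      obtain ⟨r₀, hr₀⟩ := balance_pigeon'
        (fun r => N r - ∑ k ∈ S.filter (fun k => φ k = r), ω k) (Wm + 2 + (a + 1) ^ 2) hρ (by
        rw [← hsum, htot] at hcap
        omega)
      refine ⟨Function.update φ k r₀, fun r => ?_⟩
      have h4 : ∀ r, S.filter (fun k' => Function.update φ k r₀ k' = r) =
          S.filter (fun k' => φ k' = r) := by
        intro r
        apply Finset.filter_congr
        intro k' hk'
        have : k' ≠ k := fun h => hkS (h ▸ hk')
        rw [Function.update_of_ne this]
      rw [Finset.filter_insert, Function.update_self]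
      by_cases hr : r₀ = r
      · subst hr
        rw [if_pos rfl, h4, Finset.sum_insert (fun h => hkS (Finset.mem_filter.mp h).1)]
        omega
      · rw [if_neg hr, h4]
        exact hφ r
  obtain ⟨φ, hφ⟩ := hgreedy L (Finset.Subset.refl _)
  -- the rest
  set c : ρ → ℕ := fun r => N r - ∑ k ∈ L.filter (fun k => φ k = r), ω k with hc
  have hcsum : ∑ r, c r = a * A.card + (a + 1) * C.card := by
    have h4 : ∑ k ∈ L, ω k = ∑ r, ∑ k ∈ L.filter (fun k => φ k = r), ω k :=
      (Finset.sum_fiberwise L φ ω).symm
    have h5 : ∑ r, c r + ∑ k ∈ L, ω k = ∑ r, N r := by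
      rw [h4, ← Finset.sum_add_distrib]
      apply Finset.sum_congr rfl
      intro r _
      have := hφ r
      rw [hc]
      simp only
      omega
    rw [← hsum, htot] at h5
    omega
  obtain ⟨x, y, hxy, hx, hy⟩ := balance_xy a A.card C.card ha c (fun r => by
    have := hφ r
    rw [hc]
    simp only
    omega) hcsum h1 h2
  obtain ⟨ψA, hψA⟩ := balance_fibre A x hx
  obtain ⟨ψC, hψC⟩ := balance_fibre C y hy
  refine ⟨fun k => if ω k = a then ψA k else if ω k = a + 1 then ψC k else φ k, fun r => ?_⟩
  have h4 : ∀ k, (if (if ω k = a then ψA k else if ω k = a + 1 then ψC k else φ k) = r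
      then ω k else 0) =
      (if ω k = a then (if ψA k = r then ω k else 0) else
        if ω k = a + 1 then (if ψC k = r then ω k else 0) else
          (if φ k = r then ω k else 0)) := by
    intro k
    by_cases h5 : ω k = a
    · rw [if_pos h5, if_pos h5]
    · by_cases h6 : ω k = a + 1
      · rw [if_neg h5, if_neg h5, if_pos h6, if_pos h6]
      · rw [if_neg h5, if_neg h5, if_neg h6, if_neg h6]
  rw [Finset.sum_filter, Finset.sum_congr rfl fun k _ => h4 k, hsplit]
  have hLL : ∑ k ∈ L, (if ω k = a then (if ψA k = r then ω k else 0) else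
        if ω k = a + 1 then (if ψC k = r then ω k else 0) else
          (if φ k = r then ω k else 0)) = ∑ k ∈ L.filter (fun k => φ k = r), ω k := by
    rw [Finset.sum_filter (fun k => φ k = r) ω]
    apply Finset.sum_congr rfl
    intro k hk
    have h5 := (Finset.mem_filter.mp hk).2
    rw [if_neg h5.1, if_neg h5.2]
  have hAA : ∑ k ∈ A, (if ω k = a then (if ψA k = r then ω k else 0) else
        if ω k = a + 1 then (if ψC k = r then ω k else 0) else
          (if φ k = r then ω k else 0)) = a * x r := by
    rw [← hψA r, mul_comm, ← smul_eq_mul, ← Finset.sum_const,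
      Finset.sum_filter (fun k => ψA k = r) (fun _ => a)]
    apply Finset.sum_congr rfl
    intro k hk
    have h5 := (Finset.mem_filter.mp hk).2
    rw [if_pos h5, h5]
  have hCC : ∑ k ∈ C, (if ω k = a then (if ψA k = r then ω k else 0) else
        if ω k = a + 1 then (if ψC k = r then ω k else 0) else
          (if φ k = r then ω k else 0)) = (a + 1) * y r := by
    rw [← hψC r, mul_comm, ← smul_eq_mul, ← Finset.sum_const,
      Finset.sum_filter (fun k => ψC k = r) (fun _ => a + 1)]
    apply Finset.sum_congr rfl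
    intro k hk
    have h5 := (Finset.mem_filter.mp hk).2
    rw [if_neg (by omega), if_pos h5, h5]
  rw [hLL, hAA, hCC, ← hxy r]
  have := hφ r
  rw [hc]
  simp only
  omega

end Pool.Agent.HDS
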