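import Pool.Agent.HDS.Defs
import Pool.Agent.HD.NetAlg

/-! # Row W3: items and leaves joined by a pairing network -/

set_option autoImplicit false

namespace Pool.Agent.HDS

open Finset Pool.Agent.HD

/-- paths joined by links, one after the other -/
theorem chain_zig {V : Type} {adj : V → V → Prop} (s : ℕ) (p : Fin (s + 1) → List V)
    (c : Fin s → List V) (a b : Fin (s + 1) → V) (hp : ∀ j, (p j).IsChain adj)
    (ha : ∀ j, (p j).head? = some (a j)) (hb : ∀ j, (p j).getLast? = some (b j))
    (hc : ∀ i : Fin s, (b i.castSucc :: (c i ++ [a i.succ])).IsChain adj) :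
    ∃ Q : List V, Q.IsChain adj ∧ Q.head? = some (a 0) ∧ Q.getLast? = some (b (Fin.last s)) ∧
      Q.length = ∑ j, (p j).length + ∑ i, (c i).length ∧
      (Q : Multiset V) = ∑ j, ((p j : List V) : Multiset V) +
        ∑ i, ((c i : List V) : Multiset V) := by
  induction s with
  | zero => exact ⟨p 0, hp 0, ha 0, hb 0, by simp, by simp⟩
  | succ s ih =>
    obtain ⟨Q, q1, q2, q3, q4, q5⟩ := ih (fun j => p j.castSucc) (fun i => c i.castSucc)
      (fun j => a j.castSucc) (fun j => b j.castSucc) (fun j => hp _) (fun j => ha _)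
      (fun j => hb _) (fun i => by
        have := hc i.castSucc
        rwa [Fin.succ_castSucc] at this)
    have h1 := hc (Fin.last s)
    rw [Fin.succ_last] at h1
    refine ⟨Q ++ (c (Fin.last s) ++ p (Fin.last (s + 1))), chain_join q1 q3 h1 (hp _) (ha _),
      head_join q2, last_join (last_join (hb _)), ?_, ?_⟩
    · have s1 : ∑ j, (p j).length = ∑ j : Fin (s + 1), (p j.castSucc).length +
          (p (Fin.last (s + 1))).length := Fin.sum_univ_castSucc _
      have s2 : ∑ i, (c i).length = ∑ i : Fin s, (c i.castSucc).length +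
          (c (Fin.last s)).length := Fin.sum_univ_castSucc _
      rw [List.length_append, List.length_append, q4, s1, s2]
      ring
    · have s1 : ∑ j, ((p j : List V) : Multiset V) =
          ∑ j : Fin (s + 1), ((p j.castSucc : List V) : Multiset V) +
          ((p (Fin.last (s + 1)) : List V) : Multiset V) := Fin.sum_univ_castSucc _
      have s2 : ∑ i, ((c i : List V) : Multiset V) =
          ∑ i : Fin s, ((c i.castSucc : List V) : Multiset V) +
          ((c (Fin.last s) : List V) : Multiset V) := Fin.sum_univ_castSucc _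
      rw [← Multiset.coe_add, ← Multiset.coe_add, q5, s1, s2]
      abel

/-- the pairs of ports joined by the network: for every chain `r` with the items `(r, i)` the
`j`-th path runs from the item `j - 1` (or the start) to the item `j` (or the end) -/
def chainE {K ρ : Type} (s : ρ → ℕ) (E : (Σ r, Fin (s r)) ≃ K) :
    (Σ r, Fin (s r + 1)) × Bool ≃ (K × Bool) ⊕ (ρ × Bool) where
  toFun x := match x with
    | (⟨r, j⟩, true) => Fin.cases (Sum.inr (r, true)) (fun i => Sum.inl (E ⟨r, i⟩, false)) j
    | (⟨r, j⟩, false) => Fin.lastCases (Sum.inr (r, false)) (fun i => Sum.inl (E ⟨r, i⟩, true)) j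
  invFun y := match y with
    | Sum.inl (k, true) => (⟨(E.symm k).1, (E.symm k).2.castSucc⟩, false)
    | Sum.inl (k, false) => (⟨(E.symm k).1, (E.symm k).2.succ⟩, true)
    | Sum.inr (r, true) => (⟨r, 0⟩, true)
    | Sum.inr (r, false) => (⟨r, Fin.last _⟩, false)
  left_inv x := by
    obtain ⟨⟨r, j⟩, b⟩ := x
    cases b with
    | true =>
      induction j using Fin.cases with
      | zero => rfl
      | succ i =>
        change ((⟨(E.symm (E ⟨r, i⟩)).1, (E.symm (E ⟨r, i⟩)).2.succ⟩ : Σ r, Fin (s r + 1)), true) =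
          _
        rw [Equiv.symm_apply_apply]
    | false =>
      induction j using Fin.lastCases with
      | last => simp
      | cast i =>
        simp only [Fin.lastCases_castSucc]
        rw [Equiv.symm_apply_apply]
  right_inv y := by
    rcases y with ⟨k, b⟩ | ⟨r, b⟩
    · cases b <;> simp
    · cases b <;> simp

theorem chain_all {V K ρ : Type} [Fintype K] [DecidableEq K] [Fintype ρ] [DecidableEq ρ]
    {adj : V → V → Prop} (hsymm : ∀ u v, adj u v → adj v u) {SN SC SL S : Finset V}
    (I : (K × Bool) ⊕ (ρ × Bool) → V) {nn q : ℕ} (len : K → ℕ) (hN : PNet adj SN I nn)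
    (hC : Links adj SC (fun k => I (Sum.inl (k, true))) (fun k => I (Sum.inl (k, false))) len)
    (leaf : ρ × Bool → V) (hL : Links adj SL leaf (fun y => I (Sum.inr y)) (fun _ => q))
    (hS : SN.val + SC.val + SL.val = S.val) (φ : K → ρ) :
    Links adj S (fun r => leaf (r, true)) (fun r => leaf (r, false))
      (fun r => 2 * q + nn + ∑ k ∈ univ.filter (fun k => φ k = r), (len k + nn)) := by
  classical
  -- enumeration of the items of every chain
  let s : ρ → ℕ := fun r => Fintype.card {k : K // φ k = r}
  let f : ∀ r, Fin (s r) ≃ {k : K // φ k = r} := fun r => (Fintype.equivFin _).symm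
  let E : (Σ r, Fin (s r)) ≃ K := (Equiv.sigmaCongrRight f).trans (Equiv.sigmaFiberEquiv φ)
  have hE : ∀ r i, E ⟨r, i⟩ = (f r i).1 := fun r i => rfl
  have hsum : ∀ {A : Type} [AddCommMonoid A] (g : K → A) (r : ρ),
      ∑ k ∈ univ.filter (fun k => φ k = r), g k = ∑ i : Fin (s r), g (E ⟨r, i⟩) := by
    intro A _ g r
    rw [Finset.sum_subtype (p := fun k => φ k = r) (univ.filter (fun k => φ k = r))
      (by intro k; simp) g]
    exact (Equiv.sum_comp (f r) fun k => g k.1).symm
  obtain ⟨P, p1, p2, p3, p4, p5⟩ := hN (Σ r, Fin (s r + 1)) (chainE s E)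
  obtain ⟨C, c1, c2, c3⟩ := hC
  obtain ⟨L, l1, l2, l3⟩ := hL
  have key : ∀ r, ∃ Q : List V, Q.IsChain adj ∧ Q.head? = some (I (Sum.inr (r, true))) ∧
      Q.getLast? = some (I (Sum.inr (r, false))) ∧
      Q.length = nn + ∑ k ∈ univ.filter (fun k => φ k = r), (len k + nn) ∧
      (Q : Multiset V) = ∑ j : Fin (s r + 1), ((P ⟨r, j⟩ : List V) : Multiset V) +
        ∑ i : Fin (s r), ((C (E ⟨r, i⟩) : List V) : Multiset V) := by
    intro r
    obtain ⟨Q, q1, q2, q3, q4, q5⟩ := chain_zig (adj := adj) (s r) (fun j => P ⟨r, j⟩)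
      (fun i => C (E ⟨r, i⟩)) (fun j => I (chainE s E (⟨r, j⟩, true)))
      (fun j => I (chainE s E (⟨r, j⟩, false))) (fun j => p1 _) (fun j => p2 _) (fun j => p3 _)
      (fun i => by
        have := c1 (E ⟨r, i⟩)
        simpa [chainE] using this)
    refine ⟨Q, q1, ?_, ?_, ?_, q5⟩
    · rw [q2]
      simp [chainE]
    · rw [q3]
      simp [chainE]
    · rw [q4, hsum, Finset.sum_add_distrib]
      simp only [p4, c2]
      rw [Fin.sum_univ_castSucc]
      simp only [Finset.sum_const, Finset.card_univ, Fintype.card_fin, smul_eq_mul]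
      ring
  choose Q q1 q2 q3 q4 q5 using key
  refine ⟨fun r => L (r, true) ++ (Q r ++ (L (r, false)).reverse), ?_, ?_, ?_⟩
  · intro r
    have h1 : ([leaf (r, true)] ++ (L (r, true) ++ Q r)).IsChain adj :=
      chain_join (t := leaf (r, true)) (List.isChain_singleton _) rfl (l1 (r, true)) (q1 r) (q2 r)
    have h2 : (I (Sum.inr (r, false)) :: ((L (r, false)).reverse ++ [leaf (r, false)])).IsChain
        adj := by
      have h3 := l1 (r, false)
      have h4 : (leaf (r, false) :: (L (r, false) ++ [I (Sum.inr (r, false))])).reverse.IsChain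
          adj := by
        rw [List.isChain_reverse]
        exact h3.imp fun u v h => hsymm _ _ h
      simpa using h4
    have h5 : ([leaf (r, true)] ++ (L (r, true) ++ Q r)).getLast? =
        some (I (Sum.inr (r, false))) := last_join (last_join (q3 r))
    have h6 := chain_join h1 h5 h2 (List.isChain_singleton (leaf (r, false))) rfl
    simpa using h6
  · intro r
    rw [List.length_append, List.length_append, List.length_reverse, l2, l2, q4]
    ring
  · have e : ∀ r, ((L (r, true) ++ (Q r ++ (L (r, false)).reverse) : List V) : Multiset V) =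
        (∑ j : Fin (s r + 1), ((P ⟨r, j⟩ : List V) : Multiset V)) +
          (∑ i : Fin (s r), ((C (E ⟨r, i⟩) : List V) : Multiset V)) +
          (∑ b : Bool, ((L (r, b) : List V) : Multiset V)) := by
      intro r
      rw [← Multiset.coe_add, ← Multiset.coe_add, Multiset.coe_reverse, q5, Fintype.sum_bool]
      abel
    rw [Finset.sum_congr rfl fun r _ => e r, Finset.sum_add_distrib, Finset.sum_add_distrib, ← hS,
      ← p5, ← c3, ← l3, Fintype.sum_sigma, Fintype.sum_prod_type]
    congr 2
    rw [← Equiv.sum_comp E, Fintype.sum_sigma]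

end Pool.Agent.HDS
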