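import Mathlib
import Pool.Agent.HD.Defs

/-!
MP_134267_co, Theorem HDS (small degrees, helper25): definitions shared by all modules.
-/

set_option autoImplicit false

namespace Pool.Agent.HDS

open Finset Pool.Agent.HD

/-- the neighbours of `v` in `F` as a finite set -/
noncomputable def nf {V : Type} [Fintype V] (F : SimpleGraph V) (v : V) : Finset V := by
  classical exact univ.filter (fun u => F.Adj v u)

theorem mem_nf {V : Type} [Fintype V] {F : SimpleGraph V} {v u : V} : u ∈ nf F v ↔ F.Adj v u := by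
  simp [nf]

/-- twice the number of edges -/
noncomputable def vol {V : Type} [Fintype V] (F : SimpleGraph V) : ℕ := ∑ v, (nf F v).card

/-- the rotation: add the edge `w u`, remove the edge `u x` -/
def mv {V : Type} (F : SimpleGraph V) (w u x : V) : SimpleGraph V where
  Adj a b := (F.Adj a b ∧ s(a, b) ≠ s(u, x)) ∨ (a ≠ b ∧ s(a, b) = s(w, u))
  symm := ⟨by
    rintro a b (⟨h1, h2⟩ | ⟨h1, h2⟩)
    · exact Or.inl ⟨h1.symm, by rwa [Sym2.eq_swap]⟩
    · exact Or.inr ⟨h1.symm, by rwa [Sym2.eq_swap]⟩⟩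
  loopless := ⟨by
    rintro a (⟨h1, _⟩ | ⟨h1, _⟩)
    · exact F.loopless.irrefl a h1
    · exact h1 rfl⟩

/-! ## Closing phase (part Q) -/

/-- `F` with an additional vertex `none` joined to the vertices of `Mk` -/
def tg {V : Type} (Mk : Finset V) (F : SimpleGraph V) : SimpleGraph (Option V) where
  Adj a b := (∃ x y, a = some x ∧ b = some y ∧ F.Adj x y) ∨
    (a = none ∧ ∃ y ∈ Mk, b = some y) ∨ (b = none ∧ ∃ x ∈ Mk, a = some x)
  symm := ⟨by
    rintro a b (⟨x, y, h1, h2, h3⟩ | ⟨h1, h2⟩ | ⟨h1, h2⟩)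
    · exact Or.inl ⟨y, x, h2, h1, h3.symm⟩
    · exact Or.inr (Or.inr ⟨h1, h2⟩)
    · exact Or.inr (Or.inl ⟨h1, h2⟩)⟩
  loopless := ⟨by
    rintro a (⟨x, y, h1, h2, h3⟩ | ⟨h1, y, _, h2⟩ | ⟨h1, y, _, h2⟩)
    · rw [h1] at h2
      obtain rfl : x = y := Option.some.inj h2
      exact F.loopless.irrefl x h3
    · rw [h1] at h2; exact absurd h2 (by simp)
    · rw [h1] at h2; exact absurd h2 (by simp)⟩

/-- Rotation histories: start with the graph `F₀` and the end `z`; pivots in `U`; `j` is the number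
of steps, `F` the present graph, `w` the present end, `τ` the set of touched vertices. -/
inductive Hist {V : Type} [DecidableEq V] (G F₀ : SimpleGraph V) (U : Finset V)
    (Ok : SimpleGraph V → V → Prop) (z : V) : ℕ → SimpleGraph V → V → Finset V → Prop
  | start : Hist G F₀ U Ok z 0 F₀ z {z}
  | step {j : ℕ} {F : SimpleGraph V} {w : V} {τ : Finset V} (h : Hist G F₀ U Ok z j F w τ)
      (u x : V) (hu : u ∈ U) (huτ : u ∉ τ) (hG : G.Adj w u) (hF : ¬ F.Adj w u)
      (hx : F₀.Adj u x) (hok : Ok (mv F w u x) x) :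
      Hist G F₀ U Ok z (j + 1) (mv F w u x) x (insert u (insert x τ))

/-- the static data of the closing phase: `cap v` = wanted degree of `v`, `bid v` = the block of
`v` (its two pads belong to the block, the vertices of the cores have `bid v = none`), `isA k` =
the block `k` is in the class A (otherwise C), `Va`, `Vc` = the vertices of the blocks of the two
classes without the pads, `Mk` = marks (one vertex in each core), `Fcore` = the paths of the cores,
`Fi` = the initial linear forest -/
structure CD (V : Type) (M : ℕ) where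
  cap : V → ℕ
  bid : V → Option (Fin M)
  isA : Fin M → Prop
  Va : Finset V
  Vc : Finset V
  Mk : Finset V
  Fcore : SimpleGraph V
  Fi : SimpleGraph V

/-- the conditions on the static data -/
structure CD.Ok {V : Type} [Fintype V] [DecidableEq V] {M : ℕ} (c : CD V M) (G : SimpleGraph V)
    (B δ : ℕ) : Prop where
  capV : ∀ v, c.cap v ≤ 2
  capA : ∀ v ∈ c.Va, c.cap v = 2
  capC : ∀ v ∈ c.Vc, c.cap v = 2
  bidA : ∀ v ∈ c.Va, ∃ k, c.bid v = some k ∧ c.isA k
  bidC : ∀ v ∈ c.Vc, ∃ k, c.bid v = some k ∧ ¬ c.isA k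
  bidM : ∀ v ∈ c.Mk, c.bid v = none
  bidF : ∀ a b, c.Fcore.Adj a b → c.bid a = none
  bidI : ∀ a b, c.Fi.Adj a b → c.bid a = c.bid b
  size : ∀ k, (univ.filter (fun v => c.bid v = some k)).card ≤ B
  nbA : ∀ v, δ ≤ (nb G c.Va v).card
  nbC : ∀ v, δ ≤ (nb G c.Vc v).card

/-- the state of the closing phase: `F` = the present forest, `Tc` = touched blocks -/
structure CD.St {V : Type} [Fintype V] [DecidableEq V] {M : ℕ} (c : CD V M) (G : SimpleGraph V)
    (F : SimpleGraph V) (Tc : Finset (Fin M)) : Prop where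
  le : F ≤ G
  deg : ∀ v, (nf F v).card ≤ c.cap v
  full : ∀ v, c.bid v ≠ none → (nf F v).card = c.cap v
  acy : (tg c.Mk F).IsAcyclic
  core : c.Fcore ≤ F
  unt : ∀ v k, c.bid v = some k → k ∉ Tc → nf F v = nf c.Fi v

/-- the linear forest whose components are the lists `P i` -/
def lgr {V ι : Type} (P : ι → List V) : SimpleGraph V where
  Adj a b := a ≠ b ∧ ∃ i, [a, b] <:+: P i ∨ [b, a] <:+: P i
  symm := ⟨fun _ _ h => ⟨h.1.symm, h.2.imp fun _ hi => hi.symm⟩⟩
  loopless := ⟨fun _ h => h.1 rfl⟩

/-! ## Reserve and final assembly (part W) -/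

/-- A pairing network: for every division of the ports into pairs, `S` is covered by disjoint
paths with `n` vertices each which join the two ports of every pair. -/
def PNet {V ι : Type} (adj : V → V → Prop) (S : Finset V) (I : ι → V) (n : ℕ) : Prop :=
  ∀ (κ : Type) [Fintype κ] (e : κ × Bool ≃ ι),
    Lk adj S (fun k => I (e (k, true))) (fun k => I (e (k, false))) (fun _ => n)

end Pool.Agent.HDS
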