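import Mathlib
import Pool.Agent.HDS.Defs

/-!
MP_134267_co, Theorem HDS, row Q3: the choice of the rotation edge in the closing phase.
-/

set_option autoImplicit false

namespace Pool.Agent.HDS

open Finset Pool.Agent.HD

/-- a set of vertices closed under adjacency contains everything reachable from its members -/
theorem q3_closed {α : Type} {H : SimpleGraph α} (S : α → Prop)
    (hS : ∀ a b, H.Adj a b → S a → S b) {a b : α} (h : H.Reachable a b) (ha : S a) : S b := by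
  obtain ⟨p⟩ := h
  induction p with
  | nil => exact ha
  | cons hadj _ ih => exact ih (hS _ _ hadj ha)

/-- an edge of a forest is a bridge -/
theorem q3_bridge {α : Type} {H : SimpleGraph α} (hac : H.IsAcyclic) {u x : α} (h : H.Adj u x) :
    ¬ (H.deleteEdges {s(u, x)}).Reachable u x :=
  SimpleGraph.isBridge_iff.mp (SimpleGraph.isAcyclic_iff_forall_adj_isBridge.mp hac h)

theorem q3_le {α : Type} (H : SimpleGraph α) (u x : α) : H.deleteEdges {s(u, x)} ≤ H :=
  SimpleGraph.deleteEdges_le _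

/-- the first edge of a path -/
theorem q3_first {α : Type} {H : SimpleGraph α} {u y : α} (huy : u ≠ y)
    (h : H.Reachable u y) : ∃ x, H.Adj u x ∧ (H.deleteEdges {s(u, x)}).Reachable x y := by
  classical
  obtain ⟨p, hp⟩ := h.exists_isPath
  cases p with
  | nil => exact absurd rfl huy
  | cons hadj q =>
    rename_i x
    rw [SimpleGraph.Walk.cons_isPath_iff] at hp
    refine ⟨x, hadj, SimpleGraph.reachable_deleteEdges_iff_exists_walk.mpr ⟨q, fun he => hp.2 ?_⟩⟩
    exact q.fst_mem_support_of_mem_edges he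

/-- a branch at `u` gives a path from `u` -/
theorem q3_path {α : Type} {H : SimpleGraph α} (hac : H.IsAcyclic) {u x y : α} (h : H.Adj u x)
    (hr : (H.deleteEdges {s(u, x)}).Reachable x y) :
    ∃ q : H.Walk x y, (SimpleGraph.Walk.cons h q).IsPath := by
  classical
  obtain ⟨q, hq⟩ := hr.exists_isPath
  refine ⟨q.mapLe (q3_le H u x), ?_⟩
  rw [SimpleGraph.Walk.cons_isPath_iff]
  refine ⟨(SimpleGraph.Walk.mapLe_isPath _).mpr hq, fun hu => ?_⟩
  rw [SimpleGraph.Walk.support_mapLe_eq_support] at hu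
  exact q3_bridge hac h (q.takeUntil u hu).reachable.symm

/-- a vertex lies in at most one branch at `u` -/
theorem q3_unique {α : Type} {H : SimpleGraph α} (hac : H.IsAcyclic) {u x x' y : α}
    (h : H.Adj u x) (h' : H.Adj u x')
    (hr : (H.deleteEdges {s(u, x)}).Reachable x y)
    (hr' : (H.deleteEdges {s(u, x')}).Reachable x' y) : x = x' := by
  obtain ⟨q, hq⟩ := q3_path hac h hr
  obtain ⟨q', hq'⟩ := q3_path hac h' hr'
  have he := hac.path_unique (⟨_, hq⟩ : H.Path u y) ⟨_, hq'⟩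
  have he' : SimpleGraph.Walk.cons h q = SimpleGraph.Walk.cons h' q' := congrArg Subtype.val he
  have := congrArg SimpleGraph.Walk.snd he'
  simpa using this

/-- adding the edge `w u` to a graph in which `u` does not reach `w` -/
theorem q3_acyclic {α : Type} {H D : SimpleGraph α} (hac : H.IsAcyclic) (hD : D ≤ H) {u w : α}
    (hr : ¬ D.Reachable u w) {H' : SimpleGraph α} (hH' : H' ≤ D ⊔ SimpleGraph.edge w u) :
    H'.IsAcyclic := by
  refine SimpleGraph.IsAcyclic.anti hH' ?_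
  exact SimpleGraph.IsAcyclic.sup_edge_of_not_reachable (fun h => hr h.symm)
    (SimpleGraph.IsAcyclic.anti hD hac)

/-- the general choice -/
theorem q3_choice {α : Type} {H : SimpleGraph α} (hac : H.IsAcyclic) {u w x₀ : α} (hwu : w ≠ u)
    (h₀ : H.Adj u x₀) : ∃ x, H.Adj u x ∧ ¬ (H.deleteEdges {s(u, x)}).Reachable u w := by
  by_cases hr : H.Reachable u w
  · obtain ⟨x, hx, hxw⟩ := q3_first hwu.symm hr
    exact ⟨x, hx, fun h => q3_bridge hac hx (h.trans hxw.symm)⟩
  · exact ⟨x₀, h₀, fun h => hr (h.mono (q3_le H u x₀))⟩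

/-- the rotation in terms of Mathlib operations -/
theorem q3_mv_le {V : Type} (F : SimpleGraph V) (w u x : V) :
    mv F w u x ≤ F.deleteEdges {s(u, x)} ⊔ SimpleGraph.edge w u := by
  intro a b hab
  rw [SimpleGraph.sup_adj, SimpleGraph.deleteEdges_adj]
  rcases hab with ⟨h1, h2⟩ | ⟨h1, h2⟩
  · exact Or.inl ⟨h1, h2⟩
  · right
    rw [SimpleGraph.edge_adj]
    rw [Sym2.eq_iff] at h2
    rcases h2 with ⟨rfl, rfl⟩ | ⟨rfl, rfl⟩
    · exact ⟨Or.inl ⟨rfl, rfl⟩, h1⟩
    · exact ⟨Or.inr ⟨rfl, rfl⟩, h1⟩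

theorem q3_tg_mv_le {V : Type} (Mk : Finset V) (F : SimpleGraph V) (w u x : V) :
    tg Mk (mv F w u x) ≤
      (tg Mk F).deleteEdges {s(some u, some x)} ⊔ SimpleGraph.edge (some w) (some u) := by
  intro a b hab
  rw [SimpleGraph.sup_adj, SimpleGraph.deleteEdges_adj]
  rcases hab with ⟨p, q, rfl, rfl, hpq⟩ | ⟨rfl, y, hy, rfl⟩ | ⟨rfl, y, hy, rfl⟩
  · rcases hpq with ⟨h1, h2⟩ | ⟨h1, h2⟩
    · refine Or.inl ⟨Or.inl ⟨p, q, rfl, rfl, h1⟩, fun hc => h2 ?_⟩
      simpa [Sym2.eq_iff] using hc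
    · right
      rw [SimpleGraph.edge_adj]
      rw [Sym2.eq_iff] at h2
      rcases h2 with ⟨rfl, rfl⟩ | ⟨rfl, rfl⟩
      · exact ⟨Or.inl ⟨rfl, rfl⟩, fun h => h1 (Option.some.inj h)⟩
      · exact ⟨Or.inr ⟨rfl, rfl⟩, fun h => h1 (Option.some.inj h)⟩
  · refine Or.inl ⟨Or.inr (Or.inl ⟨rfl, y, hy, rfl⟩), fun hc => ?_⟩
    simp [Sym2.eq_iff] at hc
  · refine Or.inl ⟨Or.inr (Or.inr ⟨rfl, y, hy, rfl⟩), fun hc => ?_⟩
    simp [Sym2.eq_iff] at hc

/-- Row Q3, first part. -/
theorem choice_tg {V : Type} [Fintype V] [DecidableEq V] (Mk : Finset V) (F : SimpleGraph V)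
    (hac : (tg Mk F).IsAcyclic) {w u : V} (hwu : w ≠ u) (hn : ¬ F.Adj w u)
    (hu : (nf F u).card = 2) (huM : u ∉ Mk) :
    ∃ x, F.Adj u x ∧ (tg Mk (mv F w u x)).IsAcyclic := by
  have hne : (nf F u).Nonempty := by
    rw [← Finset.card_pos]; omega
  obtain ⟨x₀, hx₀⟩ := hne
  rw [mem_nf] at hx₀
  obtain ⟨x, hx, hr⟩ := q3_choice (w := some w) (u := some u) (x₀ := some x₀) hac
    (fun h => hwu (Option.some.inj h)) (Or.inl ⟨u, x₀, rfl, rfl, hx₀⟩)
  rcases hx with ⟨p, q, hp, rfl, hpq⟩ | ⟨h1, _⟩ | ⟨_, y, hy, h1⟩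
  · obtain rfl : u = p := Option.some.inj hp
    exact ⟨q, hpq, q3_acyclic hac (q3_le _ _ _) hr (q3_tg_mv_le Mk F w u q)⟩
  · exact absurd h1 (by simp)
  · obtain rfl : u = y := Option.some.inj h1
    exact absurd hy huM

/-- non-reachability after the rotation -/
theorem q3_not_reach {V : Type} {F : SimpleGraph V} {w u x z : V}
    (h1 : ¬ (F.deleteEdges {s(u, x)}).Reachable x u)
    (h2 : ¬ (F.deleteEdges {s(u, x)}).Reachable x w)
    (h3 : ¬ (F.deleteEdges {s(u, x)}).Reachable x z) : ¬ (mv F w u x).Reachable x z := by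
  intro h
  refine h3 (q3_closed (fun y => (F.deleteEdges {s(u, x)}).Reachable x y) ?_ h
    (SimpleGraph.Reachable.refl _))
  intro a b hab ha
  have := q3_mv_le F w u x hab
  rw [SimpleGraph.sup_adj] at this
  rcases this with h' | h'
  · exact ha.trans h'.reachable
  · rw [SimpleGraph.edge_adj] at h'
    rcases h'.1 with ⟨rfl, rfl⟩ | ⟨rfl, rfl⟩
    · exact absurd ha h2
    · exact absurd ha h1

/-- Row Q3, second part. -/
theorem choice_base {V : Type} [Fintype V] [DecidableEq V] (F : SimpleGraph V)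
    (hac : F.IsAcyclic) {w u z : V} (hwu : w ≠ u) (hn : ¬ F.Adj w u)
    (hu : (nf F u).card = 2) (huz : u ≠ z)
    (hr : (w = z ∧ ¬ F.Reachable u z) ∨ ¬ F.Reachable w z) :
    ∃ x, F.Adj u x ∧ (mv F w u x).IsAcyclic ∧ ¬ (mv F w u x).Reachable x z := by
  obtain ⟨x₁, x₂, hx12, hx⟩ := Finset.card_eq_two.mp hu
  have ha1 : F.Adj u x₁ := by rw [← mem_nf, hx]; simp
  have ha2 : F.Adj u x₂ := by rw [← mem_nf, hx]; simp
  rcases hr with ⟨rfl, hr⟩ | hr
  · refine ⟨x₁, ha1, q3_acyclic hac (q3_le _ _ _) (fun h => hr (h.mono (q3_le _ _ _)))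
      (q3_mv_le F w u x₁), ?_⟩
    refine q3_not_reach (fun h => q3_bridge hac ha1 h.symm) ?_ ?_
    · exact fun h => hr (ha1.reachable.trans (h.mono (q3_le _ _ _)))
    · exact fun h => hr (ha1.reachable.trans (h.mono (q3_le _ _ _)))
  · by_cases huw : F.Reachable u w
    · obtain ⟨x, hx', hxw⟩ := q3_first hwu.symm huw
      refine ⟨x, hx', q3_acyclic hac (q3_le _ _ _)
        (fun h => q3_bridge hac hx' (h.trans hxw.symm)) (q3_mv_le F w u x), ?_⟩
      intro h
      refine hr (q3_closed (fun y => F.Reachable w y) ?_ h (hxw.mono (q3_le _ _ _)).symm)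
      intro a b hab ha
      rcases hab with ⟨h1, _⟩ | ⟨_, h2⟩
      · exact ha.trans h1.reachable
      · rw [Sym2.eq_iff] at h2
        rcases h2 with ⟨rfl, rfl⟩ | ⟨rfl, rfl⟩
        · exact huw.symm
        · exact SimpleGraph.Reachable.refl _
    · have key : ∃ x, F.Adj u x ∧ ¬ (F.deleteEdges {s(u, x)}).Reachable x z := by
        by_contra hcon
        push_neg at hcon
        exact hx12 (q3_unique hac ha1 ha2 (hcon x₁ ha1) (hcon x₂ ha2))
      obtain ⟨x, hx', hxz⟩ := key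
      refine ⟨x, hx', q3_acyclic hac (q3_le _ _ _) (fun h => huw (h.mono (q3_le _ _ _)))
        (q3_mv_le F w u x), ?_⟩
      refine q3_not_reach (fun h => q3_bridge hac hx' h.symm) ?_ hxz
      exact fun h => huw (hx'.reachable.trans (h.mono (q3_le _ _ _)))

end Pool.Agent.HDS
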