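import Mathlib
import Pool.Agent.HDS.Defs

/-! Row W5: cutting paths into pieces of length at most `a` -/

set_option autoImplicit false

namespace Pool.Agent.HDS

open Finset Pool.Agent.HD

theorem chunk_one {V : Type} {adj : V → V → Prop} (a : ℕ) (ha : 1 ≤ a) : ∀ (n : ℕ) (l : List V),
    l.length = n → l.IsChain adj →
    ∃ L : List (List V), (∀ b ∈ L, b ≠ [] ∧ b.IsChain adj ∧ b.length ≤ a) ∧
      (L.map (fun b : List V => (b : Multiset V))).sum = (l : Multiset V) ∧
      a * L.length ≤ l.length + a ∧
      l.length ≤ a * (L.map (fun b => if b.length = a then 1 else 0)).sum + a := by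
  intro n
  induction n using Nat.strong_induction_on with
  | _ n ih =>
  intro l hl hc
  rcases Nat.lt_or_ge l.length a with h1 | h1
  · rcases List.eq_nil_or_concat l with h0 | ⟨l', x, hx⟩
    · subst h0
      exact ⟨[], by simp, by simp, by simp, by simp⟩
    · refine ⟨[l], ?_, by simp, by simp, by omega⟩
      intro b hb
      rw [List.mem_singleton] at hb
      subst hb
      exact ⟨by rw [hx]; simp, hc, h1.le⟩
  · obtain ⟨L, h2, h3, h4, h5⟩ := ih (l.drop a).length (by rw [List.length_drop]; omega) (l.drop a)
      rfl (hc.drop a)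
    rw [List.length_drop] at h4 h5
    have h6 : (l.take a).length = a := by rw [List.length_take]; omega
    refine ⟨l.take a :: L, ?_, ?_, ?_, ?_⟩
    · intro b hb
      rcases List.mem_cons.1 hb with rfl | hb
      · refine ⟨?_, hc.take a, h6.le⟩
        intro h0
        rw [h0] at h6
        simp at h6
        omega
      · exact h2 b hb
    · rw [List.map_cons, List.sum_cons, h3]
      rw [Multiset.coe_add, List.take_append_drop]
    · rw [List.length_cons, mul_add, mul_one]
      omega
    · rw [List.map_cons, List.sum_cons, if_pos h6, mul_add, mul_one]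
      omega

theorem chunk {V : Type} {adj : V → V → Prop} (a : ℕ) (ha : 1 ≤ a) {k : ℕ} (P : Fin k → List V)
    (hP : ∀ i, P i ≠ []) (hc : ∀ i, (P i).IsChain adj) (S : Finset V)
    (hS : ∑ i, ((P i : List V) : Multiset V) = S.val) :
    ∃ (M : ℕ) (β : Fin M → List V), (∀ i, β i ≠ [] ∧ (β i).IsChain adj ∧ (β i).length ≤ a) ∧
      (∑ i, ((β i : List V) : Multiset V) = S.val) ∧ a * M ≤ S.card + a * k ∧
      S.card ≤ a * (univ.filter (fun i => (β i).length = a)).card + a * k := by
  classical
  choose L h1 h2 h3 h4 using fun i => chunk_one a ha (P i).length (P i) rfl (hc i)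
  set LL : List (List V) := (List.ofFn L).flatten with hLL
  have hsum : ∀ {β : Type} [AddCommMonoid β] (f : List V → β),
      ∑ i : Fin LL.length, f (LL.get i) = ∑ i, ((L i).map f).sum := by
    intro β _ f
    rw [← List.sum_ofFn]
    have e1 : List.ofFn (fun i : Fin LL.length => f (LL.get i)) = LL.map f := by
      rw [← List.ofFn_get (LL.map f)]
      simp [List.ofFn_eq_map]
    rw [e1, hLL, List.map_flatten, List.sum_flatten, List.map_map, List.map_ofFn, List.sum_ofFn]
    rfl
  have hcardS : S.card = ∑ i, (P i).length := by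
    rw [Finset.card_def, ← hS, Multiset.card_sum]
    rfl
  refine ⟨LL.length, fun i => LL.get i, ?_, ?_, ?_, ?_⟩
  · intro i
    have hm : ∀ x ∈ LL, x ≠ [] ∧ x.IsChain adj ∧ x.length ≤ a := by
      intro x hx
      rw [hLL, List.mem_flatten] at hx
      obtain ⟨l, hl, hx⟩ := hx
      rw [List.mem_ofFn] at hl
      obtain ⟨j, rfl⟩ := hl
      exact h1 j _ hx
    exact hm _ (List.get_mem LL i)
  · rw [hsum (fun b : List V => (b : Multiset V)), ← hS]
    exact Finset.sum_congr rfl fun i _ => h2 i
  · have e1 : LL.length = ∑ i, (L i).length := by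
      have := hsum (fun _ => (1 : ℕ))
      simpa using this
    rw [e1, hcardS, Finset.mul_sum]
    calc ∑ i, a * (L i).length ≤ ∑ i, ((P i).length + a) := Finset.sum_le_sum fun i _ => h3 i
      _ = ∑ i, (P i).length + a * k := by
        rw [Finset.sum_add_distrib, Finset.sum_const, Finset.card_univ, Fintype.card_fin,
          smul_eq_mul, mul_comm k a]
  · have e1 : (univ.filter (fun i => (LL.get i).length = a)).card =
        ∑ i, ((L i).map (fun b => if b.length = a then 1 else 0)).sum := by
      rw [Finset.card_filter]
      exact hsum (fun b => if b.length = a then 1 else 0)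
    rw [e1, hcardS, Finset.mul_sum]
    calc ∑ i, (P i).length ≤
        ∑ i, (a * ((L i).map (fun b => if b.length = a then 1 else 0)).sum + a) :=
          Finset.sum_le_sum fun i _ => h4 i
      _ = _ := by
        rw [Finset.sum_add_distrib, Finset.sum_const, Finset.card_univ, Fintype.card_fin,
          smul_eq_mul, mul_comm k a]

end Pool.Agent.HDS
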