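import Pool.Agent.HDS.Defs
import Pool.Agent.HD.FPInit

/-!
MP_134267_co, Theorem HDS, row Q5 (helper14): expansion, joined sets, good pivots.
-/

set_option autoImplicit false

namespace Pool.Agent.HDS

open Finset Pool.Agent.HD

theorem expand_mem_nb {V : Type} [DecidableEq V] (G : SimpleGraph V) (W : Finset V) (x y : V) :
    y ∈ nb G W x ↔ y ∈ W ∧ G.Adj x y := by
  simp [nb]

/-- number of edges between `X` and `Y` from below -/
theorem expand_edges {V : Type} [Fintype V] [DecidableEq V] (G : SimpleGraph V)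
    [DecidableRel G.Adj] (X Y : Finset V) (δ : ℕ) (h : ∀ v ∈ X, δ ≤ 2 * (nb G Y v).card) :
    δ * X.card ≤ 2 * eST G X Y := by
  have h1 : eST G X Y = ∑ v ∈ X, (nb G Y v).card := by
    unfold eST
    rw [Finset.card_filter, Finset.sum_product]
    refine Finset.sum_congr rfl fun v _ => ?_
    rw [← Finset.card_filter]
    congr 1
    ext y
    rw [mem_filter, expand_mem_nb]
  rw [h1, Finset.mul_sum]
  calc δ * X.card = ∑ _v ∈ X, δ := by rw [Finset.sum_const, smul_eq_mul, mul_comm]
    _ ≤ _ := Finset.sum_le_sum fun v hv => h v hv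

/-- the mixing upper bound when `|Y| ≤ D |X|` -/
theorem expand_upper {V : Type} [Fintype V] [DecidableEq V] (G : SimpleGraph V)
    [DecidableRel G.Adj] {d : ℕ} {lam : ℝ} (h : IsNDL G d lam) (hlam0 : 0 ≤ lam)
    (X Y : Finset V) (D : ℕ) (hD : 1 ≤ D) (hY : Y.card ≤ D * X.card) (ε : ℝ)
    (hε : (d : ℝ) * Y.card ≤ ε * Fintype.card V) (hX : X.Nonempty) :
    (eST G X Y : ℝ) ≤ (ε + lam * D) * X.card := by
  have h2 := fpi_mix G h hlam0 X Y
  have hX0 : (0 : ℝ) < X.card := by exact_mod_cast hX.card_pos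
  have hn : (0 : ℝ) < Fintype.card V := by
    have h2 : X.card ≤ Fintype.card V := Finset.card_le_univ X
    exact_mod_cast lt_of_lt_of_le hX.card_pos h2
  have hYR : (Y.card : ℝ) ≤ D * X.card := by exact_mod_cast hY
  have hDR : (1 : ℝ) ≤ D := by exact_mod_cast hD
  have h3 : (eST G X Y : ℝ) ≤ (d : ℝ) / Fintype.card V * X.card * Y.card
      + lam * √(X.card * Y.card) := by
    have := (abs_le.1 h2).2
    linarith
  have h4 : √((X.card : ℝ) * Y.card) ≤ D * X.card := by
    rw [Real.sqrt_le_left (by positivity)]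
    have h5 : (X.card : ℝ) * Y.card ≤ X.card * (D * X.card) :=
      mul_le_mul_of_nonneg_left hYR hX0.le
    have h6 : (X.card : ℝ) * (D * X.card) ≤ (D * X.card) ^ 2 := by
      have h7 : (X.card : ℝ) * (D * X.card) = (D * X.card) * X.card := by ring
      rw [h7, sq]
      apply mul_le_mul_of_nonneg_left _ (by positivity)
      nlinarith
    linarith
  have h5 : (d : ℝ) / Fintype.card V * X.card * Y.card ≤ ε * X.card := by
    have h6 : (d : ℝ) / Fintype.card V * X.card * Y.card =
        (d * Y.card) / Fintype.card V * X.card := by ring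
    rw [h6]
    apply mul_le_mul_of_nonneg_right _ hX0.le
    rw [div_le_iff₀ hn]
    exact hε
  have h6 := mul_le_mul_of_nonneg_left h4 hlam0
  calc (eST G X Y : ℝ) ≤ ε * X.card + lam * (D * X.card) := by linarith
    _ = _ := by ring

theorem expand {V : Type} [Fintype V] [DecidableEq V] (G : SimpleGraph V) [DecidableRel G.Adj]
    {d : ℕ} {lam : ℝ} (h : IsNDL G d lam) (hlam0 : 0 ≤ lam) (U E : Finset V) (δ Dx : ℕ)
    (hE : ∀ v ∈ E, δ ≤ (nb G U v).card) (hδ : d ≤ 40 * δ) (hDx : 1 ≤ Dx)
    (hlam : 5 * Dx * lam < δ) (S : Finset V) (hS : S ⊆ E) (hne : S.Nonempty) :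
    min (Fintype.card V / 80) (Dx * S.card) ≤ (S.biUnion (nb G U)).card := by
  by_contra hcon
  rw [not_le, lt_min_iff] at hcon
  set N := S.biUnion (nb G U) with hN
  have h1 : 2 * δ * S.card ≤ 2 * eST G S N := by
    apply expand_edges G S N (2 * δ)
    intro v hv
    apply Nat.mul_le_mul_left 2 ((hE v (hS hv)).trans _)
    apply Finset.card_le_card
    intro y hy
    rw [expand_mem_nb]
    refine ⟨?_, ((expand_mem_nb G U v y).mp hy).2⟩
    rw [hN, mem_biUnion]
    exact ⟨v, hv, hy⟩
  have hδ0 : (0 : ℝ) ≤ δ := Nat.cast_nonneg _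
  have hS0 : (0 : ℝ) < S.card := by exact_mod_cast hne.card_pos
  have h80 : 80 * N.card ≤ Fintype.card V := by omega
  have h80R : 80 * (N.card : ℝ) ≤ Fintype.card V := by exact_mod_cast h80
  have hδR : (d : ℝ) ≤ 40 * δ := by exact_mod_cast hδ
  have h2 := expand_upper G h hlam0 S N Dx hDx hcon.2.le (δ / 2) (by nlinarith) hne
  have h3 : (δ : ℝ) * S.card ≤ eST G S N := by
    have : δ * S.card ≤ eST G S N := by nlinarith
    exact_mod_cast this
  have h4 : (δ : ℝ) * S.card ≤ (δ / 2 + lam * Dx) * S.card := h3.trans h2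
  have h5 := le_of_mul_le_mul_right h4 hS0
  have h6 : lam * Dx < δ / 5 := by linarith
  have h7 : (0 : ℝ) ≤ lam * Dx := by positivity
  linarith

/-- large sets are joined -/
theorem join_sets {V : Type} [Fintype V] [DecidableEq V] (G : SimpleGraph V) [DecidableRel G.Adj]
    {d : ℕ} {lam : ℝ} (h : IsNDL G d lam) (hlam0 : 0 ≤ lam) (X Y : Finset V) (m : ℕ)
    (hm : (Fintype.card V : ℝ) * lam < d * m) (hX : m ≤ X.card) (hY : m ≤ Y.card) :
    ∃ x ∈ X, ∃ y ∈ Y, G.Adj x y := by
  by_contra hcon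
  push Not at hcon
  have he : eST G X Y = 0 := by
    unfold eST
    rw [Finset.card_eq_zero, Finset.filter_eq_empty_iff]
    intro p hp
    rw [mem_product] at hp
    exact hcon p.1 hp.1 p.2 hp.2
  have h1 := fpi_mix G h hlam0 X Y
  rw [he] at h1
  have hn0 : (0 : ℝ) ≤ Fintype.card V := Nat.cast_nonneg _
  have hm0 : (0 : ℝ) < m := by
    by_contra hm0
    have h2 : (m : ℝ) = 0 := le_antisymm (not_lt.mp hm0) (Nat.cast_nonneg _)
    rw [h2] at hm
    nlinarith [mul_nonneg hn0 hlam0]
  have hXR : (m : ℝ) ≤ X.card := by exact_mod_cast hX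
  have hYR : (m : ℝ) ≤ Y.card := by exact_mod_cast hY
  have hX0 : (0 : ℝ) < X.card := lt_of_lt_of_le hm0 hXR
  have hY0 : (0 : ℝ) < Y.card := lt_of_lt_of_le hm0 hYR
  have hn : (0 : ℝ) < Fintype.card V := by
    have h2 : X.card ≤ Fintype.card V := Finset.card_le_univ X
    have h3 : (X.card : ℝ) ≤ Fintype.card V := by exact_mod_cast h2
    linarith
  set P : ℝ := (X.card : ℝ) * Y.card with hP
  have hP0 : 0 < P := by positivity
  have hsq : √P * √P = P := Real.mul_self_sqrt hP0.le
  have hsp : 0 < √P := Real.sqrt_pos.2 hP0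
  have hmP : (m : ℝ) ≤ √P := by
    apply Real.le_sqrt_of_sq_le
    rw [hP]
    nlinarith
  have h3 : (d : ℝ) / Fintype.card V * P ≤ lam * √P := by
    have e1 : |((0 : ℕ) : ℝ) - (d : ℝ) / Fintype.card V * X.card * Y.card|
        = (d : ℝ) / Fintype.card V * P := by
      rw [Nat.cast_zero, zero_sub, abs_neg, abs_of_nonneg (by positivity), hP]
      ring
    rw [e1] at h1
    exact h1
  have h4 : (d : ℝ) / Fintype.card V * √P ≤ lam := by
    have h5 : (d : ℝ) / Fintype.card V * √P * √P ≤ lam * √P := by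
      rw [mul_assoc, hsq]; exact h3
    exact le_of_mul_le_mul_right h5 hsp
  rw [div_mul_eq_mul_div, div_le_iff₀ hn] at h4
  have h5 : (d : ℝ) * m ≤ d * √P := mul_le_mul_of_nonneg_left hmP (Nat.cast_nonneg _)
  linarith

/-- pivots whose two neighbours have many neighbours among the pivots -/
theorem good_pivots {V : Type} [Fintype V] [DecidableEq V] (G : SimpleGraph V)
    [DecidableRel G.Adj] {d : ℕ} {lam : ℝ} (h : IsNDL G d lam) (hlam0 : 0 ≤ lam) (Va : Finset V)
    (δ : ℕ) (hδ1 : 1 ≤ δ) (hVa : ∀ v, δ ≤ (nb G Va v).card) (hδ : d ≤ 20 * δ)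
    (hlam : 100 * lam ≤ δ) (Fn : V → Finset V) (hF2 : ∀ v, (Fn v).card ≤ 2)
    (hFs : ∀ u x, x ∈ Fn u ↔ u ∈ Fn x) (Imp : Finset V) (hImp : Imp ⊆ Va)
    (hI : 1000 * Imp.card ≤ Fintype.card V) :
    ∃ U Bd : Finset V, U ⊆ Va \ Imp ∧ 1000 * Bd.card ≤ Fintype.card V ∧
      (∀ v, v ∉ Bd → δ ≤ 2 * (nb G U v).card) ∧ (∀ u ∈ U, ∀ x ∈ Fn u, x ∉ Bd) := by
  classical
  have _hImp' := hImp
  set Y : Finset V → Finset V := fun B => Imp ∪ B.biUnion Fn with hY
  have hYmono : ∀ B B', B ⊆ B' → Y B ⊆ Y B' := fun B B' hB =>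
    Finset.union_subset_union (Finset.Subset.refl _)
      (Finset.biUnion_subset_biUnion_of_subset_left _ hB)
  have hYcard : ∀ B, (Y B).card ≤ Imp.card + 2 * B.card := by
    intro B
    refine (Finset.card_union_le _ _).trans (Nat.add_le_add_left ?_ _)
    refine Finset.card_biUnion_le.trans ?_
    calc ∑ v ∈ B, (Fn v).card ≤ ∑ _v ∈ B, 2 := Finset.sum_le_sum fun v _ => hF2 v
      _ = 2 * B.card := by rw [Finset.sum_const, smul_eq_mul, mul_comm]
  have hnbmono : ∀ W W' v, W ⊆ W' → (nb G W v).card ≤ (nb G W' v).card := by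
    intro W W' v hW
    apply Finset.card_le_card
    intro y hy
    rw [expand_mem_nb] at hy ⊢
    exact ⟨hW hy.1, hy.2⟩
  -- the maximal bad set
  set fam : Finset (Finset V) := univ.filter (fun B => 1000 * B.card ≤ Fintype.card V ∧
    ∀ v ∈ B, δ ≤ 2 * (nb G (Y B) v).card) with hfam
  have hne : fam.Nonempty := ⟨∅, by
    rw [hfam, mem_filter]
    exact ⟨mem_univ _, by simp, fun v hv => absurd hv (Finset.notMem_empty v)⟩⟩
  obtain ⟨B, hBf, hBmax⟩ := Finset.exists_max_image fam Finset.card hne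
  rw [hfam, mem_filter] at hBf
  obtain ⟨-, hB1, hB2⟩ := hBf
  refine ⟨Va \ Y B, B, ?_, hB1, ?_, ?_⟩
  · intro v hv
    rw [mem_sdiff] at hv ⊢
    exact ⟨hv.1, fun h' => hv.2 (Finset.mem_union_left _ h')⟩
  · intro v hvB
    by_contra hcon
    rw [not_le] at hcon
    -- many neighbours in `Y B`
    have h1 : (nb G Va v).card ≤ (nb G (Va \ Y B) v).card + (nb G (Y B) v).card := by
      rw [← Nat.add_comm]
      refine le_trans (Finset.card_le_card ?_) (Finset.card_union_le _ _)
      intro y hy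
      rw [expand_mem_nb] at hy
      rw [mem_union, expand_mem_nb, expand_mem_nb, mem_sdiff]
      by_cases hyY : y ∈ Y B
      · exact Or.inl ⟨hyY, hy.2⟩
      · exact Or.inr ⟨⟨hy.1, hyY⟩, hy.2⟩
    have h2 := hVa v
    have h3 : δ ≤ 2 * (nb G (Y B) v).card := by omega
    have hX2 : ∀ u ∈ insert v B, δ ≤ 2 * (nb G (Y (insert v B)) u).card := by
      intro u hu
      have h4 := hnbmono (Y B) (Y (insert v B)) u (hYmono _ _ (Finset.subset_insert _ _))
      rcases Finset.mem_insert.mp hu with h5 | h5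
      · subst h5
        omega
      · have := hB2 u h5
        omega
    have hcardX : (insert v B).card = B.card + 1 := Finset.card_insert_of_notMem hvB
    by_cases hbig : 1000 * (insert v B).card ≤ Fintype.card V
    · have h4 := hBmax (insert v B) (by
        rw [hfam, mem_filter]
        exact ⟨mem_univ _, hbig, hX2⟩)
      omega
    · -- contradiction with mixing
      rw [not_le] at hbig
      have hn1000 : 1000 ≤ Fintype.card V := by
        by_contra hn
        have hB0 : B.card = 0 := by omega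
        have hI0 : Imp.card = 0 := by omega
        have h4 := hYcard B
        have h5 : (nb G (Y B) v).card ≤ (Y B).card := by
          apply Finset.card_le_card
          intro y hy
          exact ((expand_mem_nb G _ _ _).mp hy).1
        omega
      set X := insert v B with hX
      have hYX := hYcard X
      have hY3 : (Y X).card ≤ 3 * X.card := by omega
      have h4 := expand_edges G X (Y X) δ hX2
      have h4R : (δ : ℝ) * X.card ≤ 2 * eST G X (Y X) := by exact_mod_cast h4
      have hXn : 1000 * X.card ≤ 2 * Fintype.card V := by omega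
      have hXnR : 1000 * (X.card : ℝ) ≤ 2 * Fintype.card V := by exact_mod_cast hXn
      have hY3R : ((Y X).card : ℝ) ≤ 3 * X.card := by exact_mod_cast hY3
      have hδR : (d : ℝ) ≤ 20 * δ := by exact_mod_cast hδ
      have hδ1R : (1 : ℝ) ≤ δ := by exact_mod_cast hδ1
      have hXne : X.Nonempty := ⟨v, Finset.mem_insert_self _ _⟩
      have hX0 : (0 : ℝ) < X.card := by exact_mod_cast hXne.card_pos
      have hd0 : (0 : ℝ) ≤ d := Nat.cast_nonneg _
      have h5 := expand_upper G h hlam0 X (Y X) 3 (by norm_num) hY3 (12 / 100 * δ) (by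
        have e1 : (d : ℝ) * (Y X).card ≤ (20 * δ) * (3 * X.card) := by
          apply mul_le_mul hδR hY3R (Nat.cast_nonneg _) (by positivity)
        have e2 : (20 * (δ : ℝ)) * (3 * X.card) ≤ 12 / 100 * δ * Fintype.card V := by
          have e3 : (δ : ℝ) * (1000 * (X.card : ℝ)) ≤ δ * (2 * Fintype.card V) :=
            mul_le_mul_of_nonneg_left hXnR (by linarith)
          nlinarith
        linarith) hXne
      have h6 : (δ : ℝ) * X.card ≤ (2 * (12 / 100 * δ + lam * (3 : ℕ))) * X.card := by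
        linarith
      have h7 := le_of_mul_le_mul_right h6 hX0
      push_cast at h7
      linarith
  · intro u hu x hx hxB
    rw [mem_sdiff] at hu
    apply hu.2
    apply Finset.mem_union_right
    rw [mem_biUnion]
    exact ⟨x, hxB, (hFs u x).mp hx⟩

end Pool.Agent.HDS
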