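import Pool.Agent.HDS.Defs

/-!
MP_134267_co, Theorem HDS, row Q4 (helper14): two forests which meet in one vertex.
-/

set_option autoImplicit false

namespace Pool.Agent.HDS

theorem glue_closed {α : Type} {H : SimpleGraph α} (T : Set α)
    (hT : ∀ x y, x ∈ T → H.Adj x y → y ∈ T) {a b : α} (h : H.Reachable a b) (ha : a ∈ T) :
    b ∈ T := by
  obtain ⟨p⟩ := h
  induction p with
  | nil => exact ha
  | cons hadj _ ih => exact ih (hT _ _ ha hadj)

theorem glue_one {α : Type} (H₁ H₂ : SimpleGraph α) (S : Set α) (c : α)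
    (e1 : ∀ a b, H₁.Adj a b → a ∉ S) (e2 : ∀ a b, H₂.Adj a b → a ∈ S ∨ a = c)
    (D : Set (Sym2 α)) (u v : α) (huv : H₁.Adj u v) (hr : ¬ (H₁.deleteEdges D).Reachable u v)
    (hrc : ¬ (H₁.deleteEdges D).Reachable u c) :
    ¬ ((H₁ ⊔ H₂).deleteEdges D).Reachable u v := by
  intro h
  have hS : ∀ x, (H₁.deleteEdges D).Reachable u x → x ∉ S := by
    intro x hx
    refine glue_closed (H := H₁.deleteEdges D) {x | x ∉ S} ?_ hx (e1 u v huv)
    intro x y _ hxy
    rw [SimpleGraph.deleteEdges_adj] at hxy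
    exact e1 y x hxy.1.symm
  have hT := glue_closed (H := (H₁ ⊔ H₂).deleteEdges D)
    {x | (H₁.deleteEdges D).Reachable u x} ?_ h (SimpleGraph.Reachable.refl _)
  · exact hr hT
  · intro x y hx hxy
    rw [SimpleGraph.deleteEdges_adj, SimpleGraph.sup_adj] at hxy
    rcases hxy with ⟨h1 | h2, h3⟩
    · have h4 : (H₁.deleteEdges D).Adj x y := by
        rw [SimpleGraph.deleteEdges_adj]
        exact ⟨h1, h3⟩
      exact SimpleGraph.Reachable.trans hx h4.reachable
    · rcases e2 x y h2 with h4 | h4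
      · exact absurd h4 (hS x hx)
      · subst h4
        exact absurd hx hrc

theorem glue_two {α : Type} (H₁ H₂ : SimpleGraph α) (S : Set α) (c : α)
    (e1 : ∀ a b, H₁.Adj a b → a ∉ S) (e2 : ∀ a b, H₂.Adj a b → a ∈ S ∨ a = c)
    (D : Set (Sym2 α)) (u v : α) (hu : u ∈ S ∨ u = c)
    (hr : ¬ (H₂.deleteEdges D).Reachable u v)
    (hrc : ¬ (H₂.deleteEdges D).Reachable u c) :
    ¬ ((H₁ ⊔ H₂).deleteEdges D).Reachable u v := by
  intro h
  have hS : ∀ x, (H₂.deleteEdges D).Reachable u x → x ∈ S := by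
    intro x hx
    have h1 : x ∈ S ∨ x = c := by
      refine glue_closed (H := H₂.deleteEdges D) {x | x ∈ S ∨ x = c} ?_ hx hu
      intro x y _ hxy
      rw [SimpleGraph.deleteEdges_adj] at hxy
      exact e2 y x hxy.1.symm
    rcases h1 with h1 | h1
    · exact h1
    · subst h1
      exact absurd hx hrc
  have hT := glue_closed (H := (H₁ ⊔ H₂).deleteEdges D)
    {x | (H₂.deleteEdges D).Reachable u x} ?_ h (SimpleGraph.Reachable.refl _)
  · exact hr hT
  · intro x y hx hxy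
    rw [SimpleGraph.deleteEdges_adj, SimpleGraph.sup_adj] at hxy
    rcases hxy with ⟨h1 | h2, h3⟩
    · exact absurd (hS x hx) (e1 x y h1)
    · have h4 : (H₂.deleteEdges D).Adj x y := by
        rw [SimpleGraph.deleteEdges_adj]
        exact ⟨h2, h3⟩
      exact SimpleGraph.Reachable.trans hx h4.reachable

theorem glue_sup {α : Type} (H₁ H₂ : SimpleGraph α) (h1 : H₁.IsAcyclic) (h2 : H₂.IsAcyclic)
    (S : Set α) (c : α) (e1 : ∀ a b, H₁.Adj a b → a ∉ S)
    (e2 : ∀ a b, H₂.Adj a b → a ∈ S ∨ a = c) : (H₁ ⊔ H₂).IsAcyclic := by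
  rw [SimpleGraph.isAcyclic_iff_forall_adj_isBridge] at h1 h2 ⊢
  intro a b hab
  rw [SimpleGraph.isBridge_iff]
  rw [SimpleGraph.sup_adj] at hab
  have hsw : ({s(b, a)} : Set (Sym2 α)) = {s(a, b)} := by rw [Sym2.eq_swap]
  rcases hab with hab | hab
  · have h3 := h1 hab
    rw [SimpleGraph.isBridge_iff] at h3
    by_cases hc : (H₁.deleteEdges {s(a, b)}).Reachable a c
    · have hc' : ¬ (H₁.deleteEdges {s(a, b)}).Reachable b c := fun h => h3 (hc.trans h.symm)
      have h4 := glue_one H₁ H₂ S c e1 e2 {s(a, b)} b a hab.symm (fun h => h3 h.symm) hc'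
      exact fun h => h4 h.symm
    · exact glue_one H₁ H₂ S c e1 e2 {s(a, b)} a b hab h3 hc
  · have h3 := h2 hab
    rw [SimpleGraph.isBridge_iff] at h3
    by_cases hc : (H₂.deleteEdges {s(a, b)}).Reachable a c
    · have hc' : ¬ (H₂.deleteEdges {s(a, b)}).Reachable b c := fun h => h3 (hc.trans h.symm)
      have h4 := glue_two H₁ H₂ S c e1 e2 {s(a, b)} b a (e2 b a hab.symm)
        (fun h => h3 h.symm) hc'
      exact fun h => h4 h.symm
    · exact glue_two H₁ H₂ S c e1 e2 {s(a, b)} a b (e2 a b hab) h3 hc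

theorem glue {α : Type} (H₁ H₂ : SimpleGraph α) (h1 : H₁.IsAcyclic) (h2 : H₂.IsAcyclic)
    (S : Set α) (c : α) (hc : c ∉ S) (e1 : ∀ a b, H₁.Adj a b → a ∉ S)
    (e2 : ∀ a b, H₂.Adj a b → a ∈ S ∨ a = c) (w w' : α) (hw : w ∈ S) (hw' : w' ∉ S)
    (hr : ¬ H₂.Reachable w c) : ((H₁ ⊔ H₂) ⊔ SimpleGraph.edge w w').IsAcyclic := by
  have hne : c ∉ S := hc
  apply SimpleGraph.IsAcyclic.sup_edge_of_not_reachable _ (glue_sup H₁ H₂ h1 h2 S c e1 e2)
  intro h
  have h3 := glue_two H₁ H₂ S c e1 e2 ∅ w c (Or.inl hw)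
    (by rw [SimpleGraph.deleteEdges_empty]; exact hr)
    (by rw [SimpleGraph.deleteEdges_empty]; exact hr)
  rw [SimpleGraph.deleteEdges_empty] at h3
  have hS : ∀ x, H₂.Reachable w x → x ∈ S := by
    intro x hx
    have h4 : x ∈ S ∨ x = c := by
      refine glue_closed (H := H₂) {x | x ∈ S ∨ x = c} ?_ hx (Or.inl hw)
      intro x y _ hxy
      exact e2 y x hxy.symm
    rcases h4 with h4 | h4
    · exact h4
    · subst h4
      exact absurd hx hr
  have hT := glue_closed (H := H₁ ⊔ H₂) {x | H₂.Reachable w x} ?_ h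
    (SimpleGraph.Reachable.refl _)
  · exact hw' (hS _ hT)
  · intro x y hx hxy
    rw [SimpleGraph.sup_adj] at hxy
    rcases hxy with h4 | h4
    · exact absurd (hS x hx) (e1 x y h4)
    · exact SimpleGraph.Reachable.trans hx h4.reachable

end Pool.Agent.HDS
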