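import Pool.Agent.HDS.Defs

/-!
MP_134267_co, Theorem HDS, row Q2 (helper43): growth of the set of ends of rotation histories.
-/

set_option autoImplicit false

namespace Pool.Agent.HDS

open Finset Pool.Agent.HD

theorem hg_inv {V : Type} [DecidableEq V] {G F₀ : SimpleGraph V} {U : Finset V}
    {Ok : SimpleGraph V → V → Prop} {z : V} {j : ℕ} {F : SimpleGraph V} {w : V} {τ : Finset V}
    (h : Hist G F₀ U Ok z j F w τ) :
    w ∈ τ ∧ (∀ a b, (F.Adj a b ↔ F₀.Adj a b) ∨ (a ∈ τ ∧ b ∈ τ)) ∧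
    (∀ t ∈ τ, ∃ (i : ℕ) (F' : SimpleGraph V) (w' : V) (τ' : Finset V), i ≤ j ∧
      Hist G F₀ U Ok z i F' w' τ' ∧ (t = w' ∨ F₀.Adj t w')) := by
  induction h with
  | start =>
    refine ⟨by simp, fun a b => Or.inl Iff.rfl, ?_⟩
    intro t ht
    rw [Finset.mem_singleton] at ht
    exact ⟨0, F₀, z, {z}, le_rfl, Hist.start, Or.inl ht⟩
  | @step j F w τ h u x hu huτ hG hF hx hok ih =>
    obtain ⟨h1, h2, h3⟩ := ih
    refine ⟨by simp, ?_, ?_⟩
    · intro a b
      by_cases e1 : s(a, b) = s(u, x)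
      · right
        rw [Sym2.eq_iff] at e1
        rcases e1 with ⟨rfl, rfl⟩ | ⟨rfl, rfl⟩ <;> simp
      by_cases e2 : s(a, b) = s(w, u)
      · right
        rw [Sym2.eq_iff] at e2
        rcases e2 with ⟨rfl, rfl⟩ | ⟨rfl, rfl⟩ <;> simp [h1]
      · rcases h2 a b with h4 | h4
        · left
          rw [← h4]
          constructor
          · rintro (⟨h5, -⟩ | ⟨-, h5⟩)
            · exact h5
            · exact absurd h5 e2
          · intro h5
            exact Or.inl ⟨h5, e1⟩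
        · right
          exact ⟨Finset.mem_insert_of_mem (Finset.mem_insert_of_mem h4.1),
            Finset.mem_insert_of_mem (Finset.mem_insert_of_mem h4.2)⟩
    · intro t ht
      rw [Finset.mem_insert, Finset.mem_insert] at ht
      have hnew := h.step u x hu huτ hG hF hx hok
      rcases ht with rfl | rfl | ht
      · exact ⟨j + 1, _, x, _, le_rfl, hnew, Or.inr hx⟩
      · exact ⟨j + 1, _, t, _, le_rfl, hnew, Or.inl rfl⟩
      · obtain ⟨i, F', w', τ', h4, h5, h6⟩ := h3 t ht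
        exact ⟨i, F', w', τ', by omega, h5, h6⟩

/-- the ends of the histories with at most `j` steps -/
noncomputable def hgReach {V : Type} [Fintype V] [DecidableEq V] (G F₀ : SimpleGraph V)
    (U : Finset V) (Ok : SimpleGraph V → V → Prop) (z : V) (j : ℕ) : Finset V := by
  classical exact univ.filter (fun w => ∃ i ≤ j, ∃ (F : SimpleGraph V) (τ : Finset V),
    Hist G F₀ U Ok z i F w τ)

theorem hg_mem {V : Type} [Fintype V] [DecidableEq V] {G F₀ : SimpleGraph V}
    {U : Finset V} {Ok : SimpleGraph V → V → Prop} {z : V} {j : ℕ} {w : V} :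
    w ∈ hgReach G F₀ U Ok z j ↔ ∃ i ≤ j, ∃ (F : SimpleGraph V) (τ : Finset V),
      Hist G F₀ U Ok z i F w τ := by
  simp [hgReach]

theorem hg_mono {V : Type} [Fintype V] [DecidableEq V] {G F₀ : SimpleGraph V}
    {U : Finset V} {Ok : SimpleGraph V → V → Prop} {z : V} {j : ℕ} :
    hgReach G F₀ U Ok z j ⊆ hgReach G F₀ U Ok z (j + 1) := by
  intro w hw
  rw [hg_mem] at hw ⊢
  obtain ⟨i, hi, h⟩ := hw
  exact ⟨i, by omega, h⟩

theorem hg_step {V : Type} [Fintype V] [DecidableEq V] {G F₀ : SimpleGraph V}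
    {U : Finset V} {Ok : SimpleGraph V → V → Prop} {z : V}
    (h2 : ∀ v, (nf F₀ v).card ≤ 2)
    (hch : ∀ (j : ℕ) (F : SimpleGraph V) (w : V) (τ : Finset V) (u : V),
      Hist G F₀ U Ok z j F w τ → u ∈ U → u ∉ τ → G.Adj w u → ¬ F.Adj w u →
      ∃ x, F₀.Adj u x ∧ Ok (mv F w u x) x) (j : ℕ) :
    ((hgReach G F₀ U Ok z j).biUnion (nb G U)).card ≤
      3 * (hgReach G F₀ U Ok z (j + 1)).card := by
  have hsub : (hgReach G F₀ U Ok z j).biUnion (nb G U) ⊆ hgReach G F₀ U Ok z (j + 1) ∪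
      (hgReach G F₀ U Ok z (j + 1)).biUnion (nf F₀) := by
    intro u hu
    rw [Finset.mem_biUnion] at hu
    obtain ⟨w, hw, hu⟩ := hu
    have hu' : u ∈ U ∧ G.Adj w u := by simpa [nb] using hu
    obtain ⟨huU, hadj⟩ := hu'
    have hw' := hw
    rw [hg_mem] at hw'
    obtain ⟨i, hi, F, τ, h⟩ := hw'
    have hinv := hg_inv h
    by_cases hut : u ∈ τ
    · obtain ⟨i', F', w', τ', h1, h3, h4⟩ := hinv.2.2 u hut
      have h5 : w' ∈ hgReach G F₀ U Ok z (j + 1) := hg_mem.mpr ⟨i', by omega, F', τ', h3⟩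
      rcases h4 with rfl | h4
      · exact Finset.mem_union_left _ h5
      · exact Finset.mem_union_right _ (Finset.mem_biUnion.mpr ⟨w', h5, mem_nf.mpr h4.symm⟩)
    · by_cases hF : F.Adj w u
      · rcases hinv.2.1 w u with h1 | h1
        · exact Finset.mem_union_right _ (Finset.mem_biUnion.mpr
            ⟨w, hg_mono hw, mem_nf.mpr (h1.mp hF)⟩)
        · exact absurd h1.2 hut
      · obtain ⟨x, hx, hok⟩ := hch i F w τ u h huU hut hadj hF
        have h5 : x ∈ hgReach G F₀ U Ok z (j + 1) :=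
          hg_mem.mpr ⟨i + 1, by omega, _, _, h.step u x huU hut hadj hF hx hok⟩
        exact Finset.mem_union_right _ (Finset.mem_biUnion.mpr ⟨x, h5, mem_nf.mpr hx.symm⟩)
  have h1 := Finset.card_le_card hsub
  have h3 := Finset.card_union_le (hgReach G F₀ U Ok z (j + 1))
    ((hgReach G F₀ U Ok z (j + 1)).biUnion (nf F₀))
  have h4 : ((hgReach G F₀ U Ok z (j + 1)).biUnion (nf F₀)).card ≤
      (hgReach G F₀ U Ok z (j + 1)).card * 2 :=
    Finset.card_biUnion_le_card_mul _ _ _ (fun v _ => h2 v)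
  omega

theorem hist_growth {V : Type} [Fintype V] [DecidableEq V] {G F₀ : SimpleGraph V}
    {U : Finset V} {Ok : SimpleGraph V → V → Prop} {z : V} (Big k : ℕ) (hF₀ : F₀ ≤ G)
    (h2 : ∀ v, (nf F₀ v).card ≤ 2)
    (hch : ∀ (j : ℕ) (F : SimpleGraph V) (w : V) (τ : Finset V) (u : V),
      Hist G F₀ U Ok z j F w τ → u ∈ U → u ∉ τ → G.Adj w u → ¬ F.Adj w u →
      ∃ x, F₀.Adj u x ∧ Ok (mv F w u x) x)
    (E : Finset V) (hzE : z ∈ E) (hUE : ∀ u ∈ U, ∀ x, F₀.Adj u x → x ∈ E)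
    (hexp : ∀ S ⊆ E, S.Nonempty → min Big (6 * S.card) ≤ (S.biUnion (nb G U)).card)
    (hk : Big ≤ 2 ^ k) :
    ∃ S : Finset V, Big ≤ 3 * S.card ∧ ∀ w ∈ S, ∃ (j : ℕ) (F : SimpleGraph V) (τ : Finset V),
      j ≤ k ∧ Hist G F₀ U Ok z j F w τ := by
  have hE : ∀ j, hgReach G F₀ U Ok z j ⊆ E := by
    intro j w hw
    rw [hg_mem] at hw
    obtain ⟨i, -, F, τ, h⟩ := hw
    cases h with
    | start => exact hzE
    | step h u x hu huτ hG hF hx hok => exact hUE u hu _ hx
  have hz : ∀ j, z ∈ hgReach G F₀ U Ok z j := fun j =>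
    hg_mem.mpr ⟨0, by omega, F₀, {z}, Hist.start⟩
  have key : ∀ j, Big ≤ 3 * (hgReach G F₀ U Ok z j).card ∨
      2 ^ j ≤ (hgReach G F₀ U Ok z j).card := by
    intro j
    induction j with
    | zero =>
      right
      simpa using Finset.card_pos.mpr ⟨z, hz 0⟩
    | succ j ih =>
      have hm : (hgReach G F₀ U Ok z j).card ≤ (hgReach G F₀ U Ok z (j + 1)).card :=
        Finset.card_le_card hg_mono
      rcases ih with ih | ih
      · left; omega
      · have h3 := hg_step h2 hch j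
        have h4 := hexp _ (hE j) ⟨z, hz j⟩
        rcases min_choice Big (6 * (hgReach G F₀ U Ok z j).card) with h5 | h5
        · left; omega
        · right
          rw [pow_succ]
          omega
  refine ⟨hgReach G F₀ U Ok z k, ?_, ?_⟩
  · rcases key k with h | h <;> omega
  · intro w hw
    rw [hg_mem] at hw
    obtain ⟨i, hi, F, τ, h⟩ := hw
    exact ⟨i, F, τ, hi, h⟩

end Pool.Agent.HDS
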