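import Pool.Agent.HDS.HistInv
import Pool.Agent.HDS.Growth
import Pool.Agent.HDS.Choice
import Pool.Agent.HDS.Glue
import Pool.Agent.HDS.Expand

/-!
MP_134267_co, Theorem HDS, row Q6 (helper95): one closing.
-/

set_option autoImplicit false

namespace Pool.Agent.HDS

open Finset Pool.Agent.HD

/-- histories in the whole forest -/
theorem close_whole {V : Type} [Fintype V] [DecidableEq V] {G F : SimpleGraph V} (hFG : F ≤ G)
    (Mk : Finset V) (hac : (tg Mk F).IsAcyclic) (h2 : ∀ v, (nf F v).card ≤ 2) (U : Finset V)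
    (hU2 : ∀ u ∈ U, (nf F u).card = 2) (hUM : ∀ u ∈ U, u ∉ Mk) (z : V) (Big k : ℕ)
    (hexp : ∀ S : Finset V, S.Nonempty → min Big (6 * S.card) ≤ (S.biUnion (nb G U)).card)
    (hk : Big ≤ 2 ^ k) :
    ∃ S : Finset V, Big ≤ 3 * S.card ∧ ∀ w ∈ S, ∃ (j : ℕ) (F' : SimpleGraph V) (τ : Finset V),
      j ≤ k ∧ Hist G F U (fun F' _ => (tg Mk F').IsAcyclic) z j F' w τ := by
  refine hist_growth Big k hFG h2 ?_ univ (mem_univ _) (fun _ _ _ _ => mem_univ _)
    (fun S _ hS => hexp S hS) hk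
  intro j F' w τ u hh huU huτ hG hn
  obtain ⟨i1, i2, i3, i4, i5, i6, i7, i8, i9, i10, i11⟩ := hh.inv hFG
  have huw : u ≠ w := fun e => huτ (e ▸ i5)
  have huz : u ≠ z := fun e => huτ (e ▸ i4)
  have hcard : (nf F' u).card = 2 := by
    have e1 := i2 u
    rw [if_neg huw, if_neg huz, hU2 u huU] at e1
    exact e1
  have hac' : (tg Mk F').IsAcyclic := by
    rcases i11 with ⟨-, e, -, -⟩ | ⟨-, e, -⟩
    · rw [e]; exact hac
    · exact e
  obtain ⟨x, hx1, hx2⟩ := choice_tg Mk F' hac' (Ne.symm huw) hn hcard (hUM u huU)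
  refine ⟨x, ?_, hx2⟩
  rcases i3 u x with e | e
  · exact e.1 hx1
  · exact absurd e.1 huτ

theorem not_reachable_of_isolated {V : Type} {F : SimpleGraph V} {z u : V}
    (hz : ∀ x, ¬ F.Adj z x) (hu : u ≠ z) : ¬ F.Reachable u z := by
  rintro ⟨p⟩
  have : ∀ (a b : V) (q : F.Walk a b), a ≠ b → b = z → False := by
    intro a b q
    induction q with
    | nil => intro h _; exact h rfl
    | cons h q ih =>
      rename_i a' b' c'
      intro hne hc
      by_cases hb : b' = c'
      · rw [hb, hc] at h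
        exact hz _ h.symm
      · exact ih hb hc
  exact this u z p hu rfl

/-- histories inside the untouched blocks -/
theorem close_base {V : Type} [Fintype V] [DecidableEq V] {G F : SimpleGraph V} (hFG : F ≤ G)
    (hac : F.IsAcyclic) (h2 : ∀ v, (nf F v).card ≤ 2) (U : Finset V)
    (hU2 : ∀ u ∈ U, (nf F u).card = 2) (z : V) (hz : ∀ x, ¬ F.Adj z x)
    (Big k : ℕ) (E : Finset V) (hzE : z ∈ E) (hUE : ∀ u ∈ U, ∀ x, F.Adj u x → x ∈ E)
    (hexp : ∀ S ⊆ E, S.Nonempty → min Big (6 * S.card) ≤ (S.biUnion (nb G U)).card)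
    (hk : Big ≤ 2 ^ k) :
    ∃ S : Finset V, Big ≤ 3 * S.card ∧ ∀ w ∈ S, ∃ (j : ℕ) (F' : SimpleGraph V) (τ : Finset V),
      j ≤ k ∧ Hist G F U (fun F' w => F'.IsAcyclic ∧ ¬ F'.Reachable w z) z j F' w τ := by
  refine hist_growth Big k hFG h2 ?_ E hzE hUE hexp hk
  intro j F' w τ u hh huU huτ hG hn
  obtain ⟨i1, i2, i3, i4, i5, i6, i7, i8, i9, i10, i11⟩ := hh.inv hFG
  have huw : u ≠ w := fun e => huτ (e ▸ i5)
  have huz : u ≠ z := fun e => huτ (e ▸ i4)
  have hcard : (nf F' u).card = 2 := by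
    have e1 := i2 u
    rw [if_neg huw, if_neg huz, hU2 u huU] at e1
    exact e1
  have hac' : F'.IsAcyclic ∧ ((w = z ∧ ¬ F'.Reachable u z) ∨ ¬ F'.Reachable w z) := by
    rcases i11 with ⟨-, e, e', -⟩ | ⟨-, e, -⟩
    · rw [e]
      exact ⟨hac, Or.inl ⟨e', not_reachable_of_isolated hz huz⟩⟩
    · exact ⟨e.1, Or.inr e.2⟩
  obtain ⟨x, hx1, hx2, hx3⟩ := choice_base F' hac'.1 (Ne.symm huw) hn hcard huz hac'.2
  refine ⟨x, ?_, hx2, hx3⟩
  rcases i3 u x with e | e
  · exact e.1 hx1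
  · exact absurd e.1 huτ

/-- restriction of a graph to a set of vertices -/
def rs {V : Type} (F : SimpleGraph V) (A : Set V) : SimpleGraph V where
  Adj a b := F.Adj a b ∧ a ∈ A ∧ b ∈ A
  symm := ⟨fun _ _ h => ⟨h.1.symm, h.2.2, h.2.1⟩⟩
  loopless := ⟨fun a h => F.loopless.irrefl a h.1⟩

theorem rs_le {V : Type} (F : SimpleGraph V) (A : Set V) : rs F A ≤ F := fun _ _ h => h.1

theorem tg_mono {V : Type} (Mk : Finset V) {F F' : SimpleGraph V} (h : F ≤ F') :
    tg Mk F ≤ tg Mk F' := by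
  rintro a b (⟨x, y, h1, h2, h3⟩ | h1 | h1)
  · exact Or.inl ⟨x, y, h1, h2, h h3⟩
  · exact Or.inr (Or.inl h1)
  · exact Or.inr (Or.inr h1)

/-- a graph on `V` as a graph on `Option V` -/
def lf {V : Type} (F : SimpleGraph V) : SimpleGraph (Option V) where
  Adj a b := ∃ x y, a = some x ∧ b = some y ∧ F.Adj x y
  symm := ⟨fun _ _ ⟨x, y, h1, h2, h3⟩ => ⟨y, x, h2, h1, h3.symm⟩⟩
  loopless := ⟨by
    rintro a ⟨x, y, h1, h2, h3⟩
    rw [h1] at h2
    obtain rfl : x = y := Option.some.inj h2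
    exact F.loopless.irrefl x h3⟩

theorem lf_reachable {V : Type} {F : SimpleGraph V} {x y : V}
    (h : (lf F).Reachable (some x) (some y)) : F.Reachable x y := by
  let f : lf F →g F :=
    { toFun := fun a => a.getD x
      map_rel' := by
        rintro a b ⟨u, v, rfl, rfl, huv⟩
        exact huv }
  exact h.map f

theorem lf_acyclic {V : Type} {F : SimpleGraph V} (h : F.IsAcyclic) : (lf F).IsAcyclic := by
  rw [SimpleGraph.isAcyclic_iff_forall_adj_isBridge] at h ⊢
  rintro a b ⟨x, y, rfl, rfl, hxy⟩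
  have h1 := h hxy
  rw [SimpleGraph.isBridge_iff] at h1 ⊢
  intro hr
  apply h1
  let f : (lf F).deleteEdges {s(some x, some y)} →g F.deleteEdges {s(x, y)} :=
    { toFun := fun a => a.getD x
      map_rel' := by
        intro a b hab
        rw [SimpleGraph.deleteEdges_adj] at hab ⊢
        obtain ⟨⟨u, v, rfl, rfl, huv⟩, hne⟩ := hab
        refine ⟨huv, ?_⟩
        intro he
        apply hne
        rw [Set.mem_singleton_iff, Sym2.eq_iff] at he ⊢
        simpa using he }
  have := hr.map f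
  exact this

theorem close_mem_nb {V : Type} [DecidableEq V] {G : SimpleGraph V} {W : Finset V} {x y : V} :
    y ∈ nb G W x ↔ y ∈ W ∧ G.Adj x y := by
  classical
  exact Finset.mem_filter

theorem close_card_erase {V : Type} [Fintype V] [DecidableEq V] (G : SimpleGraph V) (U : Finset V)
    (z v : V) (δ : ℕ) (h : δ ≤ (nb G U v).card) : δ - 1 ≤ (nb G (U.erase z) v).card := by
  classical
  have h1 : (nb G U v).erase z ⊆ nb G (U.erase z) v := by
    intro y hy
    rw [mem_erase] at hy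
    unfold nb at hy ⊢
    rw [mem_filter] at hy ⊢
    exact ⟨mem_erase.2 ⟨hy.1, hy.2.1⟩, hy.2.2⟩
  have h2 := card_le_card h1
  have h3 := pred_card_le_card_erase (s := nb G U v) (a := z)
  omega

theorem close_step {V : Type} [Fintype V] [DecidableEq V] (G : SimpleGraph V)
    [DecidableRel G.Adj] {d : ℕ} {lam : ℝ} (h : IsNDL G d lam) (hlam0 : 0 ≤ lam) {M : ℕ}
    (c : CD V M) {B δ k : ℕ} (hc : c.Ok G B δ) (hδ : d ≤ 10 * δ) (hδ1 : 1000 ≤ δ)
    (hlam : 1000 * lam ≤ δ) (hn : 100000 ≤ Fintype.card V) (hk : Fintype.card V ≤ 2 ^ k)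
    (F : SimpleGraph V) (Tc : Finset (Fin M)) (hst : c.St G F Tc)
    (hdef : 2 ≤ ∑ v, (c.cap v - (nf F v).card)) (hTc : 1000 * (B * Tc.card) ≤ Fintype.card V) :
    ∃ (F' : SimpleGraph V) (Tc' : Finset (Fin M)), c.St G F' Tc' ∧ Tc ⊆ Tc' ∧
      Tc'.card ≤ Tc.card + (6 * k + 3) ∧
      ∑ v, (c.cap v - (nf F' v).card) + 2 = ∑ v, (c.cap v - (nf F v).card) := by
  have hFG := hst.le
  have hδR : (1000 : ℝ) ≤ δ := by exact_mod_cast hδ1
  obtain ⟨v0⟩ : Nonempty V := Fintype.card_pos_iff.1 (by omega)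
  have hδd : δ ≤ d := by
    refine (hc.nbA v0).trans ?_
    rw [← h.reg v0]
    apply card_le_card
    intro y hy
    exact (SimpleGraph.mem_neighborFinset G v0 y).2 (close_mem_nb.1 hy).2
  classical
  have hbidn : ∀ v, (nf F v).card < c.cap v → c.bid v = none := by
    intro v hv
    by_contra hne
    have := hst.full v hne
    omega
  -- the two deficient ends
  obtain ⟨z, hz⟩ : ∃ z, (nf F z).card + 1 ≤ c.cap z := by
    by_contra hcon
    push Not at hcon
    have : ∑ v, (c.cap v - (nf F v).card) = 0 := sum_eq_zero fun v _ => by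
      have := hcon v
      omega
    omega
  obtain ⟨p, hp⟩ : ∃ p, (nf F p).card + (if p = z then 1 else 0) + 1 ≤ c.cap p := by
    by_contra hcon
    push Not at hcon
    have h1 : ∑ v, (c.cap v - (nf F v).card) ≤ ∑ v, (if v = z then 1 else 0) :=
      sum_le_sum fun v _ => by
        have := hcon v
        omega
    rw [sum_ite_eq' univ z, if_pos (mem_univ z)] at h1
    omega
  have hbz : c.bid z = none := hbidn z (by omega)
  have hbp : c.bid p = none := hbidn p (by omega)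
  -- the untouched class A blocks
  set A : Set V := {v | ∃ k, c.bid v = some k ∧ c.isA k ∧ k ∉ Tc} with hA
  have hA1 : ∀ a ∈ A, ∀ b, F.Adj a b → b ∈ A := by
    rintro a ⟨k', h1, h2, h3⟩ b hab
    have h4 : b ∈ nf c.Fi a := by
      rw [← hst.unt a k' h1 h3]
      exact mem_nf.2 hab
    exact ⟨k', by rw [← hc.bidI a b (mem_nf.1 h4)]; exact h1, h2, h3⟩
  have hAC : ∀ v ∈ c.Vc, v ∉ A := by
    rintro v hv ⟨k', h1, h2, h3⟩
    obtain ⟨k'', e1, e2⟩ := hc.bidC v hv
    rw [h1] at e1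
    exact e2 (Option.some.inj e1 ▸ h2)
  have hAn : ∀ v, c.bid v = none → v ∉ A := by
    rintro v hv ⟨k', h1, h2, h3⟩
    rw [hv] at h1
    exact absurd h1 (by simp)
  have hACn : ∀ u ∈ c.Vc, ∀ t, F.Adj u t → t ∉ A := fun u hu t hut ht =>
    hAC u hu (hA1 t ht u hut.symm)
  have hCfull : ∀ u ∈ c.Vc, (nf F u).card = 2 := by
    intro u hu
    obtain ⟨k', e1, e2⟩ := hc.bidC u hu
    rw [hst.full u (by rw [e1]; simp), hc.capC u hu]
  have hCz : ∀ u ∈ c.Vc, c.bid u ≠ none := by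
    intro u hu
    obtain ⟨k', e1, e2⟩ := hc.bidC u hu
    rw [e1]
    simp
  have hCM : ∀ u ∈ c.Vc, u ∉ c.Mk := fun u hu hu' => hCz u hu (hc.bidM u hu')
  -- good pivots
  set Imp := c.Va.filter (fun v => ∃ k ∈ Tc, c.bid v = some k) with hImpdef
  have hImp : Imp.card ≤ B * Tc.card := by
    have h1 : Imp ⊆ Tc.biUnion (fun k => univ.filter (fun v => c.bid v = some k)) := by
      intro v hv
      rw [hImpdef, mem_filter] at hv
      obtain ⟨-, k', hk1, hk2⟩ := hv
      rw [mem_biUnion]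
      exact ⟨k', hk1, mem_filter.2 ⟨mem_univ _, hk2⟩⟩
    refine (card_le_card h1).trans ?_
    rw [mul_comm]
    exact card_biUnion_le_card_mul _ _ _ fun k' _ => hc.size k'
  obtain ⟨U, Bd, gU, gBd, gN, gF⟩ := good_pivots G h hlam0 c.Va δ (by omega) hc.nbA (by omega)
    (by linarith) (nf F) (fun v => (hst.deg v).trans (hc.capV v))
    (fun u x => by rw [mem_nf, mem_nf]; exact F.adj_comm _ _) Imp (filter_subset _ _)
    (by
      refine le_trans ?_ hTc
      exact Nat.mul_le_mul_left _ hImp)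
  have hUA : ∀ u ∈ U, u ∈ A := by
    intro u hu
    have h1 := gU hu
    rw [mem_sdiff] at h1
    obtain ⟨k', e1, e2⟩ := hc.bidA u h1.1
    refine ⟨k', e1, e2, fun hk' => h1.2 ?_⟩
    rw [hImpdef, mem_filter]
    exact ⟨h1.1, k', hk', e1⟩
  have hUfull : ∀ u ∈ U, (nf F u).card = 2 := by
    intro u hu
    have h1 := gU hu
    rw [mem_sdiff] at h1
    obtain ⟨k', e1, e2⟩ := hc.bidA u h1.1
    rw [hst.full u (by rw [e1]; simp), hc.capA u h1.1]
  have hBig : Fintype.card V / 80 ≤ 2 ^ k := (Nat.div_le_self _ _).trans hk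
  -- phase a
  obtain ⟨S1, hS1, hS1h⟩ := close_whole hFG c.Mk hst.acy
    (fun v => (hst.deg v).trans (hc.capV v)) c.Vc hCfull hCM z (Fintype.card V / 80) k
    (fun S hS => expand G h hlam0 c.Vc univ δ 6 (fun v _ => hc.nbC v) (by omega) (by norm_num)
      (by push_cast; linarith) S (subset_univ _) hS) hBig
  obtain ⟨z', hz'S, hz'B⟩ : ∃ z' ∈ S1, z' ∉ Bd :=
    exists_mem_notMem_of_card_lt_card (by omega)
  obtain ⟨j1, F1, τ1, hj1, hh1⟩ := hS1h z' hz'S
  obtain ⟨a1, a2, a3, a4, a5, a6, a7, a8, a9, a10, a11⟩ := hh1.inv hFG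
  have hac1 : (tg c.Mk F1).IsAcyclic := by
    rcases a11 with ⟨-, e, -, -⟩ | ⟨-, e, -⟩
    · rw [e]; exact hst.acy
    · exact e
  have hτ1A : ∀ t ∈ τ1, t ∉ A := by
    intro t ht
    rcases a7 t ht with e | e | ⟨u, hu, e⟩
    · rw [e]; exact hAn z hbz
    · exact hAC t e
    · exact hACn u hu t e
  have hz'A : z' ∉ A := hτ1A z' a5
  have hF1A : ∀ a ∈ A, ∀ b, F1.Adj a b ↔ F.Adj a b := fun a ha b =>
    (a3 a b).resolve_right fun e => hτ1A a e.1 ha
  have hz2 : (nf F z).card + 1 ≤ 2 := hz.trans (hc.capV z)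
  have hF1deg : ∀ v, (nf F1 v).card ≤ 2 := by
    intro v
    have e1 := a2 v
    have e2 := (hst.deg v).trans (hc.capV v)
    by_cases hv : v = z
    · subst hv
      rw [if_pos rfl] at e1
      omega
    · rw [if_neg hv] at e1
      omega
  -- phase b
  obtain ⟨S2, hS2, hS2h⟩ := close_whole a1 c.Mk hac1 hF1deg (c.Vc.erase z')
    (by
      intro u hu
      rw [mem_erase] at hu
      have e1 := a2 u
      rw [if_neg hu.1, if_neg, hCfull u hu.2] at e1
      · exact e1
      · rintro rfl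
        exact hCz _ hu.2 hbz)
    (fun u hu => hCM u (mem_of_mem_erase hu)) p (Fintype.card V / 80) k
    (fun S hS => expand G h hlam0 (c.Vc.erase z') univ (δ - 1) 6
      (fun v _ => close_card_erase G c.Vc z' v δ (hc.nbC v)) (by omega) (by norm_num)
      (by
        have e1 : ((δ - 1 : ℕ) : ℝ) = δ - 1 := by
          rw [Nat.cast_sub (by omega)]
          norm_num
        rw [e1]
        push_cast
        linarith) S (subset_univ _) hS) hBig
  -- phase c
  have hFAG : rs F A ≤ G := (rs_le F A).trans hFG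
  have hFAdeg : ∀ v, (nf (rs F A) v).card ≤ (nf F v).card := fun v =>
    card_le_card fun x hx => mem_nf.2 (rs_le F A (mem_nf.1 hx))
  have hFAA : ∀ v ∈ A, nf (rs F A) v = nf F v := by
    intro v hv
    ext x
    rw [mem_nf, mem_nf]
    exact ⟨fun e => e.1, fun e => ⟨e, hv, hA1 v hv x e⟩⟩
  have hacF : F.IsAcyclic := by
    have e1 := SimpleGraph.IsAcyclic.comap (G := F) (G' := tg c.Mk F)
      { toFun := some, map_rel' := fun {a b} hab => Or.inl ⟨a, b, rfl, rfl, hab⟩ }
      (Option.some_injective V) hst.acy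
    exact e1
  obtain ⟨S3, hS3, hS3h⟩ := close_base hFAG (hacF.anti (rs_le F A))
    (fun v => (hFAdeg v).trans ((hst.deg v).trans (hc.capV v))) U
    (fun u hu => by rw [hFAA u (hUA u hu)]; exact hUfull u hu) z'
    (fun x hx => hz'A hx.2.1) (Fintype.card V / 80) k (univ.filter (fun v => v ∉ Bd))
    (mem_filter.2 ⟨mem_univ _, hz'B⟩)
    (fun u hu x hx => mem_filter.2 ⟨mem_univ _, gF u hu x (mem_nf.2 hx.1)⟩)
    (fun S hS hS' => expand G h hlam0 U (univ.filter (fun v => v ∉ Bd)) (δ / 2) 6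
      (fun v hv => by
        have e1 := gN v (mem_filter.1 hv).2
        omega) (by omega) (by norm_num)
      (by
        have e1 : (δ : ℝ) ≤ 2 * ((δ / 2 : ℕ) : ℝ) + 1 := by
          have e2 : δ ≤ 2 * (δ / 2) + 1 := by omega
          exact_mod_cast e2
        push_cast at e1 ⊢
        linarith) S hS hS') hBig
  -- the joining edge
  obtain ⟨w, hw, w', hw', hww⟩ := join_sets G h hlam0 (S3.erase z') S2
    (Fintype.card V / 1000 + 1)
    (by
      have e1 : (Fintype.card V : ℝ) < 1000 * ((Fintype.card V / 1000 + 1 : ℕ) : ℝ) := by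
        have e2 : Fintype.card V < 1000 * (Fintype.card V / 1000 + 1) := by omega
        exact_mod_cast e2
      have e3 : (δ : ℝ) ≤ d := by exact_mod_cast hδd
      have e4 : 1000 * lam ≤ d := hlam.trans e3
      have e5 : (0 : ℝ) < d := by linarith
      nlinarith [Nat.cast_nonneg (α := ℝ) (Fintype.card V)])
    (by
      have e1 := pred_card_le_card_erase (s := S3) (a := z')
      omega)
    (by omega)
  rw [mem_erase] at hw
  obtain ⟨j2, F2, τ2, hj2, hh2⟩ := hS2h w' hw'
  obtain ⟨b1, b2, b3, b4, b5, b6, b7, b8, b9, b10, b11⟩ := hh2.inv a1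
  obtain ⟨j3, F3, τ3, hj3, hh3⟩ := hS3h w hw.2
  obtain ⟨c1, c2, c3, c4, c5, c6, c7, c8, c9, c10, c11⟩ := hh3.inv hFAG
  have hac2 : (tg c.Mk F2).IsAcyclic := by
    rcases b11 with ⟨-, e, -, -⟩ | ⟨-, e, -⟩
    · rw [e]; exact hac1
    · exact e
  have hτ2A : ∀ t ∈ τ2, t ∉ A := by
    intro t ht
    rcases b7 t ht with e | e | ⟨u, hu, e⟩
    · rw [e]; exact hAn p hbp
    · exact hAC t (mem_of_mem_erase e)
    · intro htA
      have e1 := (hF1A t htA u).1 e.symm
      exact hACn u (mem_of_mem_erase hu) t e1.symm htA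
  have hw'A : w' ∉ A := hτ2A w' b5
  have hF2A : ∀ a ∈ A, ∀ b, F2.Adj a b ↔ F.Adj a b := fun a ha b =>
    ((b3 a b).resolve_right fun e => hτ2A a e.1 ha).trans (hF1A a ha b)
  obtain ⟨hac3, hnr, u3, hu3, hu3w⟩ : F3.IsAcyclic ∧ ¬ F3.Reachable w z' ∧
      ∃ u ∈ U, (rs F A).Adj u w := by
    rcases c11 with ⟨-, -, e, -⟩ | ⟨-, e, e'⟩
    · exact absurd e hw.1
    · exact ⟨e.1, e.2, e'⟩
  have hwA : w ∈ A := hu3w.2.2
  have hτ3A : ∀ t ∈ τ3, t = z' ∨ t ∈ A := by
    intro t ht
    rcases c7 t ht with e | e | ⟨u, hu, e⟩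
    · exact Or.inl e
    · exact Or.inr (hUA t e)
    · exact Or.inr e.2.2
  have hF3A : ∀ a b, F3.Adj a b → a = z' ∨ a ∈ A := by
    intro a b hab
    rcases c3 a b with e | e
    · exact Or.inr (e.1 hab).2.1
    · exact hτ3A a e.1
  have hww' : w ≠ w' := fun e => hw'A (e ▸ hwA)
  -- the new forest
  have hdisj : ∀ v x, (rs F2 Aᶜ).Adj v x → ¬ F3.Adj v x := by
    intro v x h1 h2
    have e1 : v = z' := (hF3A v x h2).resolve_right h1.2.1
    have e2 : x = z' := (hF3A x v h2.symm).resolve_right h1.2.2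
    exact h1.1.ne (e1.trans e2.symm)
  have hnew : ¬ (rs F2 Aᶜ ⊔ F3).Adj w w' := by
    rintro (e | e)
    · exact e.2.1 hwA
    · have e1 : w' = z' := (hF3A w' w e.symm).resolve_right hw'A
      rw [e1] at e
      exact hnr e.reachable
  have hcard : ∀ v, (nf ((rs F2 Aᶜ ⊔ F3) ⊔ SimpleGraph.edge w w') v).card =
      (nf F v).card + (if v = z then 1 else 0) + (if v = p then 1 else 0) := by
    intro v
    rw [card_nf_sup_edge _ hww' hnew v]
    have e0 : (nf (rs F2 Aᶜ ⊔ F3) v).card = (nf (rs F2 Aᶜ) v).card + (nf F3 v).card := by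
      rw [← card_union_of_disjoint]
      · congr 1
        ext x
        rw [mem_union, mem_nf, mem_nf, mem_nf]
        exact Iff.rfl
      · rw [disjoint_left]
        intro x hx hx'
        exact hdisj v x (mem_nf.1 hx) (mem_nf.1 hx')
    rw [e0]
    have e3 := c2 v
    by_cases hv : v ∈ A
    · have e1 : nf (rs F2 Aᶜ) v = ∅ := by
        rw [eq_empty_iff_forall_notMem]
        intro x hx
        exact (mem_nf.1 hx).2.1 hv
      have hvz : v ≠ z := fun e => hAn z hbz (e ▸ hv)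
      have hvp : v ≠ p := fun e => hAn p hbp (e ▸ hv)
      have hvz' : v ≠ z' := fun e => hz'A (e ▸ hv)
      have hvw' : v ≠ w' := fun e => hw'A (e ▸ hv)
      rw [e1, card_empty, if_neg hvz, if_neg hvp, if_neg hvw']
      rw [if_neg hvz', hFAA v hv] at e3
      omega
    · have e1 : nf (rs F2 Aᶜ) v = nf F2 v := by
        ext x
        rw [mem_nf, mem_nf]
        refine ⟨fun e => e.1, fun e => ⟨e, hv, fun hx => hv ?_⟩⟩
        exact hA1 x hx v ((hF2A x hx v).1 e.symm)
      have e2 : nf (rs F A) v = ∅ := by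
        rw [eq_empty_iff_forall_notMem]
        intro x hx
        exact hv (mem_nf.1 hx).2.1
      have hvw : v ≠ w := fun e => hv (e ▸ hwA)
      have e4 := a2 v
      have e5 := b2 v
      rw [e2, card_empty, if_neg hvw] at e3
      rw [e1, if_neg hvw]
      omega
  have hcap : ∀ v, (nf F v).card + (if v = z then 1 else 0) + (if v = p then 1 else 0) ≤
      c.cap v := by
    intro v
    have e1 := hst.deg v
    by_cases hv : v = p
    · subst hv
      rw [if_pos rfl]
      omega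
    · rw [if_neg hv]
      by_cases hv' : v = z
      · subst hv'
        rw [if_pos rfl]
        omega
      · rw [if_neg hv']
        omega
  set T : Finset (Fin M) := (τ1 ∪ τ2 ∪ τ3).biUnion (fun t => univ.filter (fun k => c.bid t = some k))
    with hT
  refine ⟨(rs F2 Aᶜ ⊔ F3) ⊔ SimpleGraph.edge w w', Tc ∪ T, ⟨?_, ?_, ?_, ?_, ?_, ?_⟩,
    subset_union_left, ?_, ?_⟩
  · -- le
    refine sup_le (sup_le ((rs_le _ _).trans b1) c1) ?_
    rw [SimpleGraph.edge_le_iff]
    exact Or.inr hww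
  · -- deg
    intro v
    rw [hcard v]
    exact hcap v
  · -- full
    intro v hv
    have hvz : v ≠ z := fun e => hv (e ▸ hbz)
    have hvp : v ≠ p := fun e => hv (e ▸ hbp)
    rw [hcard v, if_neg hvz, if_neg hvp]
    exact hst.full v hv
  · -- acy
    have e1 := glue (tg c.Mk (rs F2 Aᶜ)) (lf F3) (hac2.anti (tg_mono _ (rs_le _ _)))
      (lf_acyclic hac3) (some '' A) (some z') (by
        rintro ⟨x, hx, hx'⟩
        exact hz'A (Option.some.inj hx' ▸ hx)) (by
        rintro a b (⟨x, y, e1, e2, e3⟩ | ⟨e1, -⟩ | ⟨e1, x, hx, e2⟩) ⟨x', hx', e4⟩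
        · rw [← e4] at e1
          exact e3.2.1 (Option.some.inj e1 ▸ hx')
        · rw [← e4] at e1
          exact absurd e1 (by simp)
        · rw [← e4] at e2
          exact hAn x (hc.bidM x hx) (Option.some.inj e2 ▸ hx')) (by
        rintro a b ⟨x, y, e1, e2, e3⟩
        rcases hF3A x y e3 with e4 | e4
        · exact Or.inr (by rw [e1, e4])
        · exact Or.inl ⟨x, e4, e1.symm⟩) (some w) (some w') ⟨w, hwA, rfl⟩ (by
        rintro ⟨x, hx, hx'⟩
        exact hw'A (Option.some.inj hx' ▸ hx)) (fun e => hnr (lf_reachable e))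
    refine e1.anti ?_
    rintro a b (⟨x, y, e2, e3, e4⟩ | e2 | e2)
    · rw [e2, e3]
      rcases e4 with (e4 | e4) | e4
      · exact Or.inl (Or.inl (Or.inl ⟨x, y, rfl, rfl, e4⟩))
      · exact Or.inl (Or.inr ⟨x, y, rfl, rfl, e4⟩)
      · refine Or.inr ?_
        rw [SimpleGraph.edge_adj] at e4 ⊢
        simpa using e4
    · exact Or.inl (Or.inl (Or.inr (Or.inl e2)))
    · exact Or.inl (Or.inl (Or.inr (Or.inr e2)))
  · -- core
    intro a b hab
    have ea := hc.bidF a b hab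
    have eb := hc.bidF b a hab.symm
    have e1 : F1.Adj a b := a8 a b (hst.core hab) (fun hu => hCz a hu ea) (fun hu => hCz b hu eb)
    have e2 : F2.Adj a b := b8 a b e1 (fun hu => hCz a (mem_of_mem_erase hu) ea)
      (fun hu => hCz b (mem_of_mem_erase hu) eb)
    exact Or.inl (Or.inl ⟨e2, hAn a ea, hAn b eb⟩)
  · -- unt
    intro v k' hv hk'
    rw [mem_union, not_or] at hk'
    have hvτ : v ∉ τ1 ∪ τ2 ∪ τ3 := by
      intro hvτ
      apply hk'.2
      rw [hT, mem_biUnion]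
      exact ⟨v, hvτ, mem_filter.2 ⟨mem_univ _, hv⟩⟩
    rw [mem_union, mem_union, not_or, not_or] at hvτ
    obtain ⟨⟨hv1, hv2⟩, hv3⟩ := hvτ
    rw [← hst.unt v k' hv hk'.1]
    have hvw : v ≠ w := fun e => hv3 (e ▸ c5)
    have hvw' : v ≠ w' := fun e => hv2 (e ▸ b5)
    ext x
    rw [mem_nf, mem_nf]
    have e3 : F3.Adj v x ↔ (rs F A).Adj v x := (c3 v x).resolve_right fun e => hv3 e.1
    have e2 : F2.Adj v x ↔ F.Adj v x := ((b3 v x).resolve_right fun e => hv2 e.1).trans
      ((a3 v x).resolve_right fun e => hv1 e.1)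
    constructor
    · rintro ((e | e) | e)
      · exact e2.1 e.1
      · exact (e3.1 e).1
      · rw [SimpleGraph.edge_adj] at e
        rcases e.1 with e | e
        · exact absurd e.1 hvw
        · exact absurd e.1 hvw'
    · intro e
      by_cases hvA : v ∈ A
      · exact Or.inl (Or.inr (e3.2 ⟨e, hvA, hA1 v hvA x e⟩))
      · exact Or.inl (Or.inl ⟨e2.2 e, hvA, fun hx => hvA (hA1 x hx v e.symm)⟩)
  · -- number of touched blocks
    have e1 : T.card ≤ (τ1 ∪ τ2 ∪ τ3).card * 1 := by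
      rw [hT]
      refine card_biUnion_le_card_mul _ _ _ fun t _ => ?_
      rw [card_le_one]
      intro x hx y hy
      rw [mem_filter] at hx hy
      exact Option.some.inj (hx.2.symm.trans hy.2)
    have e2 : (τ1 ∪ τ2 ∪ τ3).card ≤ τ1.card + τ2.card + τ3.card :=
      (card_union_le _ _).trans (Nat.add_le_add_right (card_union_le _ _) _)
    have e3 := card_union_le Tc T
    omega
  · -- deficiency
    have e1 : ∀ v, (c.cap v - (nf ((rs F2 Aᶜ ⊔ F3) ⊔ SimpleGraph.edge w w') v).card) +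
        ((if v = z then 1 else 0) + (if v = p then 1 else 0)) = c.cap v - (nf F v).card := by
      intro v
      rw [hcard v]
      have := hcap v
      omega
    have e2 : ∑ v : V, ((if v = z then 1 else 0) + (if v = p then 1 else 0)) = 2 := by
      rw [sum_add_distrib, sum_ite_eq' univ z, sum_ite_eq' univ p, if_pos (mem_univ z),
        if_pos (mem_univ p)]
    rw [← sum_congr rfl fun v _ => e1 v, sum_add_distrib, e2]

end Pool.Agent.HDS
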