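import Pool.Agent.HDS.ForestPaths

/-! # Row Q8: the components of a forest in which the pads have degree 1 and all other vertices
of `Ω` have degree 2 -/

set_option autoImplicit false

namespace Pool.Agent.HDS

open Finset Pool.Agent.HD

/-- a family of lists whose multiset sum is a finite set -/
theorem cp_uniq {V ι : Type} [DecidableEq V] [Fintype ι] {P : ι → List V} {Ω : Finset V}
    (hS : ∑ i, ((P i : List V) : Multiset V) = Ω.val) :
    (∀ i, (P i).Nodup) ∧ (∀ i j v, v ∈ P i → v ∈ P j → i = j) ∧ ∀ v, v ∈ Ω ↔ ∃ i, v ∈ P i := by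
  classical
  have hc : ∀ v, ∑ i, (P i).count v ≤ 1 := by
    intro v
    have h1 : (∑ i, ((P i : List V) : Multiset V)).count v ≤ 1 := by
      rw [hS]
      exact Multiset.nodup_iff_count_le_one.mp Ω.nodup v
    rw [Multiset.count_sum'] at h1
    simpa using h1
  refine ⟨fun i => ?_, fun i j v hi hj => ?_, fun v => ?_⟩
  · rw [List.nodup_iff_count_le_one]
    intro v
    exact (Finset.single_le_sum (f := fun i => (P i).count v) (fun _ _ => Nat.zero_le _)
      (mem_univ i)).trans (hc v)
  · by_contra hne
    have h1 : (P i).count v + (P j).count v ≤ ∑ i, (P i).count v := by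
      rw [← Finset.sum_pair (f := fun i => (P i).count v) hne]
      exact Finset.sum_le_sum_of_subset (subset_univ _)
    have h2 := List.count_pos_iff.mpr hi
    have h3 := List.count_pos_iff.mpr hj
    have := hc v
    omega
  · rw [← Finset.mem_val, ← hS, Multiset.mem_sum]
    simp

/-- the first vertex of a list has at most one neighbour -/
theorem cp_head {V ι : Type} [Fintype V] [DecidableEq V] [Fintype ι] {F : SimpleGraph V}
    {P : ι → List V} {Ω : Finset V} (hS : ∑ i, ((P i : List V) : Multiset V) = Ω.val)
    (hadj : ∀ a b, F.Adj a b → ∃ i, [a, b] <:+: P i ∨ [b, a] <:+: P i) {i : ι} {a : V}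
    {l : List V} (he : P i = a :: l) :
    (nf F a).card ≤ 1 ∧ (l = [] → (nf F a).card = 0) := by
  obtain ⟨hnd, huq, _⟩ := cp_uniq hS
  have hai : a ∈ P i := by rw [he]; exact List.mem_cons_self
  have hal : a ∉ l := by
    have := hnd i
    rw [he, List.nodup_cons] at this
    exact this.1
  have key : ∀ b, b ∈ nf F a → l.head? = some b := by
    intro b hb
    obtain ⟨j, hj⟩ := hadj a b (mem_nf.mp hb)
    have haj : a ∈ P j := by
      rcases hj with hj | hj
      · exact hj.subset (by simp)
      · exact hj.subset (by simp)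
    have hij := huq i j a hai haj
    subst hij
    rw [he] at hj
    rcases hj with ⟨s, t, hst⟩ | ⟨s, t, hst⟩
    · cases s with
      | nil =>
        simp only [List.nil_append, List.cons_append, List.cons.injEq, true_and] at hst
        rw [← hst]
        rfl
      | cons c s' =>
        exfalso
        simp only [List.cons_append, List.cons.injEq] at hst
        apply hal
        rw [← hst.2]
        simp
    · cases s with
      | nil =>
        exfalso
        simp only [List.nil_append, List.cons_append, List.cons.injEq] at hst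
        apply hal
        rw [← hst.2]
        simp
      | cons c s' =>
        exfalso
        simp only [List.cons_append, List.cons.injEq] at hst
        apply hal
        rw [← hst.2]
        simp
  refine ⟨?_, fun hl => ?_⟩
  · rw [Finset.card_le_one]
    intro b hb c hc
    have h1 := key b hb
    have h2 := key c hc
    rw [h1] at h2
    exact Option.some.inj h2
  · rw [Finset.card_eq_zero, Finset.eq_empty_iff_forall_notMem]
    intro b hb
    have := key b hb
    rw [hl] at this
    simp at this

/-- the last vertex of a list has at most one neighbour -/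
theorem cp_last {V ι : Type} [Fintype V] [DecidableEq V] [Fintype ι] {F : SimpleGraph V}
    {P : ι → List V} {Ω : Finset V} (hS : ∑ i, ((P i : List V) : Multiset V) = Ω.val)
    (hadj : ∀ a b, F.Adj a b → ∃ i, [a, b] <:+: P i ∨ [b, a] <:+: P i) {i : ι} {a : V}
    (he : (P i).getLast? = some a) : (nf F a).card ≤ 1 := by
  have hS' : ∑ i, (((P i).reverse : List V) : Multiset V) = Ω.val := by
    rw [← hS]
    exact Finset.sum_congr rfl fun i _ => Multiset.coe_reverse _
  have hadj' : ∀ a b, F.Adj a b → ∃ i, [a, b] <:+: (P i).reverse ∨ [b, a] <:+: (P i).reverse := by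
    intro a b hab
    obtain ⟨i, hi⟩ := hadj a b hab
    refine ⟨i, ?_⟩
    rcases hi with hi | hi
    · right
      have := List.reverse_infix.mpr hi
      simpa using this
    · left
      have := List.reverse_infix.mpr hi
      simpa using this
  have h1 : (P i).reverse.head? = some a := by rw [List.head?_reverse, he]
  cases h2 : (P i).reverse with
  | nil => rw [h2] at h1; simp at h1
  | cons b l =>
    rw [h2] at h1
    simp only [List.head?_cons, Option.some.injEq] at h1
    subst h1
    exact (cp_head hS' hadj' h2).1

theorem closed_paths {V : Type} [Fintype V] [DecidableEq V] {M : ℕ} (F : SimpleGraph V)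
    (hac : F.IsAcyclic) (Ω : Finset V) (pd : Fin M × Bool → V) (hpd : Function.Injective pd)
    (hpΩ : ∀ x, pd x ∈ Ω) (h1 : ∀ x, (nf F (pd x)).card = 1)
    (h2 : ∀ v ∈ Ω, (∀ x, v ≠ pd x) → (nf F v).card = 2) (h0 : ∀ v, v ∉ Ω → (nf F v).card = 0) :
    ∃ (e : Fin M × Bool ≃ Fin M × Bool) (Q : Fin M → List V),
      (∀ k, (Q k).IsChain F.Adj ∧ (Q k).head? = some (pd (e (k, true))) ∧
        (Q k).getLast? = some (pd (e (k, false)))) ∧
      (∑ k, ((Q k : List V) : Multiset V) = Ω.val) ∧
      (∀ k, ∀ a ∈ Q k, ∀ b, F.Adj a b → b ∈ Q k) := by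
  classical
  have hdeg : ∀ v ∈ Ω, (nf F v).card + (if v ∈ univ.image pd then 1 else 0) = 2 := by
    intro v hv
    by_cases hx : v ∈ univ.image pd
    · obtain ⟨x, -, rfl⟩ := Finset.mem_image.mp hx
      rw [if_pos hx, h1]
    · rw [if_neg hx, h2 v hv (fun x hvx => hx (Finset.mem_image.mpr ⟨x, mem_univ _, hvx.symm⟩))]
  have hle : ∀ v, (nf F v).card ≤ 2 := by
    intro v
    by_cases hv : v ∈ Ω
    · have := hdeg v hv
      omega
    · rw [h0 v hv]
      omega
  have hR : ∀ a b, F.Adj a b → a ∈ Ω := by
    intro a b hab
    by_contra ha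
    have h3 := h0 a ha
    rw [Finset.card_eq_zero] at h3
    have h4 : b ∈ nf F a := mem_nf.mpr hab
    rw [h3] at h4
    exact absurd h4 (Finset.notMem_empty _)
  obtain ⟨k, P, p1, p2, p3, p4, p5⟩ := forest_paths F hac hle Ω hR
  have hvol : vol F + 2 * M = 2 * Ω.card := by
    have e1 : vol F = ∑ v ∈ Ω, (nf F v).card := by
      unfold vol
      exact (Finset.sum_subset (subset_univ Ω) fun v _ hv => h0 v hv).symm
    have e2 : ∑ v ∈ Ω, (if v ∈ univ.image pd then 1 else 0) = 2 * M := by
      rw [Finset.sum_boole]
      have e3 : Ω.filter (fun v => v ∈ univ.image pd) = univ.image pd := by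
        ext v
        simp only [Finset.mem_filter]
        refine ⟨fun h => h.2, fun h => ⟨?_, h⟩⟩
        obtain ⟨x, -, rfl⟩ := Finset.mem_image.mp h
        exact hpΩ x
      rw [e3, Finset.card_image_of_injective _ hpd]
      simp [mul_comm]
    rw [e1, ← e2, ← Finset.sum_add_distrib, Finset.sum_congr rfl hdeg]
    simp [mul_comm]
  have hkM : k = M := by omega
  subst hkM
  obtain ⟨hnd, huq, hmem⟩ := cp_uniq p3
  have hpad : ∀ v, v ∈ Ω → (nf F v).card ≤ 1 → ∃ x, pd x = v := by
    intro v hv h3
    by_contra hx
    have := h2 v hv (fun x hvx => hx ⟨x, hvx.symm⟩)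
    omega
  have hpos : ∀ v ∈ Ω, (nf F v).card ≠ 0 := by
    intro v hv
    have := hdeg v hv
    split_ifs at this <;> omega
  let ep : Fin k × Bool → V := fun x => if x.2 then (P x.1).head (p1 x.1) else
    (P x.1).getLast (p1 x.1)
  have hepm : ∀ x, ep x ∈ P x.1 := by
    intro x
    simp only [ep]
    split_ifs
    · exact List.head_mem _
    · exact List.getLast_mem _
  have hep : ∀ x, ∃ y, pd y = ep x := by
    intro x
    refine hpad _ ((hmem _).mpr ⟨x.1, hepm x⟩) ?_
    simp only [ep]
    split_ifs
    · exact (cp_head p3 p4 (List.cons_head_tail (p1 x.1)).symm).1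
    · exact cp_last p3 p4 (List.getLast?_eq_some_getLast (p1 x.1))
  choose e he using hep
  have hinj : Function.Injective e := by
    intro x y hxy
    have h3 : ep x = ep y := by rw [← he, ← he, hxy]
    have h4 : x.1 = y.1 := huq _ _ _ (hepm x) (by rw [h3]; exact hepm y)
    obtain ⟨i, b⟩ := x
    obtain ⟨j, c⟩ := y
    simp only at h4
    subst h4
    have key : (P i).head (p1 i) ≠ (P i).getLast (p1 i) := by
      intro h5
      cases h6 : P i with
      | nil => exact absurd h6 (p1 i)
      | cons a l =>
        have h7 : l ≠ [] := by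
          intro hl
          have h8 := (cp_head p3 p4 h6).2 hl
          exact hpos a ((hmem a).mpr ⟨i, by rw [h6]; exact List.mem_cons_self⟩) h8
        have h8 : a ∉ l := by
          have := hnd i
          rw [h6, List.nodup_cons] at this
          exact this.1
        simp only [h6, List.head_cons] at h5
        rw [List.getLast_cons h7] at h5
        apply h8
        rw [h5]
        exact List.getLast_mem _
    cases b <;> cases c
    · rfl
    · exact absurd h3.symm key
    · exact absurd h3 key
    · rfl
  refine ⟨Equiv.ofBijective e (Finite.injective_iff_bijective.mp hinj), P, fun i => ⟨p2 i, ?_, ?_⟩,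
    p3, ?_⟩
  · rw [Equiv.ofBijective_apply, he, List.head?_eq_some_head (p1 i)]
    rfl
  · rw [Equiv.ofBijective_apply, he, List.getLast?_eq_some_getLast (p1 i)]
    rfl
  · intro i a ha b hab
    obtain ⟨j, hj⟩ := p4 a b hab
    have h3 : a ∈ P j ∧ b ∈ P j := by
      rcases hj with hj | hj
      · exact ⟨hj.subset (by simp), hj.subset (by simp)⟩
      · exact ⟨hj.subset (by simp), hj.subset (by simp)⟩
    have := huq _ _ _ ha h3.1
    rw [this]
    exact h3.2

end Pool.Agent.HDS
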