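import Pool.Agent.HDS.ClosedPaths

/-!
Row Q7 (helper1) of Theorem HDS (MP_134267_co): the linear forest of a family of disjoint lists.
The forest with an additional vertex joined to at most one mark in every list is acyclic: rank of a
vertex = 1 + distance to the mark in its list; every vertex has at most one neighbour of smaller
rank, and adjacent vertices have different ranks.
-/

set_option autoImplicit false

namespace Pool.Agent.HDS

open Finset Pool.Agent.HD

theorem lf_idx {V : Type} [DecidableEq V] {s t : List V} {a : V} (h : (s ++ a :: t).Nodup) :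
    (s ++ a :: t).idxOf a = s.length := by
  have ha : a ∉ s := by
    rw [List.nodup_append] at h
    intro hs
    exact h.2.2 a hs a (by simp) rfl
  rw [List.idxOf_append_of_notMem ha, List.idxOf_cons_self, add_zero]

theorem lf_infix_idx {V : Type} [DecidableEq V] {l : List V} (h : l.Nodup) {a b : V}
    (hi : [a, b] <:+: l) : l.idxOf b = l.idxOf a + 1 := by
  obtain ⟨s, t, rfl⟩ := hi
  have e1 : s ++ [a, b] ++ t = s ++ a :: (b :: t) := by simp
  have e2 : s ++ [a, b] ++ t = (s ++ [a]) ++ b :: t := by simp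
  have h1 : (s ++ [a, b] ++ t).idxOf a = s.length := by
    rw [e1]; exact lf_idx (by rw [← e1]; exact h)
  have h2 : (s ++ [a, b] ++ t).idxOf b = (s ++ [a]).length := by
    rw [e2]; exact lf_idx (by rw [← e2]; exact h)
  rw [h1, h2]; simp

theorem lf_split {V : Type} [DecidableEq V] {s t s1 t1 : List V} {v : V}
    (h : (s ++ v :: t).Nodup) (he : s1 ++ v :: t1 = s ++ v :: t) : s1 = s ∧ t1 = t := by
  have h1 := lf_idx h
  have h2 : (s1 ++ v :: t1).idxOf v = s1.length := lf_idx (by rw [he]; exact h)
  rw [he, h1] at h2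
  have h3 := List.append_inj he h2.symm
  refine ⟨h3.1, ?_⟩
  simpa using h3.2

theorem lf_head {V : Type} [DecidableEq V] {s t : List V} {v : V}
    (h : (s ++ v :: t).Nodup) : (s ++ v :: t).head? = some v ↔ s = [] := by
  constructor
  · intro h1
    cases s with
    | nil => rfl
    | cons a s' =>
      exfalso
      simp at h1
      subst h1
      simp at h
  · rintro rfl; simp

theorem lf_last {V : Type} [DecidableEq V] {s t : List V} {v : V}
    (h : (s ++ v :: t).Nodup) : (s ++ v :: t).getLast? = some v ↔ t = [] := by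
  constructor
  · intro h1
    rcases List.eq_nil_or_concat t with rfl | ⟨t', x, rfl⟩
    · rfl
    · exfalso
      rw [List.concat_eq_append] at h1 h
      have e : s ++ v :: (t' ++ [x]) = (s ++ v :: t') ++ [x] := by simp
      rw [e, List.getLast?_concat] at h1
      have : x = v := by simpa using h1
      subst this
      rw [List.nodup_append] at h
      simp at h
  · rintro rfl; simp

theorem lf_adj {V ι : Type} [Fintype V] [DecidableEq V] [Fintype ι] {P : ι → List V}
    {Ω : Finset V} (hP : ∑ i, ((P i : List V) : Multiset V) = Ω.val) {i : ι} {s t : List V} {v : V}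
    (he : P i = s ++ v :: t) (w : V) :
    w ∈ nf (lgr P) v ↔ s.getLast? = some w ∨ t.head? = some w := by
  obtain ⟨hnd, huq, _⟩ := cp_uniq hP
  have hnd' : (s ++ v :: t).Nodup := by rw [← he]; exact hnd i
  have hvi : v ∈ P i := by rw [he]; simp
  rw [mem_nf]
  constructor
  · rintro ⟨_, j, h | h⟩
    · have hj : v ∈ P j := h.subset (by simp)
      obtain rfl := huq i j v hvi hj
      obtain ⟨s1, t1, e⟩ := h
      rw [he] at e
      have e' : s1 ++ v :: (w :: t1) = s ++ v :: t := by rw [← e]; simp
      have h3 := lf_split hnd' e'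
      right
      rw [← h3.2]; rfl
    · have hj : v ∈ P j := h.subset (by simp)
      obtain rfl := huq i j v hvi hj
      obtain ⟨s1, t1, e⟩ := h
      rw [he] at e
      have e' : (s1 ++ [w]) ++ v :: t1 = s ++ v :: t := by rw [← e]; simp
      have h3 := lf_split hnd' e'
      left
      rw [← h3.1]
      simp
  · rintro (h | h)
    · rw [List.getLast?_eq_some_iff] at h
      obtain ⟨s', rfl⟩ := h
      refine ⟨?_, i, Or.inr ?_⟩
      · rintro rfl
        rw [List.nodup_append] at hnd'
        exact hnd'.2.2 v (by simp) v (by simp) rfl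
      · rw [he]; exact ⟨s', t, by simp⟩
    · rw [List.head?_eq_some_iff] at h
      obtain ⟨t', rfl⟩ := h
      refine ⟨?_, i, Or.inl ?_⟩
      · rintro rfl
        rw [List.nodup_append] at hnd'
        simp at hnd'
      · rw [he]; exact ⟨s, t', by simp⟩

/-! ## Row Q7 (ListForest.lean): the linear forest of a family of disjoint lists -/
theorem lgr_card {V ι : Type} [Fintype V] [DecidableEq V] [Fintype ι] (P : ι → List V)
    (Ω : Finset V) (hP : ∑ i, ((P i : List V) : Multiset V) = Ω.val) :
    (∀ a b, (lgr P).Adj a b → ∃ i, a ∈ P i ∧ b ∈ P i) ∧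
    (∀ v, v ∉ Ω → (nf (lgr P) v).card = 0) ∧
    (∀ i v, v ∈ P i → (nf (lgr P) v).card +
      ((if (P i).head? = some v then 1 else 0) + (if (P i).getLast? = some v then 1 else 0)) = 2) ∧
    (∀ i, ∀ a ∈ P i, ∀ b ∈ P i, (lgr P).Reachable a b) := by
  obtain ⟨hnd, huq, hcov⟩ := cp_uniq hP
  have h1 : ∀ a b, (lgr P).Adj a b → ∃ i, a ∈ P i ∧ b ∈ P i := by
    rintro a b ⟨_, i, h | h⟩
    · exact ⟨i, h.subset (by simp), h.subset (by simp)⟩
    · exact ⟨i, h.subset (by simp), h.subset (by simp)⟩
  refine ⟨h1, ?_, ?_, ?_⟩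
  · intro v hv
    rw [Finset.card_eq_zero, Finset.eq_empty_iff_forall_notMem]
    intro w hw
    obtain ⟨i, hi, _⟩ := h1 v w (mem_nf.mp hw)
    exact hv ((hcov v).mpr ⟨i, hi⟩)
  · intro i v hv
    obtain ⟨s, t, he⟩ := List.append_of_mem hv
    have hnd' : (s ++ v :: t).Nodup := by rw [← he]; exact hnd i
    have hadj := lf_adj hP he
    rw [he]
    simp only [lf_head hnd', lf_last hnd']
    rcases List.eq_nil_or_concat s with rfl | ⟨s', x, hs⟩
    · cases t with
      | nil =>
        have : nf (lgr P) v = ∅ := by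
          ext w; rw [hadj]; simp
        rw [this]; simp
      | cons y t' =>
        have : nf (lgr P) v = {y} := by
          ext w; rw [hadj]; simp [eq_comm]
        rw [this]; simp
    · rw [List.concat_eq_append] at hs
      subst hs
      cases t with
      | nil =>
        have : nf (lgr P) v = {x} := by
          ext w; rw [hadj]; simp [eq_comm]
        rw [this]; simp
      | cons y t' =>
        have hxy : x ≠ y := by
          rintro rfl
          rw [List.nodup_append] at hnd'
          exact hnd'.2.2 x (by simp) x (by simp) rfl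
        have : nf (lgr P) v = {x, y} := by
          ext w; rw [hadj]; simp [eq_comm]
        rw [this, Finset.card_pair hxy]; simp
  · intro i
    apply q10_reach
    rw [List.isChain_iff_forall_rel_of_append_cons_cons]
    intro a b l1 l2 h
    refine ⟨?_, i, Or.inl ⟨l1, l2, by rw [h]; simp⟩⟩
    rintro rfl
    have := hnd i
    rw [h, List.nodup_append] at this
    simp at this

/-- a graph with a rank function such that adjacent vertices have different ranks and every vertex
has at most one neighbour of smaller rank is acyclic -/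
theorem lf_acyclic_of_rank {α : Type} (H : SimpleGraph α) (f : α → ℕ)
    (h1 : ∀ a b, H.Adj a b → f a ≠ f b)
    (h2 : ∀ a b c, H.Adj a b → H.Adj a c → f b < f a → f c < f a → b = c) : H.IsAcyclic := by
  classical
  intro v c hc
  obtain ⟨x, hx, hmax⟩ := c.support.toFinset.exists_max_image f
    ⟨v, by simp⟩
  rw [List.mem_toFinset] at hx
  have hc' := hc.rotate hx
  set c' := c.rotate x hx with hcdef
  have hsup : ∀ y ∈ c'.support, f y ≤ f x := by
    intro y hy
    apply hmax
    rw [List.mem_toFinset]
    rw [hcdef] at hy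
    exact (SimpleGraph.Walk.mem_support_rotate_iff c x hx).mp hy
  have hn : ¬ c'.Nil := hc'.not_nil
  have ha1 : H.Adj x c'.snd := c'.adj_snd hn
  have ha2 : H.Adj c'.penultimate x := c'.adj_penultimate hn
  have hm1 : f c'.snd ≤ f x := hsup _ (c'.getVert_mem_support 1)
  have hm2 : f c'.penultimate ≤ f x := hsup _ (c'.getVert_mem_support _)
  exact hc'.snd_ne_penultimate (h2 x _ _ ha1 ha2.symm
    (lt_of_le_of_ne hm1 (h1 _ _ ha1).symm) (lt_of_le_of_ne hm2 (h1 _ _ ha2)))

theorem lgr_acyclic {V ι : Type} [Fintype V] [DecidableEq V] [Fintype ι] (P : ι → List V)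
    (Ω : Finset V) (hP : ∑ i, ((P i : List V) : Multiset V) = Ω.val) (Mk : Finset V)
    (hM : ∀ i, ∀ a ∈ P i, ∀ b ∈ P i, a ∈ Mk → b ∈ Mk → a = b) :
    (tg Mk (lgr P)).IsAcyclic := by
  classical
  obtain ⟨hnd, huq, hcov⟩ := cp_uniq hP
  -- the position of the mark
  have hpos : ∀ i, ∃ p : ℕ, ∀ a ∈ P i, a ∈ Mk → (P i).idxOf a = p := by
    intro i
    by_cases h : ∃ a ∈ P i, a ∈ Mk
    · obtain ⟨a, ha, haM⟩ := h
      refine ⟨(P i).idxOf a, fun b hb hbM => ?_⟩
      rw [hM i b hb a ha hbM haM]
    · exact ⟨0, fun a ha haM => absurd ⟨a, ha, haM⟩ h⟩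
  choose p hp using hpos
  -- the rank
  let r : V → ℕ := fun v => if h : ∃ i, v ∈ P i then
    1 + (((P h.choose).idxOf v - p h.choose) + (p h.choose - (P h.choose).idxOf v)) else 1
  have hr : ∀ i v, v ∈ P i → r v = 1 + (((P i).idxOf v - p i) + (p i - (P i).idxOf v)) := by
    intro i v hv
    have h : ∃ i, v ∈ P i := ⟨i, hv⟩
    have e : h.choose = i := huq _ _ v h.choose_spec hv
    simp only [r]
    rw [dif_pos h, e]
  have hr1 : ∀ v, 1 ≤ r v := by
    intro v
    simp only [r]
    split_ifs <;> omega
  have hrM : ∀ v ∈ Mk, r v = 1 := by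
    intro v hv
    by_cases h : ∃ i, v ∈ P i
    · obtain ⟨i, hi⟩ := h
      rw [hr i v hi, hp i v hi hv]
      omega
    · simp only [r]
      rw [dif_neg h]
  -- adjacent vertices
  have hadj : ∀ a b, (lgr P).Adj a b → ∃ i, a ∈ P i ∧ b ∈ P i ∧
      ((P i).idxOf b = (P i).idxOf a + 1 ∨ (P i).idxOf a = (P i).idxOf b + 1) := by
    rintro a b ⟨_, i, h | h⟩
    · exact ⟨i, h.subset (by simp), h.subset (by simp), Or.inl (lf_infix_idx (hnd i) h)⟩
    · exact ⟨i, h.subset (by simp), h.subset (by simp), Or.inr (lf_infix_idx (hnd i) h)⟩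
  let f : Option V → ℕ := fun o => o.elim 0 r
  apply lf_acyclic_of_rank _ f
  · rintro a b (⟨x, y, rfl, rfl, h⟩ | ⟨rfl, y, hy, rfl⟩ | ⟨rfl, y, hy, rfl⟩)
    · obtain ⟨i, hx, hy, h⟩ := hadj x y h
      show r x ≠ r y
      rw [hr i x hx, hr i y hy]
      omega
    · show 0 ≠ r y
      have := hr1 y
      omega
    · show r y ≠ 0
      have := hr1 y
      omega
  · intro a b c hb hc hfb hfc
    cases a with
    | none =>
      exfalso
      have : f none = 0 := rfl
      omega
    | some v =>
      have key : ∀ o, (tg Mk (lgr P)).Adj (some v) o → f o < f (some v) →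
          (o = none ∧ v ∈ Mk) ∨ ∃ w, o = some w ∧ (lgr P).Adj v w ∧ r w < r v := by
        rintro o (⟨x, y, h1, rfl, h⟩ | ⟨h1, _⟩ | ⟨rfl, y, hy, h1⟩) hlt
        · obtain rfl := Option.some.inj h1
          exact Or.inr ⟨y, rfl, h, hlt⟩
        · exact absurd h1 (by simp)
        · obtain rfl := Option.some.inj h1
          exact Or.inl ⟨rfl, hy⟩
      rcases key b hb hfb with ⟨rfl, hvM⟩ | ⟨w1, rfl, hw1, hl1⟩
      · rcases key c hc hfc with ⟨rfl, _⟩ | ⟨w2, rfl, hw2, hl2⟩
        · rfl
        · exfalso
          have := hrM v hvM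
          have := hr1 w2
          omega
      · rcases key c hc hfc with ⟨rfl, hvM⟩ | ⟨w2, rfl, hw2, hl2⟩
        · exfalso
          have := hrM v hvM
          have := hr1 w1
          omega
        · obtain ⟨i, hvi, hwi, hi⟩ := hadj v w1 hw1
          obtain ⟨j, hvj, hwj, hj⟩ := hadj v w2 hw2
          obtain rfl := huq i j v hvi hvj
          rw [hr i w1 hwi, hr i v hvi] at hl1
          rw [hr i w2 hwj, hr i v hvi] at hl2
          have e : (P i).idxOf w1 = (P i).idxOf w2 := by omega
          congr 1
          exact (List.idxOf_inj hwi).mp e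

end Pool.Agent.HDS
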