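import Pool.Agent.HDS.Close
import Pool.Agent.HDS.ListForest
import Pool.Agent.HDS.ClosedPaths

/-!
MP_134267_co, Theorem HDS, row Q9 (helper43): the closing phase.
-/

set_option autoImplicit false

namespace Pool.Agent.HDS

open Finset Pool.Agent.HD

/-- the block with its pads -/
def q9B {V : Type} {M : ℕ} (β : Fin M → List V) (pd : Fin M × Bool → V) (k : Fin M) : List V :=
  pd (k, true) :: (β k ++ [pd (k, false)])

/-- all the paths at the start -/
def q9P {V : Type} {M q : ℕ} (β : Fin M → List V) (κ : Fin q → List V) (pd : Fin M × Bool → V) :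
    Fin M ⊕ Fin q → List V := Sum.elim (q9B β pd) κ

theorem q9_sum {V : Type} {M q : ℕ} {β : Fin M → List V} {κ : Fin q → List V}
    {pd : Fin M × Bool → V} {Ω : Finset V}
    (h : ∑ k, ((β k : List V) : Multiset V) + ∑ i, ((κ i : List V) : Multiset V) +
      ∑ x, ({pd x} : Multiset V) = Ω.val) :
    ∑ x, ((q9P β κ pd x : List V) : Multiset V) = Ω.val := by
  rw [Fintype.sum_sum_type, ← h, Fintype.sum_prod_type]
  have h1 : ∀ k : Fin M, ((q9P β κ pd (Sum.inl k) : List V) : Multiset V) =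
      ((β k : List V) : Multiset V) + ∑ b : Bool, ({pd (k, b)} : Multiset V) := by
    intro k
    simp only [q9P, Sum.elim_inl, q9B, Fintype.sum_bool]
    rw [← Multiset.cons_coe, ← Multiset.coe_add, ← Multiset.singleton_add]
    have : (([pd (k, false)] : List V) : Multiset V) = {pd (k, false)} := rfl
    rw [this]
    abel
  have h2 : ∀ i : Fin q, ((q9P β κ pd (Sum.inr i) : List V) : Multiset V) =
      ((κ i : List V) : Multiset V) := fun i => rfl
  simp only [h1, h2, Finset.sum_add_distrib]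
  abel

theorem q9_nodup {V ι : Type} [Fintype ι] {P : ι → List V} {Ω : Finset V}
    (h : ∑ i, ((P i : List V) : Multiset V) = Ω.val) (i : ι) : (P i).Nodup := by
  have h1 : ((P i : List V) : Multiset V) ≤ ∑ i, ((P i : List V) : Multiset V) :=
    Finset.single_le_sum (f := fun i => ((P i : List V) : Multiset V))
      (fun _ _ => Multiset.zero_le _) (Finset.mem_univ i)
  rw [h] at h1
  exact Multiset.coe_nodup.mp (Multiset.nodup_of_le h1 (Finset.nodup _))

theorem q9_disj {V ι : Type} [Fintype ι] {P : ι → List V} {Ω : Finset V}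
    (h : ∑ i, ((P i : List V) : Multiset V) = Ω.val) {i i' : ι} {v : V}
    (hi : v ∈ P i) (hi' : v ∈ P i') : i = i' := by
  classical
  by_contra hne
  have h1 : ∑ k ∈ ({i, i'} : Finset ι), ((P k : List V) : Multiset V) ≤
      ∑ i, ((P i : List V) : Multiset V) :=
    Finset.sum_le_sum_of_subset (Finset.subset_univ _)
  rw [h, Finset.sum_pair hne] at h1
  have h2 := Multiset.nodup_of_le h1 (Finset.nodup _)
  rw [Multiset.nodup_add] at h2
  exact (Multiset.disjoint_left.mp h2.2.2) (by simpa using hi) (by simpa using hi')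

theorem q9_mem {V ι : Type} [Fintype ι] {P : ι → List V} {Ω : Finset V}
    (h : ∑ i, ((P i : List V) : Multiset V) = Ω.val) (v : V) : v ∈ Ω ↔ ∃ i, v ∈ P i := by
  rw [← Finset.mem_val, ← h, Multiset.mem_sum]
  simp

/-- the data of the closing phase -/
structure Q9H {V : Type} [Fintype V] [DecidableEq V] (G : SimpleGraph V) {M q : ℕ}
    (β : Fin M → List V) (isA : Fin M → Prop) (κ : Fin q → List V) (pd : Fin M × Bool → V)
    (Ω : Finset V) (Va Vc : Finset V) (B : ℕ) : Prop where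
  hβ : ∀ k, β k ≠ []
  hκ : ∀ i, κ i ≠ []
  hβc : ∀ k, (pd (k, true) :: (β k ++ [pd (k, false)])).IsChain G.Adj
  hκc : ∀ i, (κ i).IsChain G.Adj
  hΩ : ∑ x, ((q9P β κ pd x : List V) : Multiset V) = Ω.val
  hVa : ∀ v, v ∈ Va ↔ ∃ k, isA k ∧ v ∈ β k
  hVc : ∀ v, v ∈ Vc ↔ ∃ k, ¬ isA k ∧ v ∈ β k
  hB : ∀ k, (β k).length + 2 ≤ B

section

variable {V : Type} [Fintype V] [DecidableEq V] {G : SimpleGraph V} {M q : ℕ}
  {β : Fin M → List V} {isA : Fin M → Prop} {κ : Fin q → List V} {pd : Fin M × Bool → V}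
  {Ω : Finset V} {Va Vc : Finset V} {B : ℕ}

theorem Q9H.nd (H : Q9H G β isA κ pd Ω Va Vc B) (k : Fin M) : (q9B β pd k).Nodup :=
  q9_nodup H.hΩ (Sum.inl k)

theorem Q9H.ndκ (H : Q9H G β isA κ pd Ω Va Vc B) (i : Fin q) : (κ i).Nodup :=
  q9_nodup H.hΩ (Sum.inr i)

theorem Q9H.bb (H : Q9H G β isA κ pd Ω Va Vc B) {k k' : Fin M} {v : V} (h : v ∈ q9B β pd k)
    (h' : v ∈ q9B β pd k') : k = k' :=
  Sum.inl_injective (q9_disj H.hΩ (i := Sum.inl k) (i' := Sum.inl k') h h')

theorem Q9H.cc (H : Q9H G β isA κ pd Ω Va Vc B) {i i' : Fin q} {v : V} (h : v ∈ κ i)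
    (h' : v ∈ κ i') : i = i' :=
  Sum.inr_injective (q9_disj H.hΩ (i := Sum.inr i) (i' := Sum.inr i') h h')

theorem Q9H.bc (H : Q9H G β isA κ pd Ω Va Vc B) {k : Fin M} {i : Fin q} {v : V}
    (h : v ∈ q9B β pd k) (h' : v ∈ κ i) : False := by
  have := q9_disj H.hΩ (i := Sum.inl k) (i' := Sum.inr i) h h'
  simp at this

omit [Fintype V] [DecidableEq V] in
theorem mem_q9B {k : Fin M} {v : V} : v ∈ q9B β pd k ↔ v = pd (k, true) ∨ v ∈ β k ∨
    v = pd (k, false) := by
  simp [q9B]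

theorem Q9H.pad_ne (H : Q9H G β isA κ pd Ω Va Vc B) (k : Fin M) :
    pd (k, true) ≠ pd (k, false) ∧ pd (k, true) ∉ β k ∧ pd (k, false) ∉ β k := by
  have h := H.nd k
  simp only [q9B, List.nodup_cons, List.mem_append, List.mem_singleton, not_or] at h
  refine ⟨h.1.2, h.1.1, ?_⟩
  intro h1
  exact (List.disjoint_of_nodup_append h.2) h1 (by simp)

theorem Q9H.pd_inj (H : Q9H G β isA κ pd Ω Va Vc B) : Function.Injective pd := by
  rintro ⟨k, b⟩ ⟨k', b'⟩ h
  have m : ∀ (k : Fin M) (b : Bool), pd (k, b) ∈ q9B β pd k := by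
    intro k b
    rw [mem_q9B]
    cases b
    · exact Or.inr (Or.inr rfl)
    · exact Or.inl rfl
  have h1 := m k b
  rw [h] at h1
  obtain rfl := H.bb h1 (m k' b')
  have h2 := (H.pad_ne k).1
  cases b <;> cases b' <;> first | rfl | exact absurd h h2 | exact absurd h.symm h2

theorem Q9H.mem_pd (k : Fin M) (b : Bool) : pd (k, b) ∈ q9B β pd k := by
  rw [mem_q9B]
  cases b
  · exact Or.inr (Or.inr rfl)
  · exact Or.inl rfl

/-- the block of a vertex -/
noncomputable def q9Bid (β : Fin M → List V) (pd : Fin M × Bool → V) (v : V) :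
    Option (Fin M) := by
  classical exact if h : ∃ k, v ∈ q9B β pd k then some h.choose else none

theorem Q9H.bid_some (H : Q9H G β isA κ pd Ω Va Vc B) {v : V} {k : Fin M} :
    q9Bid β pd v = some k ↔ v ∈ q9B β pd k := by
  unfold q9Bid
  by_cases h : ∃ k, v ∈ q9B β pd k
  · rw [dif_pos h]
    constructor
    · intro h1
      rw [← Option.some.inj h1]
      exact h.choose_spec
    · intro h1
      rw [H.bb h.choose_spec h1]
  · rw [dif_neg h]
    constructor
    · intro h1
      simp at h1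
    · intro h1
      exact absurd ⟨k, h1⟩ h

omit [Fintype V] in
theorem q9Bid_none {v : V} : q9Bid β pd v = none ↔ ∀ k, v ∉ q9B β pd k := by
  unfold q9Bid
  by_cases h : ∃ k, v ∈ q9B β pd k
  · rw [dif_pos h]
    simp only [reduceCtorEq, false_iff, not_forall, not_not]
    exact h
  · rw [dif_neg h]
    push Not at h
    simp [h]

/-- the wanted degrees -/
noncomputable def q9Cap (pd : Fin M × Bool → V) (Ω : Finset V) (v : V) : ℕ := by
  classical exact if ∃ x, v = pd x then 1 else if v ∈ Ω then 2 else 0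

/-- the static data -/
noncomputable def q9CD (β : Fin M → List V) (isA : Fin M → Prop) (κ : Fin q → List V)
    (pd : Fin M × Bool → V) (Ω Va Vc : Finset V) : CD V M where
  cap := q9Cap pd Ω
  bid := q9Bid β pd
  isA := isA
  Va := Va
  Vc := Vc
  Mk := by classical exact univ.filter (fun v => ∃ i, (κ i).head? = some v)
  Fcore := lgr κ
  Fi := lgr (q9P β κ pd)

theorem Q9H.cap_pd (H : Q9H G β isA κ pd Ω Va Vc B) (x : Fin M × Bool) :
    q9Cap pd Ω (pd x) = 1 := by
  unfold q9Cap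
  rw [if_pos ⟨x, rfl⟩]

theorem Q9H.cap_β (H : Q9H G β isA κ pd Ω Va Vc B) {k : Fin M} {v : V} (hv : v ∈ β k) :
    q9Cap pd Ω v = 2 := by
  have hvB : v ∈ q9B β pd k := mem_q9B.mpr (Or.inr (Or.inl hv))
  unfold q9Cap
  rw [if_neg, if_pos]
  · exact (q9_mem H.hΩ v).mpr ⟨Sum.inl k, hvB⟩
  · rintro ⟨⟨k', b⟩, rfl⟩
    obtain rfl := H.bb hvB (Q9H.mem_pd k' b)
    have h := H.pad_ne k
    cases b
    · exact h.2.2 hv
    · exact h.2.1 hv

theorem Q9H.cap_κ (H : Q9H G β isA κ pd Ω Va Vc B) {i : Fin q} {v : V} (hv : v ∈ κ i) :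
    q9Cap pd Ω v = 2 := by
  unfold q9Cap
  rw [if_neg, if_pos]
  · exact (q9_mem H.hΩ v).mpr ⟨Sum.inr i, hv⟩
  · rintro ⟨⟨k', b⟩, rfl⟩
    exact H.bc (Q9H.mem_pd k' b) hv

theorem Q9H.cap_out (H : Q9H G β isA κ pd Ω Va Vc B) {v : V} (hv : v ∉ Ω) :
    q9Cap pd Ω v = 0 := by
  unfold q9Cap
  rw [if_neg, if_neg hv]
  rintro ⟨⟨k', b⟩, rfl⟩
  exact hv ((q9_mem H.hΩ _).mpr ⟨Sum.inl k', Q9H.mem_pd k' b⟩)


theorem Q9H.bid_none (H : Q9H G β isA κ pd Ω Va Vc B) {v : V} {i : Fin q} (hv : v ∈ κ i) :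
    q9Bid β pd v = none := by
  rw [q9Bid_none]
  intro k hk
  exact H.bc hk hv

/-- a vertex without a block in `Ω` is in a core -/
theorem Q9H.core_of_none (H : Q9H G β isA κ pd Ω Va Vc B) {v : V} (hv : v ∈ Ω)
    (h : q9Bid β pd v = none) : ∃ i, v ∈ κ i := by
  obtain ⟨x, hx⟩ := (q9_mem H.hΩ v).mp hv
  rcases x with k | i
  · exact absurd hx (q9Bid_none.mp h k)
  · exact ⟨i, hx⟩

theorem Q9H.bid_adj (H : Q9H G β isA κ pd Ω Va Vc B) {a b : V}
    (h : (lgr (q9P β κ pd)).Adj a b) : q9Bid β pd a = q9Bid β pd b := by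
  obtain ⟨x, ha, hb⟩ := (lgr_card (q9P β κ pd) Ω H.hΩ).1 a b h
  rcases x with k | i
  · rw [H.bid_some.mpr (show a ∈ q9B β pd k from ha), H.bid_some.mpr (show b ∈ q9B β pd k from hb)]
  · rw [H.bid_none (show a ∈ κ i from ha), H.bid_none (show b ∈ κ i from hb)]

theorem Q9H.size (H : Q9H G β isA κ pd Ω Va Vc B) (k : Fin M) :
    (univ.filter (fun v => q9Bid β pd v = some k)).card = (β k).length + 2 := by
  have h1 : univ.filter (fun v => q9Bid β pd v = some k) = (q9B β pd k).toFinset := by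
    ext v
    simp only [Finset.mem_filter, Finset.mem_univ, true_and, List.mem_toFinset]
    exact H.bid_some
  rw [h1, List.toFinset_card_of_nodup (H.nd k)]
  simp [q9B]

theorem Q9H.ok (H : Q9H G β isA κ pd Ω Va Vc B) {δ : ℕ} (nbA : ∀ v, δ ≤ (nb G Va v).card)
    (nbC : ∀ v, δ ≤ (nb G Vc v).card) : (q9CD β isA κ pd Ω Va Vc).Ok G B δ where
  capV v := by
    show q9Cap pd Ω v ≤ 2
    unfold q9Cap
    split_ifs <;> omega
  capA v hv := by
    obtain ⟨k, -, hk⟩ := (H.hVa v).mp hv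
    exact H.cap_β hk
  capC v hv := by
    obtain ⟨k, -, hk⟩ := (H.hVc v).mp hv
    exact H.cap_β hk
  bidA v hv := by
    obtain ⟨k, h1, hk⟩ := (H.hVa v).mp hv
    exact ⟨k, H.bid_some.mpr (mem_q9B.mpr (Or.inr (Or.inl hk))), h1⟩
  bidC v hv := by
    obtain ⟨k, h1, hk⟩ := (H.hVc v).mp hv
    exact ⟨k, H.bid_some.mpr (mem_q9B.mpr (Or.inr (Or.inl hk))), h1⟩
  bidM v hv := by
    have h1 : ∃ i, (κ i).head? = some v := by simpa [q9CD] using hv
    obtain ⟨i, hi⟩ := h1
    exact H.bid_none (List.mem_of_mem_head? hi)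
  bidF a b hab := by
    obtain ⟨-, i, hi⟩ := hab
    refine H.bid_none (i := i) ?_
    rcases hi with hi | hi
    · exact hi.subset (by simp)
    · exact hi.subset (by simp)
  bidI a b hab := H.bid_adj hab
  size k := by
    have h1 := H.size k
    have h2 := H.hB k
    show (univ.filter (fun v => q9Bid β pd v = some k)).card ≤ B
    omega
  nbA := nbA
  nbC := nbC

omit [Fintype V] [DecidableEq V] in
theorem q9_chain_adj {G : SimpleGraph V} {Q : List V} (hQ : Q.IsChain G.Adj) {a b : V}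
    (h : [a, b] <:+: Q) : G.Adj a b := by
  obtain ⟨l, r, rfl⟩ := h
  rw [List.append_assoc, List.isChain_append] at hQ
  have h1 := hQ.2.1
  rw [List.isChain_append] at h1
  have h2 := h1.1
  simpa using h2

theorem Q9H.chain (H : Q9H G β isA κ pd Ω Va Vc B) (x : Fin M ⊕ Fin q) :
    (q9P β κ pd x).IsChain G.Adj := by
  rcases x with k | i
  · exact H.hβc k
  · exact H.hκc i

omit [Fintype V] [DecidableEq V] in
theorem q9_last (a b : V) (l : List V) : (a :: (l ++ [b])).getLast? = some b := by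
  rw [← List.cons_append, List.getLast?_append]
  simp

/-- the degrees at the start -/
theorem Q9H.deg_pd (H : Q9H G β isA κ pd Ω Va Vc B) (x : Fin M × Bool) :
    (nf (lgr (q9P β κ pd)) (pd x)).card = 1 := by
  obtain ⟨k, b⟩ := x
  have h1 := (lgr_card (q9P β κ pd) Ω H.hΩ).2.2.1 (Sum.inl k) (pd (k, b)) (Q9H.mem_pd k b)
  have e1 : (q9P β κ pd (Sum.inl k)).head? = some (pd (k, true)) := by simp [q9P, q9B]
  have e2 : (q9P β κ pd (Sum.inl k)).getLast? = some (pd (k, false)) := q9_last _ _ _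
  rw [e1, e2] at h1
  have h2 := (H.pad_ne k).1
  cases b
  · rw [if_neg (by simpa using h2), if_pos rfl] at h1
    omega
  · rw [if_pos rfl, if_neg (by simpa using h2.symm)] at h1
    omega

theorem Q9H.deg_β (H : Q9H G β isA κ pd Ω Va Vc B) {k : Fin M} {v : V} (hv : v ∈ β k) :
    (nf (lgr (q9P β κ pd)) v).card = 2 := by
  have h1 := (lgr_card (q9P β κ pd) Ω H.hΩ).2.2.1 (Sum.inl k) v
    (mem_q9B.mpr (Or.inr (Or.inl hv)))
  have e1 : (q9P β κ pd (Sum.inl k)).head? = some (pd (k, true)) := by simp [q9P, q9B]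
  have e2 : (q9P β κ pd (Sum.inl k)).getLast? = some (pd (k, false)) := q9_last _ _ _
  have h2 := H.pad_ne k
  rw [e1, e2, if_neg, if_neg] at h1
  · omega
  · simp only [Option.some.injEq]
    rintro rfl
    exact h2.2.2 hv
  · simp only [Option.some.injEq]
    rintro rfl
    exact h2.2.1 hv

theorem Q9H.deg_κ (H : Q9H G β isA κ pd Ω Va Vc B) {i : Fin q} {v : V} (hv : v ∈ κ i) :
    (nf (lgr (q9P β κ pd)) v).card +
      ((if (κ i).head? = some v then 1 else 0) + (if (κ i).getLast? = some v then 1 else 0)) = 2 :=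
  (lgr_card (q9P β κ pd) Ω H.hΩ).2.2.1 (Sum.inr i) v hv

theorem Q9H.deg_out (H : Q9H G β isA κ pd Ω Va Vc B) {v : V} (hv : v ∉ Ω) :
    (nf (lgr (q9P β κ pd)) v).card = 0 :=
  (lgr_card (q9P β κ pd) Ω H.hΩ).2.1 v hv

/-- the four kinds of vertices -/
theorem Q9H.kinds (H : Q9H G β isA κ pd Ω Va Vc B) (v : V) :
    (∃ x, v = pd x) ∨ (∃ k, v ∈ β k) ∨ (∃ i, v ∈ κ i) ∨ v ∉ Ω := by
  by_cases hv : v ∈ Ω
  · obtain ⟨x, hx⟩ := (q9_mem H.hΩ v).mp hv
    rcases x with k | i
    · rcases mem_q9B.mp (show v ∈ q9B β pd k from hx) with h | h | h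
      · exact Or.inl ⟨_, h⟩
      · exact Or.inr (Or.inl ⟨k, h⟩)
      · exact Or.inl ⟨_, h⟩
    · exact Or.inr (Or.inr (Or.inl ⟨i, hx⟩))
  · exact Or.inr (Or.inr (Or.inr hv))

theorem Q9H.st (H : Q9H G β isA κ pd Ω Va Vc B) :
    (q9CD β isA κ pd Ω Va Vc).St G (lgr (q9P β κ pd)) ∅ where
  le := by
    rintro a b ⟨-, x, h | h⟩
    · exact q9_chain_adj (H.chain x) h
    · exact (q9_chain_adj (H.chain x) h).symm
  deg v := by
    show _ ≤ q9Cap pd Ω v
    rcases H.kinds v with ⟨x, rfl⟩ | ⟨k, hk⟩ | ⟨i, hi⟩ | hv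
    · rw [H.deg_pd, H.cap_pd]
    · rw [H.deg_β hk, H.cap_β hk]
    · have := H.deg_κ hi
      rw [H.cap_κ hi]
      omega
    · rw [H.deg_out hv, H.cap_out hv]
  full v hv := by
    show _ = q9Cap pd Ω v
    rcases H.kinds v with ⟨x, rfl⟩ | ⟨k, hk⟩ | ⟨i, hi⟩ | hv'
    · rw [H.deg_pd, H.cap_pd]
    · rw [H.deg_β hk, H.cap_β hk]
    · exact absurd (H.bid_none hi) hv
    · rw [H.deg_out hv', H.cap_out hv']
  acy := by
    refine lgr_acyclic (q9P β κ pd) Ω H.hΩ _ ?_
    intro x a ha b hb hma hmb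
    have h1 : ∃ i, (κ i).head? = some a := by simpa [q9CD] using hma
    have h2 : ∃ i, (κ i).head? = some b := by simpa [q9CD] using hmb
    obtain ⟨i, hi⟩ := h1
    obtain ⟨i', hi'⟩ := h2
    have e1 := q9_disj H.hΩ (i := x) (i' := Sum.inr i) ha (List.mem_of_mem_head? hi)
    have e2 := q9_disj H.hΩ (i := x) (i' := Sum.inr i') hb (List.mem_of_mem_head? hi')
    rw [e1] at e2
    obtain rfl := Sum.inr_injective e2
    rw [hi] at hi'
    exact Option.some.inj hi'
  core := by
    rintro a b ⟨h1, i, h⟩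
    exact ⟨h1, Sum.inr i, h⟩
  unt v k _ _ := rfl

theorem q9_sum_one {α : Type} [Fintype α] [DecidableEq α] (o : Option α) (h : o ≠ none) :
    ∑ v, (if o = some v then 1 else 0) = 1 := by
  obtain ⟨a, rfl⟩ := Option.ne_none_iff_exists'.mp h
  simp

omit [Fintype V] in
theorem q9_zero {Q : List V} {v : V} (h : v ∉ Q) : ((if Q.head? = some v then 1 else 0) +
    (if Q.getLast? = some v then 1 else 0)) = 0 := by
  have h1 : ¬ Q.head? = some v := fun h' => h (List.mem_of_mem_head? h')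
  have h2 : ¬ Q.getLast? = some v := fun h' => h (List.mem_of_mem_getLast? h')
  rw [if_neg h1, if_neg h2]

theorem Q9H.deficit (H : Q9H G β isA κ pd Ω Va Vc B) :
    ∑ v, ((q9CD β isA κ pd Ω Va Vc).cap v - (nf (lgr (q9P β κ pd)) v).card) = 2 * q := by
  have h1 : ∀ v, (q9CD β isA κ pd Ω Va Vc).cap v - (nf (lgr (q9P β κ pd)) v).card =
      ∑ i, ((if (κ i).head? = some v then 1 else 0) +
        (if (κ i).getLast? = some v then 1 else 0)) := by
    intro v
    show q9Cap pd Ω v - _ = _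
    have hz : (∀ i, v ∉ κ i) → ∑ i, ((if (κ i).head? = some v then 1 else 0) +
        (if (κ i).getLast? = some v then 1 else 0)) = 0 := by
      intro h
      exact Finset.sum_eq_zero (fun i _ => q9_zero (h i))
    rcases H.kinds v with ⟨x, rfl⟩ | ⟨k, hk⟩ | ⟨i, hi⟩ | hv
    · rw [H.deg_pd, H.cap_pd, hz (fun i hi => H.bc (Q9H.mem_pd x.1 x.2) hi)]
    · rw [H.deg_β hk, H.cap_β hk,
        hz (fun i hi => H.bc (mem_q9B.mpr (Or.inr (Or.inl hk))) hi)]
    · have h2 := H.deg_κ hi
      rw [H.cap_κ hi, Finset.sum_eq_single i]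
      · omega
      · intro i' _ hne
        exact q9_zero (fun h => hne (H.cc h hi))
      · intro h
        exact absurd (Finset.mem_univ i) h
    · rw [H.deg_out hv, H.cap_out hv,
        hz (fun i hi => hv ((q9_mem H.hΩ v).mpr ⟨Sum.inr i, hi⟩))]
  simp only [h1]
  rw [Finset.sum_comm]
  have h2 : ∀ i : Fin q, ∑ v, ((if (κ i).head? = some v then 1 else 0) +
      (if (κ i).getLast? = some v then 1 else 0)) = 2 := by
    intro i
    rw [Finset.sum_add_distrib, q9_sum_one, q9_sum_one]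
    · simpa using H.hκ i
    · simpa using H.hκ i
  simp [h2, mul_comm]

/-- iteration of `close_step` -/
theorem q9_iter (G : SimpleGraph V) [DecidableRel G.Adj] {d : ℕ} {lam : ℝ} (h : IsNDL G d lam)
    (hlam0 : 0 ≤ lam) {M : ℕ} (c : CD V M) {B δ k q : ℕ} (hc : c.Ok G B δ) (hδ : d ≤ 10 * δ)
    (hδ1 : 1000 ≤ δ) (hlam : 1000 * lam ≤ δ) (hn : 100000 ≤ Fintype.card V)
    (hk : Fintype.card V ≤ 2 ^ k) (hq : 1000 * (B * (q * (6 * k + 3))) ≤ Fintype.card V)
    (F₀ : SimpleGraph V) (hst : c.St G F₀ ∅)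
    (hdef : ∑ v, (c.cap v - (nf F₀ v).card) = 2 * q) (r : ℕ) (hr : r ≤ q) :
    ∃ (F : SimpleGraph V) (Tc : Finset (Fin M)), c.St G F Tc ∧ Tc.card ≤ r * (6 * k + 3) ∧
      ∑ v, (c.cap v - (nf F v).card) + 2 * r = 2 * q := by
  induction r with
  | zero => exact ⟨F₀, ∅, hst, by simp, by simpa using hdef⟩
  | succ r ih =>
    obtain ⟨F, Tc, h1, h2, h3⟩ := ih (by omega)
    have h4 : Tc.card ≤ q * (6 * k + 3) :=
      h2.trans (Nat.mul_le_mul_right _ (by omega))
    obtain ⟨F', Tc', h5, -, h6, h7⟩ := close_step G h hlam0 c hc hδ hδ1 hlam hn hk F Tc h1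
      (by omega)
      ((Nat.mul_le_mul_left _ (Nat.mul_le_mul_left _ h4)).trans hq)
    refine ⟨F', Tc', h5, ?_, by omega⟩
    rw [add_mul, one_mul]
    omega


omit [Fintype V] [DecidableEq V] in
/-- `F` is a subgraph of `tg Mk F` -/
theorem q9_hom_adj {Mk : Finset V} {F : SimpleGraph V} {a b : V} (h : F.Adj a b) :
    (tg Mk F).Adj (some a) (some b) := Or.inl ⟨a, b, rfl, rfl, h⟩

omit [Fintype V] [DecidableEq V] in
theorem q9_acyclic {Mk : Finset V} {F : SimpleGraph V} (h : (tg Mk F).IsAcyclic) :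
    F.IsAcyclic := by
  let f : F →g tg Mk F := ⟨some, fun {a b} hab => q9_hom_adj hab⟩
  exact h.comap f (Option.some_injective V)

omit [Fintype V] in
theorem q9_marks {Mk : Finset V} {F : SimpleGraph V} (h : (tg Mk F).IsAcyclic) {a b : V}
    (ha : a ∈ Mk) (hb : b ∈ Mk) (hr : F.Reachable a b) : a = b := by
  by_contra hne
  let f : F →g tg Mk F := ⟨some, fun {a b} hab => q9_hom_adj hab⟩
  obtain ⟨p, hp⟩ := hr.exists_isPath
  have h1 : (p.map f).IsPath := (SimpleGraph.Walk.isPath_map_iff_of_injective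
    (Option.some_injective V)).mpr hp
  have ha' : (tg Mk F).Adj (some a) none := Or.inr (Or.inr ⟨rfl, a, ha, rfl⟩)
  have hb' : (tg Mk F).Adj none (some b) := Or.inr (Or.inl ⟨rfl, b, hb, rfl⟩)
  let p' : (tg Mk F).Walk (some a) (some b) :=
    SimpleGraph.Walk.cons ha' (SimpleGraph.Walk.cons hb' SimpleGraph.Walk.nil)
  have h2 : p'.IsPath := by
    simp [p', hne]
  have h3 := h.path_unique (⟨p.map f, h1⟩ : (tg Mk F).Path _ _) ⟨p', h2⟩
  have h4 : p.map f = p' := congrArg Subtype.val h3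
  have h5 : (none : Option V) ∈ (p.map f).support := by
    rw [h4]
    simp [p']
  rw [SimpleGraph.Walk.support_map, List.mem_map] at h5
  obtain ⟨x, -, hx⟩ := h5
  exact absurd hx (by simp [f])

omit [Fintype V] [DecidableEq V] in
theorem q9_reach {F : SimpleGraph V} {Q : List V} (hQ : Q.IsChain F.Adj) {a b : V}
    (ha : a ∈ Q) (hb : b ∈ Q) : F.Reachable a b := by
  have key : ∀ (Q : List V) (x : V), (x :: Q).IsChain F.Adj → ∀ y ∈ x :: Q,
      F.Reachable x y := by
    intro Q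
    induction Q with
    | nil =>
      intro x _ y hy
      rw [List.mem_singleton] at hy
      rw [hy]
    | cons z Q ih =>
      intro x hx y hy
      rw [List.isChain_cons_cons] at hx
      rw [List.mem_cons] at hy
      rcases hy with rfl | hy
      · exact SimpleGraph.Reachable.refl _
      · exact hx.1.reachable.trans (ih z hx.2 y hy)
  cases Q with
  | nil => simp at ha
  | cons x Q => exact (key Q x hQ a ha).symm.trans (key Q x hQ b hb)

omit [Fintype V] [DecidableEq V] in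
theorem q9_closed {F : SimpleGraph V} {p : V → Prop} (hp : ∀ a b, F.Adj a b → p a → p b)
    {a b : V} (hr : F.Reachable a b) (ha : p a) : p b := by
  obtain ⟨w⟩ := hr
  induction w with
  | nil => exact ha
  | cons h w ih => exact ih (hp _ _ h ha)

theorem Q9H.core_sum (H : Q9H G β isA κ pd Ω Va Vc B) :
    ∃ Ω' : Finset V, ∑ i, ((κ i : List V) : Multiset V) = Ω'.val := by
  have h := H.hΩ
  rw [Fintype.sum_sum_type] at h
  have h1 : ∑ i, ((κ i : List V) : Multiset V) ≤ Ω.val := by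
    rw [← h]
    exact Multiset.le_add_left _ _
  exact ⟨⟨_, Multiset.nodup_of_le h1 Ω.nodup⟩, rfl⟩

theorem q9_bid_closed {c : CD V M} {F : SimpleGraph V} {Tc : Finset (Fin M)}
    (hst : c.St G F Tc) (hI : ∀ a b, c.Fi.Adj a b → c.bid a = c.bid b) {k : Fin M}
    (hk : k ∉ Tc) : ∀ a b, F.Adj a b → c.bid a = some k → c.bid b = some k := by
  intro a b hab ha
  have h1 := hst.unt a k ha hk
  have h2 : b ∈ nf c.Fi a := by
    rw [← h1]
    exact mem_nf.mpr hab
  rw [← hI a b (mem_nf.mp h2)]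
  exact ha

/-- ROW Q9 -/
theorem closing_phase {V : Type} [Fintype V] [DecidableEq V] (G : SimpleGraph V)
    [DecidableRel G.Adj] {d : ℕ} {lam : ℝ} (h : IsNDL G d lam) (hlam0 : 0 ≤ lam) {M q : ℕ}
    (β : Fin M → List V) (isA : Fin M → Prop) (κ : Fin q → List V) (pd : Fin M × Bool → V)
    (Ω : Finset V) (hβ : ∀ k, β k ≠ []) (hκ : ∀ i, κ i ≠ [])
    (hβc : ∀ k, (pd (k, true) :: (β k ++ [pd (k, false)])).IsChain G.Adj)
    (hκc : ∀ i, (κ i).IsChain G.Adj)
    (hΩ : ∑ k, ((β k : List V) : Multiset V) + ∑ i, ((κ i : List V) : Multiset V) +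
      ∑ x, ({pd x} : Multiset V) = Ω.val)
    (Va Vc : Finset V) (hVa : ∀ v, v ∈ Va ↔ ∃ k, isA k ∧ v ∈ β k)
    (hVc : ∀ v, v ∈ Vc ↔ ∃ k, ¬ isA k ∧ v ∈ β k)
    {B δ k Lc : ℕ} (hB : ∀ k, (β k).length + 2 ≤ B) (hLc : ∀ i, (κ i).length ≤ Lc)
    (nbA : ∀ v, δ ≤ (nb G Va v).card) (nbC : ∀ v, δ ≤ (nb G Vc v).card)
    (hδ : d ≤ 10 * δ) (hδ1 : 1000 ≤ δ) (hlam : 1000 * lam ≤ δ)
    (hn : 100000 ≤ Fintype.card V) (hk : Fintype.card V ≤ 2 ^ k)
    (hq : 1000 * (B * (q * (6 * k + 3))) ≤ Fintype.card V) :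
    ∃ (e : Fin M × Bool ≃ Fin M × Bool) (Q : Fin M → List V),
      (∀ k, (Q k).IsChain G.Adj ∧ (Q k).head? = some (pd (e (k, true))) ∧
        (Q k).getLast? = some (pd (e (k, false)))) ∧
      (∑ k, ((Q k : List V) : Multiset V) = Ω.val) ∧
      (∀ i, (Q i).length ≤ Lc + B + B * (q * (6 * k + 3))) ∧
      ∀ a, (univ.filter (fun i => (β i).length = a)).card ≤
        (univ.filter (fun i => (Q i).length = a + 2)).card + q * (6 * k + 3) := by
  classical
  have H : Q9H G β isA κ pd Ω Va Vc B := ⟨hβ, hκ, hβc, hκc, q9_sum hΩ, hVa, hVc, hB⟩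
  have hok := H.ok nbA nbC
  obtain ⟨F, Tc, hst, hTc, hdef⟩ := q9_iter G h hlam0 (q9CD β isA κ pd Ω Va Vc) hok hδ hδ1 hlam
    hn hk hq _ H.st H.deficit q le_rfl
  have hdef0 : ∑ v, (q9Cap pd Ω v - (nf F v).card) = 0 := by
    have : ∑ v, ((q9CD β isA κ pd Ω Va Vc).cap v - (nf F v).card) = 0 := by omega
    exact this
  have hfull : ∀ v, (nf F v).card = q9Cap pd Ω v := by
    intro v
    have h1 := (Finset.sum_eq_zero_iff.mp hdef0) v (Finset.mem_univ v)
    have h2 : (nf F v).card ≤ q9Cap pd Ω v := hst.deg v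
    omega
  have hpΩ : ∀ x, pd x ∈ Ω := fun x => (q9_mem H.hΩ _).mpr ⟨Sum.inl x.1, Q9H.mem_pd x.1 x.2⟩
  obtain ⟨e, Q, hQ, hQs, hQc⟩ := closed_paths F (q9_acyclic hst.acy) Ω pd H.pd_inj hpΩ
    (fun x => by rw [hfull, H.cap_pd])
    (fun v hv hx => by
      rw [hfull]
      rcases H.kinds v with ⟨x, rfl⟩ | ⟨k, hk⟩ | ⟨i, hi⟩ | hv'
      · exact absurd rfl (hx x)
      · exact H.cap_β hk
      · exact H.cap_κ hi
      · exact absurd hv hv')
    (fun v hv => by rw [hfull, H.cap_out hv])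
  have hbid : ∀ k, k ∉ Tc → ∀ a b, F.Adj a b → q9Bid β pd a = some k → q9Bid β pd b = some k :=
    fun k hk => q9_bid_closed (c := q9CD β isA κ pd Ω Va Vc) hst (fun a b => H.bid_adj) hk
  have hcl : ∀ i k, k ∉ Tc → ∀ a ∈ Q i, q9Bid β pd a = some k → ∀ b ∈ Q i,
      q9Bid β pd b = some k := by
    intro i k hk a ha h1 b hb
    exact q9_closed (hbid k hk) (q9_reach (hQ i).1 ha hb) h1
  have hnd : ∀ i, (Q i).Nodup := q9_nodup hQs
  refine ⟨e, Q, ?_, hQs, ?_, ?_⟩
  · intro k
    exact ⟨(hQ k).1.imp (fun a b hab => hst.le hab), (hQ k).2⟩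
  · intro i
    rw [← List.toFinset_card_of_nodup (hnd i)]
    by_cases hA : ∃ a ∈ Q i, ∃ k, k ∉ Tc ∧ q9Bid β pd a = some k
    · obtain ⟨a, ha, k', hk', h1⟩ := hA
      have h2 : (Q i).toFinset ⊆ univ.filter (fun v => q9Bid β pd v = some k') := by
        intro b hb
        rw [List.mem_toFinset] at hb
        simpa using hcl i k' hk' a ha h1 b hb
      have h3 := Finset.card_le_card h2
      have h4 := H.size k'
      have h5 := hB k'
      omega
    · push Not at hA
      have hTB : (Tc.biUnion (fun k => univ.filter (fun v => q9Bid β pd v = some k))).card ≤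
          Tc.card * B :=
        Finset.card_biUnion_le_card_mul _ _ _ (fun k _ => by
          have h4 := H.size k
          have h5 := hB k
          omega)
      have hTB' : Tc.card * B ≤ B * (q * (6 * k + 3)) := by
        rw [mul_comm]
        exact Nat.mul_le_mul_left _ hTc
      by_cases hC : ∃ a ∈ Q i, q9Bid β pd a = none
      · obtain ⟨a, ha, h1⟩ := hC
        have haΩ : ∀ b ∈ Q i, b ∈ Ω := fun b hb => (q9_mem hQs b).mpr ⟨i, hb⟩
        obtain ⟨i₀, hi₀⟩ := H.core_of_none (haΩ a ha) h1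
        obtain ⟨Ω', hΩ'⟩ := H.core_sum
        have hcr : ∀ j, ∀ x ∈ κ j, ∀ y ∈ κ j, F.Reachable x y := fun j x hx y hy =>
          ((lgr_card κ Ω' hΩ').2.2.2 j x hx y hy).mono hst.core
        have hmk : ∀ j m, (κ j).head? = some m → m ∈ (q9CD β isA κ pd Ω Va Vc).Mk := by
          intro j m hm
          simp only [q9CD, Finset.mem_filter, Finset.mem_univ, true_and]
          exact ⟨j, hm⟩
        have h2 : (Q i).toFinset ⊆ (κ i₀).toFinset ∪
            Tc.biUnion (fun k => univ.filter (fun v => q9Bid β pd v = some k)) := by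
          intro b hb
          rw [List.mem_toFinset] at hb
          rw [Finset.mem_union]
          by_cases hbn : q9Bid β pd b = none
          · left
            obtain ⟨i₁, hi₁⟩ := H.core_of_none (haΩ b hb) hbn
            obtain ⟨m₀, hm₀⟩ : ∃ m, (κ i₀).head? = some m :=
              Option.ne_none_iff_exists'.mp (by simpa using hκ i₀)
            obtain ⟨m₁, hm₁⟩ : ∃ m, (κ i₁).head? = some m :=
              Option.ne_none_iff_exists'.mp (by simpa using hκ i₁)
            have hr : F.Reachable m₀ m₁ :=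
              ((hcr i₀ m₀ (List.mem_of_mem_head? hm₀) a hi₀).trans
                (q9_reach (hQ i).1 ha hb)).trans
                (hcr i₁ b hi₁ m₁ (List.mem_of_mem_head? hm₁))
            have hm := q9_marks hst.acy (hmk i₀ m₀ hm₀) (hmk i₁ m₁ hm₁) hr
            rw [← hm] at hm₁
            have := H.cc (List.mem_of_mem_head? hm₀) (List.mem_of_mem_head? hm₁)
            rw [this, List.mem_toFinset]
            exact hi₁
          · right
            obtain ⟨k', hk'⟩ := Option.ne_none_iff_exists'.mp hbn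
            rw [Finset.mem_biUnion]
            refine ⟨k', ?_, by simpa using hk'⟩
            by_contra hcon
            exact hA b hb k' hcon hk'
        have h3 := Finset.card_le_card h2
        have h4 := Finset.card_union_le (κ i₀).toFinset
          (Tc.biUnion (fun k => univ.filter (fun v => q9Bid β pd v = some k)))
        have h5 := List.toFinset_card_le (κ i₀)
        have h6 := hLc i₀
        omega
      · push Not at hC
        have h2 : (Q i).toFinset ⊆
            Tc.biUnion (fun k => univ.filter (fun v => q9Bid β pd v = some k)) := by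
          intro b hb
          rw [List.mem_toFinset] at hb
          obtain ⟨k', hk'⟩ := Option.ne_none_iff_exists'.mp (hC b hb)
          rw [Finset.mem_biUnion]
          refine ⟨k', ?_, by simpa using hk'⟩
          by_contra hcon
          exact hA b hb k' hcon hk'
        have h3 := Finset.card_le_card h2
        omega
  · intro a
    have hex : ∀ k : Fin M, ∃ v i, v ∈ β k ∧ v ∈ Q i := by
      intro k
      obtain ⟨v, hv⟩ := List.exists_mem_of_ne_nil _ (hβ k)
      have h1 : v ∈ Ω := (q9_mem H.hΩ v).mpr ⟨Sum.inl k, mem_q9B.mpr (Or.inr (Or.inl hv))⟩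
      obtain ⟨i, hi⟩ := (q9_mem hQs v).mp h1
      exact ⟨v, i, hv, hi⟩
    choose v ix hv hix using hex
    have hbv : ∀ k, q9Bid β pd (v k) = some k := fun k =>
      H.bid_some.mpr (mem_q9B.mpr (Or.inr (Or.inl (hv k))))
    have hlen : ∀ k, k ∉ Tc → (Q (ix k)).length = (β k).length + 2 := by
      intro k' hk'
      rw [← List.toFinset_card_of_nodup (hnd (ix k')), ← H.size k']
      congr 1
      ext u
      simp only [List.mem_toFinset, Finset.mem_filter, Finset.mem_univ, true_and]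
      constructor
      · intro hu
        exact hcl (ix k') k' hk' (v k') (hix k') (hbv k') u hu
      · intro hu
        have hr : (lgr (q9P β κ pd)).Reachable (v k') u :=
          (lgr_card (q9P β κ pd) Ω H.hΩ).2.2.2 (Sum.inl k') (v k')
            (H.bid_some.mp (hbv k')) u (H.bid_some.mp hu)
        have := q9_closed (F := lgr (q9P β κ pd))
          (p := fun x => x ∈ Q (ix k') ∧ q9Bid β pd x = some k') ?_ hr ⟨hix k', hbv k'⟩
        · exact this.1
        · rintro x y hxy ⟨hx1, hx2⟩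
          have h1 : nf F x = nf (lgr (q9P β κ pd)) x := hst.unt x k' hx2 hk'
          have h2 : F.Adj x y := by
            rw [← mem_nf, h1, mem_nf]
            exact hxy
          exact ⟨hQc _ x hx1 y h2, hbid k' hk' x y h2 hx2⟩
    have h1 : univ.filter (fun i => (β i).length = a) ⊆
        (univ.filter (fun i => i ∉ Tc ∧ (β i).length = a)) ∪ Tc := by
      intro i hi
      simp only [Finset.mem_filter, Finset.mem_univ, true_and, Finset.mem_union] at hi ⊢
      by_cases h : i ∈ Tc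
      · exact Or.inr h
      · exact Or.inl ⟨h, hi⟩
    have h2 : (univ.filter (fun i => i ∉ Tc ∧ (β i).length = a)).card ≤
        (univ.filter (fun i => (Q i).length = a + 2)).card := by
      refine Finset.card_le_card_of_injOn ix ?_ ?_
      · intro i hi
        simp only [Finset.coe_filter, Finset.mem_univ, true_and, Set.mem_ofPred_eq] at hi ⊢
        rw [hlen i hi.1, hi.2]
      · intro i hi i' hi' hii
        simp only [Finset.coe_filter, Finset.mem_univ, true_and, Set.mem_ofPred_eq] at hi hi'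
        have h3 := hcl (ix i) i hi.1 (v i) (hix i) (hbv i) (v i') (by rw [hii]; exact hix i')
        rw [hbv i'] at h3
        exact (Option.some.inj h3).symm
    have h3 := Finset.card_le_card h1
    have h4 := Finset.card_union_le (univ.filter (fun i => i ∉ Tc ∧ (β i).length = a)) Tc
    omega

end

end Pool.Agent.HDS
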