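import Pool.Agent.HDS.Defs
import Pool.Agent.HD.NetAlg

/-!
# Row W1 (Theorem HDS): permutation network + links between the paired out-ports = pairing network
-/

set_option autoImplicit false

namespace Pool.Agent.HDS

open Finset Pool.Agent.HD

theorem pnet_of_net {V κ₀ : Type} [Fintype κ₀] [DecidableEq κ₀] {adj : V → V → Prop}
    (hsymm : ∀ u v, adj u v → adj v u) {SN SO S : Finset V} {I O : κ₀ × Bool → V} {n q : ℕ}
    (hN : Net adj SN I O n)
    (hL : Links adj SO (fun k => O (k, true)) (fun k => O (k, false)) (fun _ => q))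
    (hS : SN.val + SO.val = S.val) : PNet adj S I (2 * n + q) := by
  classical
  intro κ _ e
  have hc : Fintype.card κ = Fintype.card κ₀ := by
    have h1 := Fintype.card_congr e
    rw [Fintype.card_prod, Fintype.card_prod, Fintype.card_bool] at h1
    omega
  obtain ⟨f⟩ : Nonempty (κ ≃ κ₀) := ⟨Fintype.equivOfCardEq hc⟩
  obtain ⟨P, p1, p2, p3, p4, p5⟩ := hN (e.symm.trans (f.prodCongr (Equiv.refl Bool)))
  obtain ⟨J, j1, j2, j3⟩ := hL
  have hσ : ∀ k b, (e.symm.trans (f.prodCongr (Equiv.refl Bool))) (e (k, b)) = (f k, b) := by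
    intro k b
    simp
  refine ⟨fun k => P (e (k, true)) ++ (J (f k) ++ (P (e (k, false))).reverse), ?_, ?_, ?_, ?_, ?_⟩
  · intro k
    have h1 := p3 (e (k, true))
    have h2 := p3 (e (k, false))
    simp only [hσ] at h1 h2
    refine chain_join (p1 _) h1 (j1 (f k)) ?_ ?_
    · rw [List.isChain_reverse]
      exact (p1 _).imp fun a b h => hsymm a b h
    · rw [List.head?_reverse]
      exact h2
  · intro k
    exact head_join (p2 _)
  · intro k
    apply last_join
    apply last_join
    rw [List.getLast?_reverse]
    exact p2 _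
  · intro k
    rw [List.length_append, List.length_append, List.length_reverse, p4, p4, j2]
    ring
  · have h1 : ∀ k, ((P (e (k, true)) ++ (J (f k) ++ (P (e (k, false))).reverse) : List V) :
        Multiset V) = ∑ b : Bool, ((P (e (k, b)) : List V) : Multiset V) +
          ((J (f k) : List V) : Multiset V) := by
      intro k
      rw [Fintype.sum_bool, ← Multiset.coe_add, ← Multiset.coe_add, Multiset.coe_reverse]
      abel
    rw [Finset.sum_congr rfl fun k _ => h1 k, Finset.sum_add_distrib]
    have h2 : ∑ k, ∑ b : Bool, ((P (e (k, b)) : List V) : Multiset V) = SN.val := by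
      rw [← p5, ← Fintype.sum_prod_type' (f := fun k b => ((P (e (k, b)) : List V) : Multiset V))]
      exact Equiv.sum_comp e fun x => ((P x : List V) : Multiset V)
    have h3 : ∑ k, ((J (f k) : List V) : Multiset V) = SO.val := by
      rw [← j3]
      exact Equiv.sum_comp f fun x => ((J x : List V) : Multiset V)
    rw [h2, h3, hS]

theorem PNet.reindex {V ι ι' : Type} {adj : V → V → Prop} {S : Finset V} {I : ι → V} {n : ℕ}
    (h : PNet adj S I n) (e : ι' ≃ ι) : PNet adj S (I ∘ e) n := by
  intro κ _ e'
  exact h κ (e'.trans e)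

end Pool.Agent.HDS
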