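import Pool.Agent.HDS.Defs
import Pool.Agent.HDS.PNet
import Pool.Agent.HD.Multi
import Pool.Agent.HD.NetBuild
import Pool.Agent.HD.Reserve

/-!
# Row W2 (Theorem HDS): everything that is built inside the reserve
-/

set_option autoImplicit false

namespace Pool.Agent.HDS

open Finset Pool.Agent.HD

theorem w2_count_sum {α β V : Type} [Fintype α] [Fintype β] [DecidableEq V] (f : α → V)
    (g : β → V) (v : V) :
    (univ.filter (fun i : α ⊕ β => Sum.elim f g i = v)).card =
      (univ.filter (fun i => f i = v)).card + (univ.filter (fun i => g i = v)).card := by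
  rw [Finset.card_filter, Finset.card_filter, Finset.card_filter, Fintype.sum_sum_type]
  rfl

theorem w2_count_inj {α V : Type} [Fintype α] [DecidableEq V] {g : α → V}
    (hg : Function.Injective g) (v : V) : (univ.filter (fun i => g i = v)).card ≤ 1 := by
  rw [Finset.card_le_one]
  intro a ha b hb
  rw [Finset.mem_filter] at ha hb
  exact hg (ha.2.trans hb.2.symm)

theorem w2_count_zero {α V : Type} [Fintype α] [DecidableEq V] {g : α → V} {v : V}
    (hg : ∀ x, g x ≠ v) : (univ.filter (fun i => g i = v)).card = 0 := by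
  rw [Finset.card_eq_zero, Finset.filter_eq_empty_iff]
  exact fun x _ => hg x

theorem w2_count_two {α V : Type} [Fintype α] [DecidableEq V] [DecidableEq α] (en : α × Bool → V)
    (hei : ∀ k b k' b', en (k, b) = en (k', b') → k = k') (v : V) :
    (univ.filter (fun i => en i = v)).card ≤ 2 := by
  by_cases h : ∃ x, en x = v
  · obtain ⟨⟨k, b⟩, hk⟩ := h
    have h1 : univ.filter (fun i => en i = v) ⊆ {(k, true), (k, false)} := by
      rintro ⟨k', b'⟩ h2
      rw [Finset.mem_filter] at h2
      have h3 : k' = k := hei k' b' k b (h2.2.trans hk.symm)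
      subst h3
      rw [Finset.mem_insert, Finset.mem_singleton]
      cases b'
      · exact Or.inr rfl
      · exact Or.inl rfl
    exact (Finset.card_le_card h1).trans Finset.card_le_two
  · push Not at h
    rw [w2_count_zero h]
    omega

theorem hds_reserve {V : Type} [Fintype V] [DecidableEq V] {G : SimpleGraph V} {W : Finset V}
    {m hh K : ℕ} (hc : FPCtx G W m hh K)
    (hs : FPState G W m (univ \ W) (fun x => if x ∈ W then 2 else 3))
    (κn : ℕ) (hκn : 1 ≤ κn) {ρ : Type} [Fintype ρ] [DecidableEq ρ] (M Δ : ℕ)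
    (hcard : 2 * M + 2 * Δ + 2 * Fintype.card ρ = 2 ^ κn) (Z : Finset V)
    (hZ : Z.card = znet κn) (hZW : Disjoint Z W) (en : Fin M × Bool → V) (leaf : ρ × Bool → V)
    (hen : ∀ x, en x ∉ W ∧ en x ∉ Z) (hlf : ∀ y, leaf y ∉ W ∧ leaf y ∉ Z)
    (hei : ∀ k b k' b', en (k, b) = en (k', b') → k = k')
    (hli : Function.Injective leaf) (hel : ∀ x y, en x ≠ leaf y) (q j : ℕ)
    (hq : 2 * hh + 2 ≤ q) (hj : hh + 1 ≤ j)
    (hcap : wnet j q κn + (2 * M + Δ + 2 * Fintype.card ρ + 2 ^ κn) * q + 2 ^ (hh + 2) ≤ K) :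
    ∃ (SN S₁ S₂ S₃ : Finset V) (I : ((Fin M ⊕ Fin Δ) × Bool) ⊕ (ρ × Bool) → V),
      SN.val + S₁.val + S₂.val + S₃.val ≤ Z.val + W.val ∧ Z ⊆ SN ∧
      PNet G.Adj SN I (2 * nnet j q κn + q) ∧
      Links G.Adj S₁ en (fun x => I (Sum.inl (Sum.inl x.1, x.2))) (fun _ => q) ∧
      Links G.Adj S₂ (fun x => I (Sum.inl (Sum.inr x, true)))
        (fun x => I (Sum.inl (Sum.inr x, false))) (fun _ => q) ∧
      Links G.Adj S₃ leaf (fun y => I (Sum.inr y)) (fun _ => q) := by
  classical
  have hcκ : Fintype.card ((Fin M ⊕ Fin Δ) ⊕ ρ) = M + Δ + Fintype.card ρ := by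
    simp
  have hcι : Fintype.card (((Fin M ⊕ Fin Δ) ⊕ ρ) × Bool) = 2 ^ κn := by
    rw [Fintype.card_prod, hcκ, Fintype.card_bool]
    omega
  have hU0W : (univ \ W) ∩ W = ∅ := Finset.sdiff_inter_self W univ
  have hmemU0 : ∀ v, v ∉ W → v ∈ univ \ W := fun v hv => by
    rw [Finset.mem_sdiff]
    exact ⟨mem_univ _, hv⟩
  obtain ⟨I, O, SN, r', hSN, hSNc, hNet, hI, hO, hIO, hIm, hOm, hIr, hOr, hr', hst⟩ :=
    FPState.build_net hc hq hj κn hκn hcι hs Z hZ
      (fun z hz => hmemU0 z (Finset.disjoint_left.1 hZW hz))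
      (fun z hz => by
        show (if z ∈ W then 2 else 3) = 3
        rw [if_neg (Finset.disjoint_left.1 hZW hz)])
      (by rw [hU0W, Finset.card_empty]; omega)
  have hSNW : SN ⊆ W := by
    intro v hv
    by_contra hvW
    exact Finset.disjoint_left.1 hSN hv (hmemU0 v hvW)
  have hout : ∀ v, v ∉ W → v ∉ Z → v ∉ Z ∪ SN := by
    intro v h1 h2 h3
    rcases Finset.mem_union.1 h3 with h | h
    · exact h2 h
    · exact h1 (hSNW h)
  -- the common value function
  let E : ((((Fin M ⊕ Fin Δ) ⊕ ρ) × Bool) ⊕ (((Fin M ⊕ Fin Δ) ⊕ ρ) × Bool)) ⊕ (ρ × Bool) → V :=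
    Sum.elim (Sum.elim I O) leaf
  have hEinj : Function.Injective E := by
    rintro ((x | x) | x) ((y | y) | y) h
    · exact congrArg _ (congrArg _ (hI h))
    · exact absurd h (hIO x y)
    · exfalso
      have h' : I x = leaf y := h
      exact hout _ (hlf y).1 (hlf y).2 (h' ▸ hIm x)
    · exact absurd h.symm (hIO y x)
    · exact congrArg _ (congrArg _ (hO h))
    · exfalso
      have h' : O x = leaf y := h
      exact hout _ (hlf y).1 (hlf y).2 (h' ▸ hOm x)
    · exfalso
      have h' : I y = leaf x := Eq.symm h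
      exact hout _ (hlf x).1 (hlf x).2 (h' ▸ hIm y)
    · exfalso
      have h' : O y = leaf x := Eq.symm h
      exact hout _ (hlf x).1 (hlf x).2 (h' ▸ hOm y)
    · exact congrArg _ (hli h)
  -- sources and targets of the links
  let A' : (Fin Δ ⊕ ((Fin M ⊕ Fin Δ) ⊕ ρ)) ⊕ (ρ × Bool) → V :=
    Sum.elim (Sum.elim (fun x => I (Sum.inl (Sum.inr x), true)) (fun k => O (k, true))) leaf
  let A : (Fin M × Bool) ⊕ ((Fin Δ ⊕ ((Fin M ⊕ Fin Δ) ⊕ ρ)) ⊕ (ρ × Bool)) → V := Sum.elim en A'
  let B : (Fin M × Bool) ⊕ ((Fin Δ ⊕ ((Fin M ⊕ Fin Δ) ⊕ ρ)) ⊕ (ρ × Bool)) → V :=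
    Sum.elim (fun x => I (Sum.inl (Sum.inl x.1), x.2))
      (Sum.elim (Sum.elim (fun x => I (Sum.inl (Sum.inr x), false)) (fun k => O (k, false)))
        (fun y => I (Sum.inr y.1, y.2)))
  let ca : (Fin Δ ⊕ ((Fin M ⊕ Fin Δ) ⊕ ρ)) ⊕ (ρ × Bool) →
      ((((Fin M ⊕ Fin Δ) ⊕ ρ) × Bool) ⊕ (((Fin M ⊕ Fin Δ) ⊕ ρ) × Bool)) ⊕ (ρ × Bool) :=
    Sum.elim (Sum.elim (fun x => Sum.inl (Sum.inl (Sum.inl (Sum.inr x), true)))
      (fun k => Sum.inl (Sum.inr (k, true)))) Sum.inr
  let cb : (Fin M × Bool) ⊕ ((Fin Δ ⊕ ((Fin M ⊕ Fin Δ) ⊕ ρ)) ⊕ (ρ × Bool)) →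
      ((((Fin M ⊕ Fin Δ) ⊕ ρ) × Bool) ⊕ (((Fin M ⊕ Fin Δ) ⊕ ρ) × Bool)) ⊕ (ρ × Bool) :=
    Sum.elim (fun x => Sum.inl (Sum.inl (Sum.inl (Sum.inl x.1), x.2)))
      (Sum.elim (Sum.elim (fun x => Sum.inl (Sum.inl (Sum.inl (Sum.inr x), false)))
        (fun k => Sum.inl (Sum.inr (k, false)))) (fun y => Sum.inl (Sum.inl (Sum.inr y.1, y.2))))
  have hcode : Function.Injective (Sum.elim ca cb) := by
    rintro (((x | x) | x) | (x | ((x | x) | x))) (((y | y) | y) | (y | ((y | y) | y))) h
    all_goals simp only [Sum.elim_inl, Sum.elim_inr, ca, cb, Sum.inl.injEq, Sum.inr.injEq,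
      Prod.mk.injEq, reduceCtorEq, and_true, and_false, false_and] at h
    all_goals first
      | (rw [h])
      | (obtain ⟨h1, h2⟩ := h; rw [Prod.ext h1 h2])
  have hA' : ∀ x, A' x = E (ca x) := by
    rintro ((x | x) | x) <;> rfl
  have hB : ∀ x, B x = E (cb x) := by
    rintro (x | ((x | x) | x)) <;> rfl
  have hinj : Function.Injective (Sum.elim A' B) := by
    have h1 : Sum.elim A' B = E ∘ (Sum.elim ca cb) := by
      funext x
      rcases x with x | x
      · exact hA' x
      · exact hB x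
    rw [h1]
    exact hEinj.comp hcode
  -- values are used, demands are positive
  have hval : ∀ z, E z ∈ (univ \ W) ∪ SN ∧ 1 ≤ r' (E z) := by
    rintro ((z | z) | z)
    · refine ⟨?_, hIr z⟩
      show I z ∈ _
      rcases Finset.mem_union.1 (hIm z) with h | h
      · exact Finset.mem_union_left _ (hmemU0 _ (Finset.disjoint_left.1 hZW h))
      · exact Finset.mem_union_right _ h
    · refine ⟨?_, hOr z⟩
      show O z ∈ _
      rcases Finset.mem_union.1 (hOm z) with h | h
      · exact Finset.mem_union_left _ (hmemU0 _ (Finset.disjoint_left.1 hZW h))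
      · exact Finset.mem_union_right _ h
    · refine ⟨Finset.mem_union_left _ (hmemU0 _ (hlf z).1), ?_⟩
      show 1 ≤ r' (leaf z)
      rw [hr' (leaf z) (hout _ (hlf z).1 (hlf z).2)]
      simp only [if_neg (hlf z).1]
      omega
  have henE : ∀ x z, en x ≠ E z := by
    rintro x ((z | z) | z) h
    · exact hout _ (hen x).1 (hen x).2 (by rw [h]; exact hIm z)
    · exact hout _ (hen x).1 (hen x).2 (by rw [h]; exact hOm z)
    · exact hel x z h
  have hren : ∀ x, r' (en x) = 3 := by
    intro x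
    rw [hr' (en x) (hout _ (hen x).1 (hen x).2)]
    simp only [if_neg (hen x).1]
  obtain ⟨S, hSd, hSc, hSL, -⟩ := FPState.multi_link hc hst A B (fun _ => q)
    (fun _ => hq)
    (by
      have h1 : (((univ \ W) ∪ SN) ∩ W).card ≤ SN.card := by
        apply Finset.card_le_card
        intro v hv
        rw [Finset.mem_inter, Finset.mem_union, Finset.mem_sdiff] at hv
        rcases hv.1 with h | h
        · exact absurd hv.2 h.2
        · exact h
      have h2 : Fintype.card ((Fin M × Bool) ⊕ ((Fin Δ ⊕ ((Fin M ⊕ Fin Δ) ⊕ ρ)) ⊕ (ρ × Bool))) ≤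
          2 * M + Δ + 2 * Fintype.card ρ + 2 ^ κn := by
        simp only [Fintype.card_sum, Fintype.card_prod, Fintype.card_fin, Fintype.card_bool]
        omega
      rw [Finset.sum_const, Finset.card_univ, smul_eq_mul]
      have h3 := Nat.mul_le_mul_right q h2
      omega)
    (by
      rintro (x | x)
      · exact Finset.mem_union_left _ (hmemU0 _ (hen x).1)
      · show A' x ∈ _
        rw [hA' x]; exact (hval _).1)
    (fun x => by rw [hB x]; exact (hval _).1)
    (by
      rintro (x | x) h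
      · have h' : en x = B (Sum.inl x) := h
        rw [hB] at h'
        exact henE x _ h'
      · have h' : A' x = B (Sum.inr x) := h
        have h1 := @hinj (Sum.inl x) (Sum.inr (Sum.inr x)) h'
        exact absurd h1 (by simp))
    (fun v => by
      have h1 : (univ.filter (fun i => A i = v)).card =
          (univ.filter (fun i => en i = v)).card + (univ.filter (fun i => A' i = v)).card :=
        w2_count_sum en A' v
      have h2 : (univ.filter (fun i => Sum.elim A' B i = v)).card =
          (univ.filter (fun i => A' i = v)).card + (univ.filter (fun i => B i = v)).card :=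
        w2_count_sum A' B v
      rw [h1, add_assoc, ← h2]
      by_cases hv1 : ∃ x, en x = v
      · obtain ⟨x, rfl⟩ := hv1
        have h3 : (univ.filter (fun i => Sum.elim A' B i = en x)).card = 0 := by
          apply w2_count_zero
          rintro (y | y) h4
          · have h5 : A' y = en x := h4
            rw [hA'] at h5
            exact henE x _ h5.symm
          · have h5 : B y = en x := h4
            rw [hB] at h5
            exact henE x _ h5.symm
        have h4 := w2_count_two en hei (en x)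
        rw [h3, hren x]
        omega
      · push Not at hv1
        rw [w2_count_zero hv1, zero_add]
        by_cases hv2 : ∃ x, Sum.elim A' B x = v
        · obtain ⟨x, rfl⟩ := hv2
          refine (w2_count_inj hinj _).trans ?_
          rcases x with x | x
          · show 1 ≤ r' (A' x)
            rw [hA']; exact (hval _).2
          · show 1 ≤ r' (B x)
            rw [hB]; exact (hval _).2
        · push Not at hv2
          rw [w2_count_zero hv2]
          exact Nat.zero_le _)
  -- split the links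
  have hSL1 : Links G.Adj S (Sum.elim en A')
      (Sum.elim (fun x => I (Sum.inl (Sum.inl x.1), x.2))
        (Sum.elim (Sum.elim (fun x => I (Sum.inl (Sum.inr x), false)) (fun k => O (k, false)))
          (fun y => I (Sum.inr y.1, y.2)))) (Sum.elim (fun _ => q) (fun _ => q)) := by
    have e : (Sum.elim (fun _ => q) (fun _ => q) :
        (Fin M × Bool) ⊕ ((Fin Δ ⊕ ((Fin M ⊕ Fin Δ) ⊕ ρ)) ⊕ (ρ × Bool)) → ℕ) = fun _ => q := by
      funext x
      rcases x with x | x <;> rfl
    rw [e]
    exact hSL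
  obtain ⟨S1, S', h1, hL1, hL'⟩ := Links.sum_split hSL1
  have hSL2 : Links G.Adj S' (Sum.elim (Sum.elim (fun x => I (Sum.inl (Sum.inr x), true))
        (fun k => O (k, true))) leaf)
      (Sum.elim (Sum.elim (fun x => I (Sum.inl (Sum.inr x), false)) (fun k => O (k, false)))
          (fun y => I (Sum.inr y.1, y.2))) (Sum.elim (fun _ => q) (fun _ => q)) := by
    have e : (Sum.elim (fun _ => q) (fun _ => q) :
        (Fin Δ ⊕ ((Fin M ⊕ Fin Δ) ⊕ ρ)) ⊕ (ρ × Bool) → ℕ) = fun _ => q := by
      funext x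
      rcases x with x | x <;> rfl
    rw [e]
    exact hL'
  obtain ⟨S'', S3, h2, hL'', hL3⟩ := Links.sum_split hSL2
  have hSL3 : Links G.Adj S'' (Sum.elim (fun x => I (Sum.inl (Sum.inr x), true))
        (fun k => O (k, true)))
      (Sum.elim (fun x => I (Sum.inl (Sum.inr x), false)) (fun k => O (k, false)))
      (Sum.elim (fun _ => q) (fun _ => q)) := by
    have e : (Sum.elim (fun _ => q) (fun _ => q) :
        Fin Δ ⊕ ((Fin M ⊕ Fin Δ) ⊕ ρ) → ℕ) = fun _ => q := by
      funext x
      rcases x with x | x <;> rfl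
    rw [e]
    exact hL''
  obtain ⟨S2, SO, h3, hL2, hLO⟩ := Links.sum_split hSL3
  -- the pairing network
  have hdZ : Disjoint Z SN := by
    rw [Finset.disjoint_left]
    intro v hv hv'
    exact Finset.disjoint_left.1 hZW hv (hSNW hv')
  have hdis : Disjoint SN S := by
    rw [Finset.disjoint_left]
    intro v hv hv'
    exact Finset.disjoint_left.1 hSd hv' (Finset.mem_union_right _ hv)
  have hSNS : SN.val + S.val ≤ W.val := by
    have h3 : SN.val + S.val = (SN.disjUnion S hdis).val := rfl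
    rw [h3, Finset.val_le_iff]
    intro v hv
    rw [Finset.mem_disjUnion] at hv
    rcases hv with hv | hv
    · exact hSNW hv
    · by_contra hvW
      exact Finset.disjoint_left.1 hSd hv (Finset.mem_union_left _ (hmemU0 v hvW))
  have hSO : ∀ v ∈ SO, v ∈ S := by
    intro v hv
    have e1 : v ∈ S''.val := by
      rw [← h3]; exact Multiset.mem_add.2 (Or.inr hv)
    have e2 : v ∈ S'.val := by
      rw [← h2]; exact Multiset.mem_add.2 (Or.inl e1)
    have e3 : v ∈ S.val := by
      rw [← h1]; exact Multiset.mem_add.2 (Or.inr e2)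
    exact e3
  have hdO : Disjoint (Z ∪ SN) SO := by
    rw [Finset.disjoint_left]
    intro v hv hv'
    have h4 := hSO v hv'
    rcases Finset.mem_union.1 hv with h | h
    · exact Finset.disjoint_left.1 hSd h4
        (Finset.mem_union_left _ (hmemU0 _ (Finset.disjoint_left.1 hZW h)))
    · exact Finset.disjoint_left.1 hdis h h4
  have hv1 : ((Z ∪ SN) ∪ SO).val = Z.val + SN.val + SO.val := by
    rw [nb_union_val hdO, nb_union_val hdZ]
  have hP := pnet_of_net (S := (Z ∪ SN) ∪ SO) (fun u v h => SimpleGraph.Adj.symm h) hNet hLO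
    (by rw [hv1, nb_union_val hdZ])
  refine ⟨(Z ∪ SN) ∪ SO, S1, S2, S3,
    I ∘ (Equiv.sumProdDistrib (Fin M ⊕ Fin Δ) ρ Bool).symm, ?_, ?_,
    hP.reindex (Equiv.sumProdDistrib (Fin M ⊕ Fin Δ) ρ Bool).symm, hL1, hL2, hL3⟩
  · rw [hv1]
    have h4 : Z.val + SN.val + SO.val + S1.val + S2.val + S3.val =
        Z.val + (SN.val + (S1.val + ((S2.val + SO.val) + S3.val))) := by abel
    rw [h4, h3, h2, h1]
    exact add_le_add_right hSNS _
  · intro v hv
    exact Finset.mem_union_left _ (Finset.mem_union_left _ hv)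

end Pool.Agent.HDS
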