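import Pool.Agent.HDS.ParamsDef
import Pool.Agent.HDS.Expand
import Pool.Agent.HDS.ClosingPhase
import Pool.Agent.HDS.Reserve
import Pool.Agent.HDS.Chain
import Pool.Agent.HDS.Balance
import Pool.Agent.HDS.Chunk
import Pool.Agent.Bulk.Main
import Pool.Agent.HD.Core
import Pool.Agent.HD.ParamsDisc
import Pool.Agent.HDL.LocalPart

/-!
MP_134267_co, Theorem HDS (low degree range): the assembly (helper25).
-/

set_option autoImplicit false

namespace Pool.Agent.HDS

open Finset Pool.Agent.HD

/-- two families of links -/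
theorem core_sum_join {V ι κ : Type} [Fintype ι] [Fintype κ] {adj : V → V → Prop}
    {S₁ S₂ S : Finset V} {a b : ι → V} {a' b' : κ → V} {q : ι → ℕ} {q' : κ → ℕ}
    (h₁ : Links adj S₁ a b q) (h₂ : Links adj S₂ a' b' q') (hS : S₁.val + S₂.val = S.val) :
    Links adj S (Sum.elim a a') (Sum.elim b b') (Sum.elim q q') := by
  obtain ⟨I₁, c₁, l₁, s₁⟩ := h₁
  obtain ⟨I₂, c₂, l₂, s₂⟩ := h₂
  refine ⟨Sum.elim I₁ I₂, ?_, ?_, ?_⟩
  · rintro (x | x)
    · exact c₁ x
    · exact c₂ x
  · rintro (x | x)
    · exact l₁ x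
    · exact l₂ x
  · rw [Fintype.sum_sum_type]
    simp only [Sum.elim_inl, Sum.elim_inr]
    rw [s₁, s₂, hS]

/-- reversing a chain of a symmetric relation -/
theorem core_rev {V : Type} {adj : V → V → Prop} (hsymm : ∀ u v, adj u v → adj v u) {l : List V}
    (h : l.IsChain adj) : l.reverse.IsChain adj := by
  rw [List.isChain_reverse]
  exact h.imp (fun a b hab => hsymm _ _ hab)

/-- the items: link tail, path, link tail -/
theorem core_comps {V : Type} {adj : V → V → Prop} (hsymm : ∀ u v, adj u v → adj v u) {M : ℕ}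
    (en port pd : Fin M × Bool → V) (tl : Fin M × Bool → List V) (q : ℕ)
    (hI : ∀ x, (en x :: (pd x :: tl x ++ [port x])).IsChain adj)
    (hlen : ∀ x, (tl x).length = q) (e : Fin M × Bool ≃ Fin M × Bool) (Q : Fin M → List V)
    (hQ : ∀ k, (Q k).IsChain adj ∧ (Q k).head? = some (pd (e (k, true))) ∧
        (Q k).getLast? = some (pd (e (k, false))))
    {Ω T S : Finset V} (hΩ : ∑ k, ((Q k : List V) : Multiset V) = Ω.val)
    (hT : ∑ x, ((tl x : List V) : Multiset V) = T.val) (hS : Ω.val + T.val = S.val) :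
    Links adj S (fun k => port (e (k, true))) (fun k => port (e (k, false)))
      (fun k => (Q k).length + 2 * q) := by
  refine ⟨fun k => (tl (e (k, true))).reverse ++ (Q k ++ tl (e (k, false))), ?_, ?_, ?_⟩
  · intro k
    obtain ⟨h1, h2, h3⟩ := hQ k
    set x := e (k, true) with hx
    set x' := e (k, false) with hx'
    have a1 : (pd x :: (tl x ++ [port x])).IsChain adj := (hI x).tail
    have a2 : (pd x' :: (tl x' ++ [port x'])).IsChain adj := (hI x').tail
    obtain ⟨Q', hQ'⟩ : ∃ Q', Q k = pd x :: Q' := by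
      cases hq : Q k with
      | nil => rw [hq] at h2; simp at h2
      | cons y Q' => rw [hq] at h2; simp at h2; exact ⟨Q', by rw [h2]⟩
    obtain ⟨Q'', hQ''⟩ : ∃ Q'', Q k = Q'' ++ [pd x'] := by
      rcases List.eq_nil_or_concat (Q k) with hq | ⟨L, b, hq⟩
      · rw [hq] at h3; simp at h3
      · rw [hq] at h3; simp at h3; exact ⟨L, by rw [hq, h3]; simp⟩
    -- left part
    have b1 : (port x :: ((tl x).reverse ++ [pd x])).IsChain adj := by
      have := core_rev hsymm a1
      simpa using this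
    have b2 : (port x :: ((tl x).reverse ++ Q k)).IsChain adj := by
      rw [hQ'] at h1 ⊢
      have e1 : port x :: ((tl x).reverse ++ pd x :: Q') =
          (port x :: (tl x).reverse) ++ (pd x :: Q') := by simp
      have e2 : port x :: ((tl x).reverse ++ [pd x]) =
          (port x :: (tl x).reverse) ++ [pd x] := by simp
      rw [e2] at b1
      rw [e1]
      rw [List.isChain_append] at b1 ⊢
      refine ⟨b1.1, h1, ?_⟩
      intro u hu v hv
      simp only [List.head?_cons, Option.mem_def, Option.some.injEq] at hv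
      exact b1.2.2 u hu v (by simpa using hv)
    have e3 : port x :: ((tl x).reverse ++ (Q k ++ tl x') ++ [port x']) =
        (port x :: ((tl x).reverse ++ Q'')) ++ (pd x' :: (tl x' ++ [port x'])) := by
      rw [hQ'']; simp
    have e4 : port x :: ((tl x).reverse ++ Q k) = (port x :: ((tl x).reverse ++ Q'')) ++ [pd x'] := by
      rw [hQ'']; simp
    rw [e4] at b2
    rw [e3]
    rw [List.isChain_append] at b2 ⊢
    refine ⟨b2.1, a2, ?_⟩
    intro u hu v hv
    simp only [List.head?_cons, Option.mem_def, Option.some.injEq] at hv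
    exact b2.2.2 u hu v (by simpa using hv)
  · intro k
    simp only [List.length_append, List.length_reverse, hlen]
    ring
  · rw [← hS, ← hΩ, ← hT]
    have : ∀ k, (((tl (e (k, true))).reverse ++ (Q k ++ tl (e (k, false))) : List V) : Multiset V) =
        ((Q k : List V) : Multiset V) + (((tl (e (k, true)) : List V) : Multiset V) +
          ((tl (e (k, false)) : List V) : Multiset V)) := by
      intro k
      rw [← Multiset.coe_add, ← Multiset.coe_add, Multiset.coe_reverse]
      abel
    rw [Finset.sum_congr rfl (fun k _ => this k), Finset.sum_add_distrib]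
    congr 1
    rw [← Equiv.sum_comp e, Fintype.sum_prod_type]
    refine Finset.sum_congr rfl (fun k _ => ?_)
    rw [Fintype.sum_bool]


/-- path cover of a set of vertices with many neighbours in the set -/
theorem core_cover {V : Type} [Fintype V] [DecidableEq V] (G : SimpleGraph V)
    [DecidableRel G.Adj] {d : ℕ} {lam : ℝ} (h : IsNDL G d lam)
    {t κn m hh K sp p₀ m₁ D₁ K₁ s₁ Lc k Wm : ℕ}
    (hp : ParamsS (Fintype.card V) d t lam κn m hh K sp p₀ m₁ D₁ K₁ s₁ Lc k Wm) (R : Finset V)
    (hR : ∀ v ∈ R, d ≤ 10 * (nb G R v).card) :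
    ∃ (p : ℕ) (P : Fin p → List V), p ≤ p₀ ∧ (∀ i, P i ≠ []) ∧
      (∀ i, (P i).IsChain G.Adj) ∧ ∑ i, ((P i : List V) : Multiset V) = R.val := by
  classical
  have hRn : R.card ≤ Fintype.card V := card_le_univ R
  refine Pool.Agent.Bulk.bulk_set G R m₁ D₁ d K₁ s₁ p₀ hp.hD₁ ?_ ?_ ?_ ?_ hp.hK₁ ?_
  · intro X hX hXm
    rcases X.eq_empty_or_nonempty with rfl | hne
    · simp
    have hδ : ∀ v ∈ R, (d + 9) / 10 ≤ (nb G R v).card := by
      intro v hv
      have := hR v hv
      omega
    have e1 := expand G h hp.lam0 R R ((d + 9) / 10) D₁ hδ (by omega)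
      (by have := hp.hD₁; omega) (by
        have e2 := hp.hlamD
        have e3 : (d : ℝ) ≤ 10 * (((d + 9) / 10 : ℕ) : ℝ) := by
          have : d ≤ 10 * ((d + 9) / 10) := by omega
          exact_mod_cast this
        have e4 : (0 : ℝ) < (((d + 9) / 10 : ℕ) : ℝ) := by
          have : 0 < (d + 9) / 10 := by
            have := hp.hd
            omega
          exact_mod_cast this
        nlinarith) X hX hne
    have e5 : D₁ * X.card ≤ Fintype.card V / 80 := by
      have e6 := hp.hm₁
      have e7 : D₁ * X.card ≤ D₁ * m₁ := Nat.mul_le_mul_left _ hXm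
      omega
    rw [min_eq_right e5] at e1
    refine e1.trans (card_le_card ?_)
    intro v hv
    rw [mem_biUnion] at hv
    obtain ⟨x, hx, hv⟩ := hv
    rw [mem_nb] at hv
    rw [mem_inter, mem_biUnion]
    exact ⟨⟨x, hx, by rw [SimpleGraph.mem_neighborFinset]; exact hv.2⟩, hv.1⟩
  · intro X _ Y _ hX hY _
    exact join_sets G h hp.lam0 X Y m₁ hp.hjoin hX hY
  · intro v _
    exact (h.reg v).le
  · exact (Nat.mul_le_mul_left _ hRn).trans hp.hs₁
  · exact (Nat.mul_le_mul_right _ (Nat.mul_le_mul_left _ hRn)).trans hp.hI₁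

/-- `Links` with an interior of at least one vertex: the first vertex and the rest -/
theorem core_pads {V ι : Type} [Fintype ι] {adj : V → V → Prop} {S : Finset V} {a b : ι → V}
    {q : ℕ} (h : Links adj S a b (fun _ => q + 1)) :
    ∃ (pd : ι → V) (tl : ι → List V), (∀ x, (a x :: (pd x :: tl x ++ [b x])).IsChain adj) ∧
      (∀ x, (tl x).length = q) ∧
      ∑ x, ({pd x} : Multiset V) + ∑ x, ((tl x : List V) : Multiset V) = S.val := by
  obtain ⟨I, c, l, s⟩ := h
  have hI : ∀ x, ∃ (p : V) (t : List V), I x = p :: t := by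
    intro x
    cases hx : I x with
    | nil =>
      have := l x
      rw [hx] at this
      simp at this
    | cons p t => exact ⟨p, t, rfl⟩
  choose pd tl hpt using hI
  refine ⟨pd, tl, ?_, ?_, ?_⟩
  · intro x
    have := c x
    rw [hpt x] at this
    exact this
  · intro x
    have := l x
    rw [hpt x] at this
    simpa using this
  · rw [← s, ← Finset.sum_add_distrib]
    refine Finset.sum_congr rfl (fun x _ => ?_)
    rw [hpt x]
    rfl

/-- blocks of the two classes together -/
theorem core_append {V : Type} {Ma Mc : ℕ} (βa : Fin Ma → List V) (βc : Fin Mc → List V) :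
    ∃ (M : ℕ) (β : Fin M → List V) (isA : Fin M → Prop), M = Ma + Mc ∧
      (∀ k, isA k → ∃ i, β k = βa i) ∧ (∀ k, ¬ isA k → ∃ i, β k = βc i) ∧
      (∀ i, ∃ k, isA k ∧ β k = βa i) ∧ (∀ i, ∃ k, ¬ isA k ∧ β k = βc i) ∧
      (∑ k, ((β k : List V) : Multiset V) =
        ∑ i, ((βa i : List V) : Multiset V) + ∑ i, ((βc i : List V) : Multiset V)) ∧
      (∀ a, (univ.filter (fun i => (βa i).length = a)).card ≤
        (univ.filter (fun k => (β k).length = a)).card) ∧
      (∀ a, (univ.filter (fun i => (βc i).length = a)).card ≤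
        (univ.filter (fun k => (β k).length = a)).card) := by
  classical
  refine ⟨Ma + Mc, Fin.append βa βc, fun k => k.val < Ma, rfl, ?_, ?_, ?_, ?_, ?_, ?_, ?_⟩
  · intro k
    refine Fin.addCases (fun i => ?_) (fun i => ?_) k
    · intro _
      exact ⟨i, Fin.append_left _ _ i⟩
    · intro hk
      exfalso
      simp at hk
  · intro k
    refine Fin.addCases (fun i => ?_) (fun i => ?_) k
    · intro hk
      exfalso
      apply hk
      simp
    · intro _
      exact ⟨i, Fin.append_right _ _ i⟩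
  · intro i
    exact ⟨Fin.castAdd Mc i, by simp, Fin.append_left _ _ i⟩
  · intro i
    exact ⟨Fin.natAdd Ma i, by simp, Fin.append_right _ _ i⟩
  · rw [Fin.sum_univ_add]
    simp only [Fin.append_left, Fin.append_right]
  · intro a
    refine card_le_card_of_injOn (Fin.castAdd Mc) ?_ ((Fin.castAdd_injective Ma Mc).injOn)
    intro i hi
    simp only [coe_filter, mem_univ, true_and, Set.mem_ofPred_eq] at hi ⊢
    rw [Fin.append_left]
    exact hi
  · intro a
    refine card_le_card_of_injOn (Fin.natAdd Ma) ?_ ((Fin.natAdd_injective Mc Ma).injOn)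
    intro i hi
    simp only [coe_filter, mem_univ, true_and, Set.mem_ofPred_eq] at hi ⊢
    rw [Fin.append_right]
    exact hi

/-- elements of disjoint lists -/
theorem core_disj {V ι : Type} [Fintype ι] [DecidableEq ι] {β : ι → List V} {S : Finset V}
    (h : ∑ k, ((β k : List V) : Multiset V) = S.val) :
    (∀ k v, v ∈ β k → v ∈ S) ∧ (∀ v ∈ S, ∃ k, v ∈ β k) ∧
    ∀ k k' v, v ∈ β k → v ∈ β k' → k = k' := by
  classical
  refine ⟨?_, ?_, ?_⟩
  · intro k v hv
    rw [← mem_val, ← h, Multiset.mem_sum]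
    exact ⟨k, mem_univ _, by simpa using hv⟩
  · intro v hv
    rw [← mem_val, ← h, Multiset.mem_sum] at hv
    obtain ⟨k, _, hk⟩ := hv
    exact ⟨k, by simpa using hk⟩
  · intro k k' v hk hk'
    by_contra hne
    have e1 : (S.val).count v ≤ 1 := Multiset.nodup_iff_count_le_one.1 S.nodup v
    rw [← h, Multiset.count_sum'] at e1
    have e2 : ∑ i ∈ ({k, k'} : Finset ι), Multiset.count v ((β i : List V) : Multiset V) ≤
        ∑ i, Multiset.count v ((β i : List V) : Multiset V) :=
      sum_le_sum_of_subset (subset_univ _)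
    rw [sum_pair hne] at e2
    have e3 : 0 < Multiset.count v ((β k : List V) : Multiset V) :=
      Multiset.count_pos.2 (by simpa using hk)
    have e4 : 0 < Multiset.count v ((β k' : List V) : Multiset V) :=
      Multiset.count_pos.2 (by simpa using hk')
    omega


/-- the assembly of the low degree case -/
theorem core {V : Type} [Fintype V] [DecidableEq V] (G : SimpleGraph V) [DecidableRel G.Adj]
    {d : ℕ} {lam : ℝ} (h : IsNDL G d lam)
    {t κn m hh K sp p₀ m₁ D₁ K₁ s₁ Lc k Wm : ℕ}
    (hp : ParamsS (Fintype.card V) d t lam κn m hh K sp p₀ m₁ D₁ K₁ s₁ Lc k Wm) :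
    HasSubdivision G t := by
  classical
  set n := Fintype.card V with hn
  set q := 2 * hh + 1 with hq
  set nn := nline hh κn with hnn
  have hsymm : ∀ u v, G.Adj u v → G.Adj v u := fun u v h => h.symm
  have hd1 : 1 ≤ d := by
    have := hp.hd
    omega
  -- step 1: five classes
  obtain ⟨f, hf1, hf2⟩ := Pool.Agent.HDL.local_partition' G h.reg 5 (by norm_num) hd1 (by
    have := hp.hlp
    norm_num
    exact this)
  set cls : Fin 5 → Finset V := fun i => univ.filter (fun v => f v = i) with hcls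
  have hclsdeg : ∀ i v, d ≤ 10 * (G.neighborFinset v ∩ cls i).card := by
    intro i v
    have e1 := (hf1 v i).1
    refine e1.trans (Nat.mul_le_mul (by norm_num) (card_le_card ?_))
    intro u hu
    rw [mem_filter] at hu
    rw [mem_inter]
    exact ⟨hu.1, mem_filter.2 ⟨mem_univ _, hu.2⟩⟩
  have hclsn : ∀ i, n ≤ 10 * (cls i).card := fun i => (hf2 i).1
  have hclsnb : ∀ i v (R : Finset V), cls i ⊆ R → d ≤ 10 * (nb G R v).card := by
    intro i v R hR
    refine (hclsdeg i v).trans (Nat.mul_le_mul_left _ (card_le_card ?_))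
    intro u hu
    rw [mem_inter, SimpleGraph.mem_neighborFinset] at hu
    rw [mem_nb]
    exact ⟨hR hu.2, hu.1⟩
  have hclsdisj : ∀ i j, i ≠ j → ∀ v, v ∈ cls i → v ∉ cls j := by
    intro i j hij v hi hj
    rw [mem_filter] at hi hj
    exact hij (hi.2.symm.trans hj.2)
  have hclsD : ∀ i j, i ≠ j → Disjoint (cls i) (cls j) := fun i j hij =>
    disjoint_left.2 (hclsdisj i j hij)
  -- step 2: blocks
  obtain ⟨pa, Pa, hpa, hPa1, hPa2, hPa3⟩ := core_cover G h hp (cls 1)
    (fun v _ => hclsnb 1 v _ (Subset.refl _))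
  obtain ⟨pc, Pc, hpc, hPc1, hPc2, hPc3⟩ := core_cover G h hp (cls 2)
    (fun v _ => hclsnb 2 v _ (Subset.refl _))
  obtain ⟨Ma, βa, hβa1, hβa2, hβa3, hβa4⟩ := chunk sp hp.hsp Pa hPa1 hPa2 (cls 1) hPa3
  obtain ⟨Mc, βc, hβc1, hβc2, hβc3, hβc4⟩ := chunk (sp + 1) (by omega) Pc hPc1 hPc2 (cls 2) hPc3
  obtain ⟨M, β, isA, hM, b1, b2, b3, b4, b5, b6, b7⟩ := core_append βa βc
  have hβne : ∀ k, β k ≠ [] := by
    intro k
    by_cases hk : isA k
    · obtain ⟨i, hi⟩ := b1 k hk
      rw [hi]
      exact (hβa1 i).1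
    · obtain ⟨i, hi⟩ := b2 k hk
      rw [hi]
      exact (hβc1 i).1
  have hβch : ∀ k, (β k).IsChain G.Adj := by
    intro k
    by_cases hk : isA k
    · obtain ⟨i, hi⟩ := b1 k hk
      rw [hi]
      exact (hβa1 i).2.1
    · obtain ⟨i, hi⟩ := b2 k hk
      rw [hi]
      exact (hβc1 i).2.1
  have hβlen : ∀ k, (β k).length + 2 ≤ sp + 3 := by
    intro k
    by_cases hk : isA k
    · obtain ⟨i, hi⟩ := b1 k hk
      rw [hi]
      have := (hβa1 i).2.2
      omega
    · obtain ⟨i, hi⟩ := b2 k hk
      rw [hi]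
      have := (hβc1 i).2.2
      omega
  have hβsum : ∑ k, ((β k : List V) : Multiset V) = (cls 1 ∪ cls 2).val := by
    rw [b5, hβa2, hβc2, union_val_of_disjoint (hclsD 1 2 (by decide))]
  obtain ⟨hβm, hβs, hβd⟩ := core_disj hβsum
  have hVa : ∀ v, v ∈ cls 1 ↔ ∃ k, isA k ∧ v ∈ β k := by
    intro v
    constructor
    · intro hv
      obtain ⟨i, hi⟩ := (core_disj hβa2).2.1 v hv
      obtain ⟨k, hk1, hk2⟩ := b3 i
      exact ⟨k, hk1, by rw [hk2]; exact hi⟩
    · rintro ⟨k, hk1, hk2⟩
      obtain ⟨i, hi⟩ := b1 k hk1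
      rw [hi] at hk2
      exact (core_disj hβa2).1 i v hk2
  have hVc : ∀ v, v ∈ cls 2 ↔ ∃ k, ¬ isA k ∧ v ∈ β k := by
    intro v
    constructor
    · intro hv
      obtain ⟨i, hi⟩ := (core_disj hβc2).2.1 v hv
      obtain ⟨k, hk1, hk2⟩ := b4 i
      exact ⟨k, hk1, by rw [hk2]; exact hi⟩
    · rintro ⟨k, hk1, hk2⟩
      obtain ⟨i, hi⟩ := b2 k hk1
      rw [hi] at hk2
      exact (core_disj hβc2).1 i v hk2
  have hMn : M ≤ n / sp + 2 * p₀ := by
    have e1 : (cls 1).card + (cls 2).card ≤ n := by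
      rw [← card_union_of_disjoint (hclsD 1 2 (by decide))]
      exact card_le_univ _
    have e2 : sp * Ma ≤ (cls 1).card + sp * p₀ := hβa3.trans (by gcongr)
    have e3 : (sp + 1) * Mc ≤ (cls 2).card + (sp + 1) * p₀ := hβc3.trans (by gcongr)
    have e4 : M - 2 * p₀ ≤ n / sp := by
      rw [Nat.le_div_iff_mul_le (by have := hp.hsp; omega)]
      rcases le_total Mc p₀ with hc | hc
      · have e5 : M - 2 * p₀ ≤ Ma - p₀ := by omega
        calc (M - 2 * p₀) * sp ≤ (Ma - p₀) * sp := Nat.mul_le_mul_right _ e5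
          _ = sp * Ma - sp * p₀ := by rw [Nat.sub_mul, mul_comm Ma, mul_comm p₀]
          _ ≤ n := by omega
      · have e6 : sp * (Mc - p₀) ≤ (cls 2).card := by
          have e7 : (sp + 1) * (Mc - p₀) ≤ (cls 2).card := by
            rw [Nat.mul_sub]
            omega
          exact (Nat.mul_le_mul_right _ (Nat.le_succ sp)).trans e7
        have e8 : sp * (Ma - p₀) ≤ (cls 1).card := by
          rw [Nat.mul_sub]
          omega
        have e9 : M - 2 * p₀ ≤ (Ma - p₀) + (Mc - p₀) := by omega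
        calc (M - 2 * p₀) * sp ≤ ((Ma - p₀) + (Mc - p₀)) * sp := Nat.mul_le_mul_right _ e9
          _ = sp * (Ma - p₀) + sp * (Mc - p₀) := by ring
          _ ≤ n := by omega
    omega
  -- step 3: stars
  obtain ⟨x, y, hxyinj, hx0, hy0, hxy⟩ := stars G d h.reg (cls 0) (hclsdeg 0) t hp.hst (by
    have e1 := hp.hst2
    have e2 := hclsn 0
    omega)
  have hxinj : Function.Injective x := fun a b hab =>
    Sum.inl_injective (hxyinj (by simpa using hab))
  have hyinj : Function.Injective y := fun a b hab =>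
    Sum.inr_injective (hxyinj (by simpa using hab))
  have hxy' : ∀ i p, x i ≠ y p := by
    intro i p hip
    have := hxyinj (a₁ := Sum.inl i) (a₂ := Sum.inr p) (by simpa using hip)
    exact absurd this (by simp)
  set leaf : Pr t × Bool → V := fun p => if p.2 then y (p.1.1.1, p.1.1.2) else
    y (p.1.1.2, p.1.1.1) with hleaf
  have hleaf0 : ∀ p, ∃ p', leaf p = y p' := by
    rintro ⟨p, c⟩
    cases c
    · exact ⟨_, rfl⟩
    · exact ⟨_, rfl⟩
  have hleafinj : Function.Injective leaf := by
    rintro ⟨a, ca⟩ ⟨b, cb⟩ hab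
    have ha := a.2
    have hb := b.2
    cases ca <;> cases cb <;> simp only [hleaf, if_true, Bool.false_eq_true, if_false] at hab
    · have := hyinj hab
      rw [Prod.mk.injEq] at this
      have e : a = b := Subtype.ext (Prod.ext this.2 this.1)
      rw [e]
    · have := hyinj hab
      rw [Prod.mk.injEq] at this
      rw [this.1, this.2] at ha
      exact absurd ha (not_lt.2 hb.le)
    · have := hyinj hab
      rw [Prod.mk.injEq] at this
      rw [this.1, this.2] at ha
      exact absurd ha (not_lt.2 hb.le)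
    · have := hyinj hab
      rw [Prod.mk.injEq] at this
      have e : a = b := Subtype.ext (Prod.ext this.1 this.2)
      rw [e]
  -- step 4: seeds
  obtain ⟨Z, hZsub, hZc⟩ : ∃ Z : Finset V, Z ⊆ cls 0 \ (univ.image x ∪ univ.image y) ∧
      Z.card = znet κn := by
    apply exists_subset_card_eq
    have e1 : (univ.image x ∪ univ.image y).card ≤ t + t ^ 2 := by
      refine (card_union_le _ _).trans ?_
      refine add_le_add (card_image_le.trans ?_) (card_image_le.trans ?_)
      · rw [card_univ, Fintype.card_fin]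
      · rw [card_univ, Fintype.card_prod, Fintype.card_fin, sq]
    have e2 := le_card_sdiff (univ.image x ∪ univ.image y) (cls 0)
    have e3 := hclsn 0
    have e4 := hp.hseed
    omega
  have hZ0 : ∀ z ∈ Z, z ∈ cls 0 := fun z hz => (mem_sdiff.1 (hZsub hz)).1
  have hZx : ∀ z ∈ Z, ∀ i, x i ≠ z := by
    intro z hz i hi
    exact (mem_sdiff.1 (hZsub hz)).2 (mem_union_left _ (hi ▸ mem_image_of_mem x (mem_univ i)))
  have hZy : ∀ z ∈ Z, ∀ p, y p ≠ z := by
    intro z hz i hi
    exact (mem_sdiff.1 (hZsub hz)).2 (mem_union_right _ (hi ▸ mem_image_of_mem y (mem_univ i)))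
  have hZW : Disjoint Z (cls 4) := by
    rw [disjoint_left]
    intro z hz
    exact hclsdisj 0 4 (by decide) _ (hZ0 z hz)
  -- step 5: the Friedman-Pippenger context
  obtain ⟨hc, hs⟩ := fp_init G h hd1 hp.lam0 (by
    have := hp.hlam
    have := hp.lam0
    linarith) (cls 4) (hclsdeg 4) (hclsn 4) m hh K hp.hm2 hp.hm3 hp.hmh hp.hK hp.hm1
  -- step 6: the reserve
  have hρ : Fintype.card (Pr t) ≤ t ^ 2 := by
    refine (Fintype.card_subtype_le _).trans ?_
    rw [Fintype.card_prod, Fintype.card_fin, sq]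
  obtain ⟨Δ, hΔ⟩ : ∃ Δ, 2 * M + 2 * Δ + 2 * Fintype.card (Pr t) = 2 ^ κn := by
    have e1 := hp.hports
    obtain ⟨κ', rfl⟩ : ∃ κ', κn = κ' + 1 := ⟨κn - 1, by have := hp.hκn; omega⟩
    refine ⟨2 ^ κ' - M - Fintype.card (Pr t), ?_⟩
    have e2 : 2 * M + 2 * Fintype.card (Pr t) ≤ 2 ^ (κ' + 1) :=
      (add_le_add (Nat.mul_le_mul_left 2 hMn) (Nat.mul_le_mul_left 2 hρ)).trans e1
    rw [pow_succ] at e2 ⊢
    omega
  set en : Fin M × Bool → V := fun p => if p.2 then (β p.1).head (hβne p.1) else
    (β p.1).getLast (hβne p.1) with hen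
  have hen1 : ∀ p, en p ∈ β p.1 := by
    rintro ⟨p, c⟩
    cases c
    · exact List.getLast_mem (hβne p)
    · exact List.head_mem (hβne p)
  have hen2 : ∀ p, en p ∈ cls 1 ∨ en p ∈ cls 2 := fun p =>
    mem_union.1 (hβm p.1 _ (hen1 p))
  have hen3 : ∀ j, j ≠ 1 → j ≠ 2 → ∀ p, en p ∉ cls j := by
    intro j hj1 hj2 p
    rcases hen2 p with hc | hc
    · exact hclsdisj 1 j (Ne.symm hj1) _ hc
    · exact hclsdisj 2 j (Ne.symm hj2) _ hc
  obtain ⟨SN, S₁, S₂, S₃, I, hSW, hZSN, hNet, hL1, hL2, hL3⟩ :=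
    hds_reserve hc hs κn hp.hκn (ρ := Pr t) M Δ hΔ Z hZc hZW en leaf
      (fun p => ⟨hen3 4 (by decide) (by decide) p,
        fun hz => hen3 0 (by decide) (by decide) p (hZ0 _ hz)⟩)
      (by
        intro p
        obtain ⟨p', hp'⟩ := hleaf0 p
        rw [hp']
        exact ⟨hclsdisj 0 4 (by decide) _ (hy0 p'), fun hz => hZy _ hz _ rfl⟩)
      (by
        intro k b k' b' hkk
        exact hβd k k' (en (k, b)) (hen1 (k, b)) (by rw [hkk]; exact hen1 (k', b')))
      hleafinj
      (by
        intro p p' hpp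
        obtain ⟨p'', hp''⟩ := hleaf0 p'
        apply hen3 0 (by decide) (by decide) p
        rw [hpp, hp'']
        exact hy0 _)
      (2 * hh + 2) (hh + 1) le_rfl le_rfl (by
        have e1 := hp.hcap
        have e2 : 2 * M + Δ + 2 * Fintype.card (Pr t) + 2 ^ κn ≤ 2 * 2 ^ κn := by omega
        have e3 := Nat.mul_le_mul_right (2 * hh + 2) e2
        omega)
  -- pads
  obtain ⟨pd, tl, hpd1, hpd2, hpd3⟩ := core_pads (q := q) hL1
  -- step 7: the rest
  have hall : (cls 0).val + (cls 4).val + ((cls 1).val + (cls 2).val) + (cls 3).val ≤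
      (univ : Finset V).val := by
    rw [← union_val_of_disjoint (hclsD 0 4 (by decide)),
      ← union_val_of_disjoint (hclsD 1 2 (by decide)), ← union_val_of_disjoint,
      ← union_val_of_disjoint, val_le_iff]
    · exact subset_univ _
    · rw [disjoint_union_left, disjoint_union_left, disjoint_union_left]
      exact ⟨⟨hclsD 0 3 (by decide), hclsD 4 3 (by decide)⟩,
        ⟨hclsD 1 3 (by decide), hclsD 2 3 (by decide)⟩⟩
    · rw [disjoint_union_left, disjoint_union_right, disjoint_union_right]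
      exact ⟨⟨hclsD 0 1 (by decide), hclsD 0 2 (by decide)⟩,
        ⟨hclsD 4 1 (by decide), hclsD 4 2 (by decide)⟩⟩
  set mL : Multiset V := ∑ p, ({leaf p} : Multiset V) with hmL
  set mX : Multiset V := ∑ i, ({x i} : Multiset V) with hmX
  have h0 : mX + mL + Z.val ≤ (cls 0).val := by
    have e1 : mX + mL + Z.val = (univ.image x ∪ univ.image leaf ∪ Z).val := by
      rw [union_val_of_disjoint, union_val_of_disjoint]
      · rw [hmX, hmL, layers_sum_singleton, layers_sum_singleton,
          image_val_of_injOn hxinj.injOn, image_val_of_injOn hleafinj.injOn]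
      · rw [disjoint_left]
        intro v hv hv'
        obtain ⟨a, -, rfl⟩ := mem_image.1 hv
        obtain ⟨b, -, hb⟩ := mem_image.1 hv'
        obtain ⟨p', hp'⟩ := hleaf0 b
        exact hxy' a p' (by rw [← hb, hp'])
      · rw [disjoint_left]
        intro v hv hv'
        rcases mem_union.1 hv with hv | hv
        · obtain ⟨a, -, rfl⟩ := mem_image.1 hv
          exact hZx _ hv' a rfl
        · obtain ⟨a, -, rfl⟩ := mem_image.1 hv
          obtain ⟨p', hp'⟩ := hleaf0 a
          exact hZy _ hv' p' hp'.symm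
    rw [e1, val_le_iff]
    intro v hv
    rcases mem_union.1 hv with hv | hv
    · rcases mem_union.1 hv with hv | hv
      · obtain ⟨a, -, rfl⟩ := mem_image.1 hv
        exact hx0 a
      · obtain ⟨a, -, rfl⟩ := mem_image.1 hv
        obtain ⟨p', hp'⟩ := hleaf0 a
        rw [hp']
        exact hy0 p'
    · exact hZ0 v hv
  set mU : Multiset V := mX + mL + (SN.val + S₁.val + S₂.val + S₃.val) +
    ((cls 1).val + (cls 2).val) with hmU
  have hU3 : mU + (cls 3).val ≤ (univ : Finset V).val := by
    refine le_trans ?_ hall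
    rw [hmU]
    refine add_le_add (add_le_add ?_ le_rfl) le_rfl
    calc mX + mL + (SN.val + S₁.val + S₂.val + S₃.val) ≤ mX + mL + (Z.val + (cls 4).val) :=
          add_le_add le_rfl hSW
      _ = (mX + mL + Z.val) + (cls 4).val := by rw [add_assoc (mX + mL)]
      _ ≤ (cls 0).val + (cls 4).val := add_le_add h0 le_rfl
  obtain ⟨R, hR⟩ : ∃ R : Finset V, mU + R.val = (univ : Finset V).val := by
    have e1 : mU ≤ (univ : Finset V).val := (Multiset.le_add_right _ _).trans hU3
    refine ⟨⟨(univ : Finset V).val - mU,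
      Multiset.nodup_of_le tsub_le_self (univ : Finset V).nodup⟩, ?_⟩
    exact add_tsub_cancel_of_le e1
  have hR3 : cls 3 ⊆ R := by
    rw [← val_le_iff]
    rw [← hR] at hU3
    exact (add_le_add_iff_left _).1 hU3
  -- step 8: cores
  obtain ⟨pr, Prr, hpr, hPr1, hPr2, hPr3⟩ := core_cover G h hp R (fun v _ => hclsnb 3 v _ hR3)
  obtain ⟨qc, κ, hκ1, hκ2, hκ3, -⟩ := chunk Lc hp.hLc Prr hPr1 hPr2 R hPr3
  have hqc : qc ≤ n / Lc + p₀ := by
    have e1 : Lc * qc ≤ n + Lc * p₀ := hκ3.trans (add_le_add (card_le_univ _) (by gcongr))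
    have e2 : qc - p₀ ≤ n / Lc := by
      rw [Nat.le_div_iff_mul_le (by have := hp.hLc; omega)]
      calc (qc - p₀) * Lc = Lc * qc - Lc * p₀ := by rw [Nat.sub_mul, mul_comm qc, mul_comm p₀]
        _ ≤ n := by omega
    omega
  -- step 9: closing phase
  set mP : Multiset V := ∑ p, ({pd p} : Multiset V) with hmP
  set mT : Multiset V := ∑ p, ((tl p : List V) : Multiset V) with hmT
  have hfin : ∀ s : Multiset V, s ≤ (univ : Finset V).val → ∃ S : Finset V, S.val = s := by
    intro s hs
    exact ⟨⟨s, Multiset.nodup_of_le hs (univ : Finset V).nodup⟩, rfl⟩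
  obtain ⟨Ω, hΩ⟩ := hfin ((cls 1).val + (cls 2).val + R.val + mP) (by
    rw [← hR, hmU, ← hpd3]
    have e2 : mX + mL + (SN.val + (mP + mT) + S₂.val + S₃.val) +
        ((cls 1).val + (cls 2).val) + R.val = ((cls 1).val + (cls 2).val + R.val + mP) +
          (mX + mL + SN.val + mT + S₂.val + S₃.val) := by abel
    rw [e2]
    exact Multiset.le_add_right _ _)
  obtain ⟨T, hT⟩ := hfin mT (by
    rw [← hR, hmU, ← hpd3]
    have e2 : mX + mL + (SN.val + (mP + mT) + S₂.val + S₃.val) +
        ((cls 1).val + (cls 2).val) + R.val = mT + ((cls 1).val + (cls 2).val + R.val + mP +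
          (mX + mL + SN.val + S₂.val + S₃.val)) := by abel
    rw [e2]
    exact Multiset.le_add_right _ _)
  set δ := (d + 9) / 10 with hδ
  have hδd : d ≤ 10 * δ := by omega
  have hδ' : (d : ℝ) ≤ 10 * (δ : ℝ) := by exact_mod_cast hδd
  have hδnb : ∀ i v, δ ≤ (nb G (cls i) v).card := by
    intro i v
    have := hclsnb i v _ (Subset.refl (cls i))
    omega
  have hpdch : ∀ k, (pd (k, true) :: (β k ++ [pd (k, false)])).IsChain G.Adj := by
    intro k
    have e1 := hpd1 (k, true)
    have e2 := hpd1 (k, false)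
    obtain ⟨l1, hl1⟩ : ∃ l1, β k = en (k, true) :: l1 := by
      refine ⟨(β k).tail, ?_⟩
      have : en (k, true) = (β k).head (hβne k) := by simp [hen]
      rw [this, List.cons_head_tail]
    obtain ⟨l2, hl2⟩ : ∃ l2, β k = l2 ++ [en (k, false)] := by
      refine ⟨(β k).dropLast, ?_⟩
      have : en (k, false) = (β k).getLast (hβne k) := by simp [hen]
      rw [this, List.dropLast_append_getLast]
    have f1 : G.Adj (pd (k, true)) (en (k, true)) := by
      have : G.Adj (en (k, true)) (pd (k, true)) := by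
        have e3 : (en (k, true) :: pd (k, true) :: (tl (k, true) ++ [I (Sum.inl (Sum.inl (k, true).1, (k, true).2))])).IsChain G.Adj := e1
        exact (List.isChain_cons_cons.1 e3).1
      exact this.symm
    have f2 : G.Adj (en (k, false)) (pd (k, false)) := by
      have e3 : (en (k, false) :: pd (k, false) :: (tl (k, false) ++ [I (Sum.inl (Sum.inl (k, false).1, (k, false).2))])).IsChain G.Adj := e2
      exact (List.isChain_cons_cons.1 e3).1
    have g1 : (pd (k, true) :: β k).IsChain G.Adj := by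
      have := hβch k
      rw [hl1] at this ⊢
      exact List.isChain_cons_cons.2 ⟨f1, this⟩
    have e4 : pd (k, true) :: (β k ++ [pd (k, false)]) = (pd (k, true) :: β k) ++ [pd (k, false)] := by
      simp
    rw [e4, List.isChain_append]
    refine ⟨g1, List.isChain_singleton _, ?_⟩
    intro u hu v hv
    rw [hl2] at hu
    have hu' : u = en (k, false) := by
      have e5 : pd (k, true) :: (l2 ++ [en (k, false)]) = (pd (k, true) :: l2) ++ [en (k, false)] := by
        simp
      rw [e5, List.getLast?_concat] at hu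
      simpa using hu.symm
    have hv' : v = pd (k, false) := by simpa using hv.symm
    rw [hu', hv']
    exact f2
  have hTch : qc * (6 * k + 3) ≤ ntch n p₀ Lc k := Nat.mul_le_mul_right _ hqc
  obtain ⟨e, Q, hQ1, hQ2, hQ3, hQ4⟩ := closing_phase G h hp.lam0 β isA κ pd Ω hβne
    (fun i => (hκ1 i).1) hpdch (fun i => (hκ1 i).2.1)
    (by rw [hβsum, hκ2, hΩ, union_val_of_disjoint (hclsD 1 2 (by decide))])
    (cls 1) (cls 2) hVa hVc hβlen (fun i => (hκ1 i).2.2) (hδnb 1) (hδnb 2) hδd
    (by have := hp.hd; omega)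
    (by
      have := hp.hlam
      linarith) hp.hn hp.hk
    (by
      refine le_trans ?_ hp.hq
      gcongr)
  -- step 10: items
  obtain ⟨SC₁, hSC₁⟩ := hfin (Ω.val + T.val) (by
    rw [hΩ, hT, ← hR, hmU, ← hpd3]
    have e2 : mX + mL + (SN.val + (mP + mT) + S₂.val + S₃.val) +
        ((cls 1).val + (cls 2).val) + R.val = ((cls 1).val + (cls 2).val + R.val + mP + mT) +
          (mX + mL + SN.val + S₂.val + S₃.val) := by abel
    rw [e2]
    exact Multiset.le_add_right _ _)
  have hC1 := core_comps hsymm en (fun p => I (Sum.inl (Sum.inl p.1, p.2))) pd tl q hpd1 hpd2 e Q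
    hQ1 hQ2 (hT.symm ▸ rfl : ∑ x, ((tl x : List V) : Multiset V) = T.val) hSC₁.symm
  obtain ⟨SC, hSC⟩ := hfin (SC₁.val + S₂.val) (by
    rw [hSC₁, hΩ, hT, ← hR, hmU, ← hpd3]
    have e2 : mX + mL + (SN.val + (mP + mT) + S₂.val + S₃.val) +
        ((cls 1).val + (cls 2).val) + R.val =
          ((cls 1).val + (cls 2).val + R.val + mP + mT + S₂.val) +
          (mX + mL + SN.val + S₃.val) := by abel
    rw [e2]
    exact Multiset.le_add_right _ _)
  have hC2 := core_sum_join hC1 hL2 hSC.symm
  -- the ports renumbered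
  set ε : ((Fin M ⊕ Fin Δ) × Bool) ⊕ (Pr t × Bool) ≃ ((Fin M ⊕ Fin Δ) × Bool) ⊕ (Pr t × Bool) :=
    Equiv.sumCongr ((Equiv.sumProdDistrib _ _ _).trans ((Equiv.sumCongr e (Equiv.refl _)).trans
      (Equiv.sumProdDistrib _ _ _).symm)) (Equiv.refl _) with hε
  have hNet' : PNet G.Adj SN (I ∘ ε) nn := hNet.reindex ε
  set len : Fin M ⊕ Fin Δ → ℕ := Sum.elim (fun k => (Q k).length + 2 * q)
    (fun _ => 2 * hh + 2) with hlen
  have hC3 : Links G.Adj SC (fun k => (I ∘ ε) (Sum.inl (k, true)))
      (fun k => (I ∘ ε) (Sum.inl (k, false))) len := by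
    have e1 : (fun k => (I ∘ ε) (Sum.inl (k, true))) =
        Sum.elim (fun k => I (Sum.inl (Sum.inl (e (k, true)).1, (e (k, true)).2)))
          (fun x => I (Sum.inl (Sum.inr x, true))) := by
      funext k
      rcases k with k | k
      · simp [hε, Equiv.sumProdDistrib, Prod.map]
      · simp [hε, Equiv.sumProdDistrib, Prod.map]
    have e2 : (fun k => (I ∘ ε) (Sum.inl (k, false))) =
        Sum.elim (fun k => I (Sum.inl (Sum.inl (e (k, false)).1, (e (k, false)).2)))
          (fun x => I (Sum.inl (Sum.inr x, false))) := by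
      funext k
      rcases k with k | k
      · simp [hε, Equiv.sumProdDistrib, Prod.map]
      · simp [hε, Equiv.sumProdDistrib, Prod.map]
    rw [e1, e2]
    exact hC2
  have hL3' : Links G.Adj S₃ leaf (fun y => (I ∘ ε) (Sum.inr y)) (fun _ => 2 * hh + 2) := by
    have e1 : (fun y => (I ∘ ε) (Sum.inr y)) = fun y => I (Sum.inr y) := by
      funext y
      simp [hε]
    rw [e1]
    exact hL3
  obtain ⟨S, hS⟩ := hfin (SN.val + SC.val + S₃.val) (by
    rw [hSC, hSC₁, hΩ, hT, ← hR, hmU, ← hpd3]
    have e2 : mX + mL + (SN.val + (mP + mT) + S₂.val + S₃.val) +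
        ((cls 1).val + (cls 2).val) + R.val =
          (SN.val + ((cls 1).val + (cls 2).val + R.val + mP + mT + S₂.val) + S₃.val) +
          (mX + mL) := by abel
    rw [e2]
    exact Multiset.le_add_right _ _)
  have hSall : mX + mL + S.val = (univ : Finset V).val := by
    rw [hS, hSC, hSC₁, hΩ, hT, ← hR, hmU, ← hpd3]
    abel
  -- step 11: numbers
  set w : Fin M ⊕ Fin Δ → ℕ := fun k => len k + nn with hw
  set r₀ := 2 * (2 * hh + 2) + nn with hr₀
  have hchain := fun φ => chain_all hsymm (I ∘ ε) len hNet' hC3 leaf hL3' hS.symm φ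
  have hρ1 : 1 ≤ Fintype.card (Pr t) := by
    have ht := hp.ht
    exact Fintype.card_pos_iff.2 ⟨⟨(⟨0, by omega⟩, ⟨1, by omega⟩), by
      rw [Fin.lt_def]; norm_num⟩⟩
  obtain ⟨N, hN1, hN2⟩ := balanced_sum hρ1 S.card
  set l := S.card / Fintype.card (Pr t) with hl
  have hScard : t + 2 * Fintype.card (Pr t) + S.card = n := by
    have e1 := congrArg Multiset.card hSall
    rw [hmX, hmL] at e1
    simp only [Multiset.card_add, Multiset.card_sum, Multiset.card_singleton, sum_const,
      smul_eq_mul, card_univ, Fintype.card_fin, card_val, mul_one, Fintype.card_prod,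
      Fintype.card_bool] at e1
    omega
  have hwsum : ∑ k, w k + Fintype.card (Pr t) * r₀ = S.card := by
    obtain ⟨φ0, -⟩ : ∃ φ0 : Fin M ⊕ Fin Δ → Pr t, True := by
      obtain ⟨r1⟩ : Nonempty (Pr t) := Fintype.card_pos_iff.1 hρ1
      exact ⟨fun _ => r1, trivial⟩
    obtain ⟨J, _, hJ2, hJ3⟩ := hchain φ0
    have e1 := congrArg Multiset.card hJ3
    rw [Multiset.card_sum] at e1
    simp only [Multiset.coe_card, card_val] at e1
    rw [Finset.sum_congr rfl (fun r _ => hJ2 r)] at e1
    have e2 : ∑ r, (2 * (2 * hh + 2) + nn + ∑ k ∈ univ.filter (fun k => φ0 k = r), (len k + nn)) =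
        Fintype.card (Pr t) * r₀ + ∑ k, w k := by
      rw [Finset.sum_add_distrib, sum_const, card_univ, smul_eq_mul]
      congr 1
      exact Finset.sum_fiberwise_of_maps_to (g := φ0) (fun k _ => mem_univ _)
        (fun k => len k + nn)
    rw [← e1, e2, add_comm]
  have hr₀l : r₀ ≤ l := by
    rw [hl, Nat.le_div_iff_mul_le hρ1]
    have e1 := hp.hl
    have e2 : r₀ * Fintype.card (Pr t) + 2 * Fintype.card (Pr t) ≤ t ^ 2 * (r₀ + 2) := by
      calc r₀ * Fintype.card (Pr t) + 2 * Fintype.card (Pr t) =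
          Fintype.card (Pr t) * (r₀ + 2) := by ring
        _ ≤ t ^ 2 * (r₀ + 2) := Nat.mul_le_mul_right _ hρ
    have e3 : t ^ 2 * (r₀ + 2) ≤ t ^ 2 * (2 * (2 * hh + 2) + nline hh κn + 3) :=
      Nat.mul_le_mul_left _ (by rw [hr₀, hnn]; omega)
    omega
  have hNr : ∀ r, r₀ ≤ N r := fun r => hr₀l.trans (hN2 r).1
  have hcntA : ∀ (b : ℕ), (univ.filter (fun i => (Q i).length = b + 2)).card ≤
      (univ.filter (fun k => w k = b + 2 + 2 * q + nn)).card := by
    intro b
    refine card_le_card_of_injOn Sum.inl ?_ (Sum.inl_injective.injOn)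
    intro i hi
    simp only [coe_filter, mem_univ, true_and, Set.mem_ofPred_eq] at hi ⊢
    rw [hw, hlen]
    simp only [Sum.elim_inl]
    rw [hi]
  have hqT : qc * (6 * k + 3) ≤ ntch n p₀ Lc k := hTch
  have hA1 : n ≤ 10 * (sp * ((univ.filter (fun k => w k = wtA sp hh κn)).card +
      ntch n p₀ Lc k + p₀)) := by
    have e1 := hclsn 1
    have e2 : (cls 1).card ≤ sp * ((univ.filter (fun i => (βa i).length = sp)).card + p₀) := by
      rw [Nat.mul_add]
      exact hβa4.trans (Nat.add_le_add_left (Nat.mul_le_mul_left _ hpa) _)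
    have e3 := (b6 sp).trans (hQ4 sp)
    have e4 := hcntA sp
    have e5 : sp + 2 + 2 * q + nn = wtA sp hh κn := by
      rw [wtA, hq, hnn]
      ring
    rw [e5] at e4
    have e6 : (univ.filter (fun i => (βa i).length = sp)).card + p₀ ≤
        (univ.filter (fun k => w k = wtA sp hh κn)).card + ntch n p₀ Lc k + p₀ := by omega
    exact e1.trans (Nat.mul_le_mul_left _ (e2.trans (Nat.mul_le_mul_left _ e6)))
  have hA2 : n ≤ 10 * ((sp + 1) * ((univ.filter (fun k => w k = wtA sp hh κn + 1)).card +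
      ntch n p₀ Lc k + p₀)) := by
    have e1 := hclsn 2
    have e2 : (cls 2).card ≤ (sp + 1) *
        ((univ.filter (fun i => (βc i).length = sp + 1)).card + p₀) := by
      rw [Nat.mul_add]
      exact hβc4.trans (Nat.add_le_add_left (Nat.mul_le_mul_left _ hpc) _)
    have e3 := (b7 (sp + 1)).trans (hQ4 (sp + 1))
    have e4 := hcntA (sp + 1)
    have e5 : sp + 1 + 2 + 2 * q + nn = wtA sp hh κn + 1 := by
      rw [wtA, hq, hnn]
      ring
    rw [e5] at e4
    have e6 : (univ.filter (fun i => (βc i).length = sp + 1)).card + p₀ ≤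
        (univ.filter (fun k => w k = wtA sp hh κn + 1)).card + ntch n p₀ Lc k + p₀ := by omega
    exact e1.trans (Nat.mul_le_mul_left _ (e2.trans (Nat.mul_le_mul_left _ e6)))
  obtain ⟨φ, hφ⟩ := balance w (wtA sp hh κn) Wm (l - r₀) (by
      rw [wtA]
      have := hp.hsp
      omega) (fun r => N r - r₀) (fun r => by
        have e1 := hN2 r
        omega)
    (by
      rw [Finset.sum_tsub_distrib _ (fun r _ => hNr r), hN1, sum_const, card_univ, smul_eq_mul]
      omega)
    (by
      rintro (j | j) _ _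
      · rw [hw, hlen]
        simp only [Sum.elim_inl]
        have e1 := hQ3 j
        have e2 := hp.hWm
        have e3 := Nat.mul_le_mul_left (sp + 3) hqT
        rw [hq, hnn]
        omega
      · rw [hw, hlen]
        simp only [Sum.elim_inr]
        have e2 := hp.hWm
        rw [hnn]
        omega)
    (by
      have e1 := hp.hb1
      have e2 : 10 * (sp * (t ^ 2 * (wtA sp hh κn + 1) + ntch n p₀ Lc k + p₀)) ≤
          10 * (sp * ((univ.filter (fun k => w k = wtA sp hh κn)).card +
            ntch n p₀ Lc k + p₀)) := by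
        refine le_trans ?_ hA1
        refine le_trans ?_ e1
        rw [← mul_assoc]
        gcongr
        omega
      have e3 := Nat.le_of_mul_le_mul_left (Nat.le_of_mul_le_mul_left e2 (by norm_num))
        (lt_of_lt_of_le Nat.zero_lt_one hp.hsp)
      have e4 := Nat.mul_le_mul_right (wtA sp hh κn + 1) hρ
      omega)
    (by
      have e1 := hp.hb1
      have e2 : 10 * ((sp + 1) * (t ^ 2 * (wtA sp hh κn + 1) + ntch n p₀ Lc k + p₀)) ≤
          10 * ((sp + 1) * ((univ.filter (fun k => w k = wtA sp hh κn + 1)).card +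
            ntch n p₀ Lc k + p₀)) := by
        refine le_trans ?_ hA2
        rw [← mul_assoc]
        exact e1
      have e3 := Nat.le_of_mul_le_mul_left (Nat.le_of_mul_le_mul_left e2 (by norm_num))
        (Nat.succ_pos sp)
      have e4 := Nat.mul_le_mul_right (wtA sp hh κn + 1) hρ
      omega)
    (by
      have e1 := hp.hb3
      set c₁ := (univ.filter (fun k => w k = wtA sp hh κn)).card with hc₁
      have e2 : n ≤ 10 * (sp * c₁ + sp * ntch n p₀ Lc k + sp * p₀) := by
        refine hA1.trans (le_of_eq ?_)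
        ring
      have e3 : t ^ 2 * (Wm + 2 + (wtA sp hh κn + 1) ^ 2) ≤ sp * c₁ := by omega
      have e4 := Nat.mul_le_mul_right (Wm + 2 + (wtA sp hh κn + 1) ^ 2) hρ
      refine e4.trans (e3.trans (Nat.mul_le_mul_right _ ?_))
      rw [wtA]
      omega) hρ1
  -- conclusion
  refine assemble G t x y hxy S l _ ?_ (hchain φ) ?_
  · intro r
    have e1 : ∑ k ∈ univ.filter (fun k => φ k = r), (len k + nn) = N r - r₀ := hφ r
    have e2 := hN2 r
    have e3 := hNr r
    rw [e1, ← hr₀]
    omega
  · rw [← hSall]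
    congr 2
    rw [hmL, Fintype.sum_prod_type]
    refine Finset.sum_congr rfl (fun r _ => ?_)
    rw [Fintype.sum_bool]
    rfl

end Pool.Agent.HDS
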