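import Pool.Agent.HDS.Defs

/-!
Row Q10 (helper1) of Theorem HDS (MP_134267_co): a forest of maximal degree two is a disjoint union
of paths. Induction on the number of edges: remove an edge, its ends are ends of two different
paths, join them.
-/

set_option autoImplicit false

namespace Pool.Agent.HDS

open Finset Pool.Agent.HD

variable {V : Type}

/-- `F` without the edge `a b` -/
def q10del (F : SimpleGraph V) (a b : V) : SimpleGraph V := F \ SimpleGraph.fromEdgeSet {s(a, b)}

theorem q10del_adj (F : SimpleGraph V) (a b x y : V) :
    (q10del F a b).Adj x y ↔ F.Adj x y ∧ s(x, y) ≠ s(a, b) := by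
  unfold q10del
  rw [SimpleGraph.sdiff_adj, SimpleGraph.fromEdgeSet_adj]
  constructor
  · rintro ⟨h1, h2⟩
    exact ⟨h1, fun h => h2 ⟨h, h1.ne⟩⟩
  · rintro ⟨h1, h2⟩
    exact ⟨h1, fun h => h2 h.1⟩

theorem q10del_le (F : SimpleGraph V) (a b : V) : q10del F a b ≤ F := by
  intro x y h
  exact ((q10del_adj F a b x y).mp h).1

theorem q10_deg [Fintype V] [DecidableEq V] (F : SimpleGraph V) {a b : V} (h : F.Adj a b) (v : V) :
    (nf F v).card = (nf (q10del F a b) v).card + ((if v = a then 1 else 0) +
      (if v = b then 1 else 0)) := by
  by_cases ha : v = a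
  · subst ha
    have hb : v ≠ b := h.ne
    have e : nf F v = insert b (nf (q10del F v b) v) := by
      ext x
      rw [mem_nf, Finset.mem_insert, mem_nf, q10del_adj]
      constructor
      · intro hx
        by_cases hxb : x = b
        · exact Or.inl hxb
        · refine Or.inr ⟨hx, fun he => ?_⟩
          rw [Sym2.eq_iff] at he
          rcases he with ⟨_, h2⟩ | ⟨h1, h2⟩
          · exact hxb h2
          · exact hb h1
      · rintro (rfl | ⟨h1, _⟩)
        · exact h
        · exact h1
    have hn : b ∉ nf (q10del F v b) v := by
      rw [mem_nf, q10del_adj]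
      rintro ⟨_, h2⟩
      exact h2 rfl
    rw [e, Finset.card_insert_of_notMem hn, if_pos rfl, if_neg hb]
  · by_cases hb : v = b
    · subst hb
      have e : nf F v = insert a (nf (q10del F a v) v) := by
        ext x
        rw [mem_nf, Finset.mem_insert, mem_nf, q10del_adj]
        constructor
        · intro hx
          by_cases hxa : x = a
          · exact Or.inl hxa
          · refine Or.inr ⟨hx, fun he => ?_⟩
            rw [Sym2.eq_iff] at he
            rcases he with ⟨h1, _⟩ | ⟨_, h2⟩
            · exact ha h1
            · exact hxa h2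
        · rintro (rfl | ⟨h1, _⟩)
          · exact h.symm
          · exact h1
      have hn : a ∉ nf (q10del F a v) v := by
        rw [mem_nf, q10del_adj]
        rintro ⟨_, h2⟩
        exact h2 Sym2.eq_swap
      rw [e, Finset.card_insert_of_notMem hn, if_neg ha, if_pos rfl]
    · have e : nf F v = nf (q10del F a b) v := by
        ext x
        rw [mem_nf, mem_nf, q10del_adj]
        constructor
        · intro hx
          refine ⟨hx, fun he => ?_⟩
          rw [Sym2.eq_iff] at he
          rcases he with ⟨h1, _⟩ | ⟨h1, _⟩
          · exact ha h1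
          · exact hb h1
        · exact fun hx => hx.1
      rw [e, if_neg ha, if_neg hb]; rfl

theorem q10_vol [Fintype V] [DecidableEq V] (F : SimpleGraph V) {a b : V} (h : F.Adj a b) :
    vol F = vol (q10del F a b) + 2 := by
  unfold vol
  rw [Finset.sum_congr rfl (fun v _ => q10_deg F h v), Finset.sum_add_distrib,
    Finset.sum_add_distrib, Finset.sum_ite_eq', Finset.sum_ite_eq']
  simp

/-- the vertices of a chain are connected -/
theorem q10_reach {F : SimpleGraph V} : ∀ {l : List V}, l.IsChain F.Adj → ∀ x ∈ l, ∀ y ∈ l,
    F.Reachable x y := by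
  intro l
  induction l with
  | nil => intro _ x hx; simp at hx
  | cons a t ih =>
    intro h
    have hat : ∀ y ∈ t, F.Reachable a y := by
      intro y hy
      cases t with
      | nil => simp at hy
      | cons b t' =>
        rw [List.isChain_cons_cons] at h
        exact (h.1.reachable).trans (ih h.2 b (by simp) y hy)
    have ht : t.IsChain F.Adj := by
      cases t with
      | nil => simp
      | cons b t' => rw [List.isChain_cons_cons] at h; exact h.2
    intro x hx y hy
    rw [List.mem_cons] at hx hy
    rcases hx with rfl | hx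
    · rcases hy with rfl | hy
      · exact SimpleGraph.Reachable.refl _
      · exact hat y hy
    · rcases hy with rfl | hy
      · exact (hat x hx).symm
      · exact ih ht x hx y hy

/-- a vertex of degree at most one is an end of its list -/
theorem q10_end [Fintype V] [DecidableEq V] {F : SimpleGraph V} {l : List V}
    (hc : l.IsChain F.Adj) (hnd : l.Nodup) {a : V} (ha : a ∈ l) (hd : (nf F a).card ≤ 1) :
    (∃ t, l = a :: t) ∨ ∃ s, l = s ++ [a] := by
  obtain ⟨s, t, rfl⟩ := List.append_of_mem ha
  rcases List.eq_nil_or_concat s with rfl | ⟨s', x, hs⟩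
  · left; exact ⟨t, by simp⟩
  · rw [List.concat_eq_append] at hs
    subst hs
    cases t with
    | nil => right; exact ⟨_, rfl⟩
    | cons y t' =>
      exfalso
      have h1 : F.Adj x a :=
        List.isChain_iff_forall_rel_of_append_cons_cons.mp hc (l₁ := s') (l₂ := y :: t') (by simp)
      have h1' : F.Adj a y :=
        List.isChain_iff_forall_rel_of_append_cons_cons.mp hc (l₁ := s' ++ [x]) (l₂ := t') rfl
      have hxy : x ≠ y := by
        rintro rfl
        rw [List.nodup_append] at hnd
        exact hnd.2.2 x (by simp) x (by simp) rfl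
      have h4 : ({x, y} : Finset V) ⊆ nf F a := by
        intro v hv
        rw [Finset.mem_insert, Finset.mem_singleton] at hv
        rw [mem_nf]
        rcases hv with rfl | rfl
        · exact h1.symm
        · exact h1'
      have h5 := Finset.card_le_card h4
      rw [Finset.card_pair hxy] at h5
      omega

/-- the conclusion for a multiset of lists -/
def Q10PC [Fintype V] (F : SimpleGraph V) (R : Finset V) (M : Multiset (List V)) : Prop :=
  (∀ l ∈ M, l ≠ [] ∧ l.IsChain F.Adj) ∧ (M.map Multiset.ofList).sum = R.val ∧
    (∀ a b, F.Adj a b → ∃ l ∈ M, [a, b] <:+: l ∨ [b, a] <:+: l) ∧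
    2 * R.card = vol F + 2 * M.card

theorem q10_rev_chain {F : SimpleGraph V} {l : List V} (h : l.IsChain F.Adj) :
    l.reverse.IsChain F.Adj := by
  rw [List.isChain_reverse]
  exact h.imp (fun _ _ hab => hab.symm)

theorem q10_infix_rev {l : List V} {x y : V} (h : [x, y] <:+: l) : [y, x] <:+: l.reverse := by
  have h1 := List.reverse_infix.mpr h
  simpa using h1

/-- orientation of a list with a given end -/
theorem q10_orient_last {F : SimpleGraph V} {l : List V} {a : V} (hc : l.IsChain F.Adj)
    (h : (∃ t, l = a :: t) ∨ ∃ s, l = s ++ [a]) :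
    ∃ s : List V, (s ++ [a]).IsChain F.Adj ∧ ((s ++ [a] : List V) : Multiset V) = (l : Multiset V) ∧
      ∀ x y, ([x, y] <:+: l ∨ [y, x] <:+: l) →
        ([x, y] <:+: (s ++ [a]) ∨ [y, x] <:+: (s ++ [a])) := by
  rcases h with ⟨t, rfl⟩ | ⟨s, rfl⟩
  · refine ⟨t.reverse, ?_, ?_, ?_⟩
    · have := q10_rev_chain hc
      simpa using this
    · rw [Multiset.coe_eq_coe]
      have : (t.reverse ++ [a]) = (a :: t).reverse := by simp
      rw [this]
      exact List.reverse_perm _
    · intro x y hxy
      have e : (t.reverse ++ [a]) = (a :: t).reverse := by simp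
      rw [e]
      rcases hxy with h | h
      · exact Or.inr (q10_infix_rev h)
      · exact Or.inl (q10_infix_rev h)
  · exact ⟨s, hc, rfl, fun x y h => h⟩

theorem q10_main [Fintype V] [DecidableEq V] (R : Finset V) : ∀ (n : ℕ) (F : SimpleGraph V),
    vol F = n → F.IsAcyclic → (∀ v, (nf F v).card ≤ 2) → (∀ a b, F.Adj a b → a ∈ R) →
    ∃ M : Multiset (List V), Q10PC F R M := by
  intro n
  induction n using Nat.strong_induction_on with
  | _ n ih =>
    intro F hn hac hF2 hR
    by_cases hE : ∃ a b, F.Adj a b
    · obtain ⟨a, b, hab⟩ := hE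
      have hvol := q10_vol F hab
      obtain ⟨M, hM1, hM2, hM3, hM4⟩ := ih (vol (q10del F a b)) (by omega) (q10del F a b) rfl
        (hac.anti (q10del_le F a b)) (fun v => by
          have := q10_deg F hab v
          have := hF2 v
          omega) (fun x y h => hR x y (q10del_le F a b h))
      have hda : (nf (q10del F a b) a).card ≤ 1 := by
        have h1 := q10_deg F hab a
        have h2 := hF2 a
        rw [if_pos rfl] at h1
        omega
      have hdb : (nf (q10del F a b) b).card ≤ 1 := by
        have h1 := q10_deg F hab b
        have h2 := hF2 b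
        rw [if_pos (rfl : b = b)] at h1
        omega
      have hnr : ¬ (q10del F a b).Reachable a b := by
        have h1 := SimpleGraph.isAcyclic_iff_forall_adj_isBridge.mp hac hab
        rw [SimpleGraph.isBridge_iff] at h1
        exact h1
      -- the list of a
      obtain ⟨la', hla, hala⟩ := (Multiset.mem_join (S := M.map Multiset.ofList)).mp
        (show a ∈ (M.map Multiset.ofList).sum by rw [hM2]; exact hR a b hab)
      obtain ⟨la, hlaM, rfl⟩ := Multiset.mem_map.mp hla
      obtain ⟨lb', hlb, hblb⟩ := (Multiset.mem_join (S := M.map Multiset.ofList)).mp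
        (show b ∈ (M.map Multiset.ofList).sum by rw [hM2]; exact hR b a hab.symm)
      obtain ⟨lb, hlbM, rfl⟩ := Multiset.mem_map.mp hlb
      rw [Multiset.mem_coe] at hala hblb
      have hne : lb ≠ la := by
        rintro rfl
        exact hnr (q10_reach (hM1 _ hlaM).2 a hala b hblb)
      obtain ⟨M1, rfl⟩ := Multiset.exists_cons_of_mem hlaM
      have hlbM1 : lb ∈ M1 := by
        rw [Multiset.mem_cons] at hlbM
        rcases hlbM with h | h
        · exact absurd h hne
        · exact h
      obtain ⟨M2, rfl⟩ := Multiset.exists_cons_of_mem hlbM1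
      have hsum : (la : Multiset V) + ((lb : Multiset V) + (M2.map Multiset.ofList).sum) = R.val := by
        rw [← hM2, Multiset.map_cons, Multiset.map_cons, Multiset.sum_cons, Multiset.sum_cons]
      have hnda : la.Nodup := by
        have h1 : ((la : Multiset V)).Nodup := by
          have h2 : (la : Multiset V) ≤ R.val := by
            rw [← hsum]; exact Multiset.le_add_right _ _
          exact Multiset.nodup_of_le h2 R.nodup
        exact Multiset.coe_nodup.mp h1
      have hndb : lb.Nodup := by
        have h1 : ((lb : Multiset V)).Nodup := by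
          have h2 : (lb : Multiset V) ≤ R.val := by
            rw [← hsum]
            exact le_trans (Multiset.le_add_right _ _) (Multiset.le_add_left _ _)
          exact Multiset.nodup_of_le h2 R.nodup
        exact Multiset.coe_nodup.mp h1
      have hca := (hM1 la (by simp)).2
      have hcb := (hM1 lb (by simp)).2
      obtain ⟨s, hs1, hs2, hs3⟩ := q10_orient_last hca (q10_end hca hnda hala hda)
      obtain ⟨t, ht1, ht2, ht3⟩ := q10_orient_last hcb (q10_end hcb hndb hblb hdb)
      -- the second list reversed
      set l2 : List V := (t ++ [b]).reverse with hl2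
      have hl2e : l2 = b :: t.reverse := by rw [hl2]; simp
      have hl2c : l2.IsChain (q10del F a b).Adj := q10_rev_chain ht1
      have hl2m : (l2 : Multiset V) = (lb : Multiset V) := by
        rw [← ht2, Multiset.coe_eq_coe]
        exact List.reverse_perm _
      have hcN : ((s ++ [a]) ++ l2).IsChain F.Adj := by
        rw [List.isChain_append]
        refine ⟨hs1.imp (fun _ _ h => q10del_le F a b h),
          hl2c.imp (fun _ _ h => q10del_le F a b h), ?_⟩
        intro x hx y hy
        rw [hl2e] at hy
        simp at hx hy
        subst hx; subst hy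
        exact hab
      refine ⟨((s ++ [a]) ++ l2) ::ₘ M2, ?_, ?_, ?_, ?_⟩
      · intro l hl
        rw [Multiset.mem_cons] at hl
        rcases hl with rfl | hl
        · exact ⟨by simp, hcN⟩
        · have := hM1 l (by simp [hl])
          exact ⟨this.1, this.2.imp (fun _ _ h => q10del_le F a b h)⟩
      · rw [Multiset.map_cons, Multiset.sum_cons, ← hsum, ← hl2m, ← hs2, ← add_assoc]
        congr 1
      · intro x y hxy
        by_cases he : s(x, y) = s(a, b)
        · refine ⟨_, Multiset.mem_cons_self _ _, ?_⟩
          have hin : [a, b] <:+: ((s ++ [a]) ++ l2) := by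
            rw [hl2e]
            exact ⟨s, t.reverse, by simp⟩
          rw [Sym2.eq_iff] at he
          rcases he with ⟨rfl, rfl⟩ | ⟨rfl, rfl⟩
          · exact Or.inl hin
          · exact Or.inr hin
        · obtain ⟨l, hl, hli⟩ := hM3 x y ((q10del_adj F a b x y).mpr ⟨hxy, he⟩)
          rw [Multiset.mem_cons, Multiset.mem_cons] at hl
          rcases hl with rfl | rfl | hl
          · refine ⟨_, Multiset.mem_cons_self _ _, ?_⟩
            rcases hs3 x y hli with h | h
            · exact Or.inl (h.trans (List.prefix_append _ _).isInfix)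
            · exact Or.inr (h.trans (List.prefix_append _ _).isInfix)
          · refine ⟨_, Multiset.mem_cons_self _ _, ?_⟩
            rcases ht3 x y hli with h | h
            · exact Or.inr ((q10_infix_rev h).trans (List.suffix_append _ _).isInfix)
            · exact Or.inl ((q10_infix_rev h).trans (List.suffix_append _ _).isInfix)
          · exact ⟨l, by simp [hl], hli⟩
      · rw [Multiset.card_cons, Multiset.card_cons] at hM4
        rw [Multiset.card_cons]
        omega
    · push Not at hE
      have hv0 : vol F = 0 := by
        unfold vol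
        apply Finset.sum_eq_zero
        intro v _
        rw [Finset.card_eq_zero, Finset.eq_empty_iff_forall_notMem]
        intro x hx
        exact hE v x (mem_nf.mp hx)
      refine ⟨R.val.map (fun v => [v]), ?_, ?_, ?_, ?_⟩
      · intro l hl
        obtain ⟨v, _, rfl⟩ := Multiset.mem_map.mp hl
        exact ⟨by simp, by simp⟩
      · rw [Multiset.map_map]
        have : (Multiset.ofList ∘ fun v : V => [v]) = fun v : V => ({v} : Multiset V) := by
          funext v; rfl
        rw [this]
        exact Multiset.sum_map_singleton _
      · intro a b hab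
        exact absurd hab (hE a b)
      · rw [hv0, Multiset.card_map]
        simp

/-! ## Row Q10 (ForestPaths.lean): a forest of maximal degree 2 is a disjoint union of paths -/
theorem forest_paths {V : Type} [Fintype V] [DecidableEq V] (F : SimpleGraph V)
    (hac : F.IsAcyclic) (hF2 : ∀ v, (nf F v).card ≤ 2) (R : Finset V)
    (hR : ∀ a b, F.Adj a b → a ∈ R) :
    ∃ (k : ℕ) (P : Fin k → List V), (∀ i, P i ≠ []) ∧ (∀ i, (P i).IsChain F.Adj) ∧
      (∑ i, ((P i : List V) : Multiset V) = R.val) ∧
      (∀ a b, F.Adj a b → ∃ i, [a, b] <:+: P i ∨ [b, a] <:+: P i) ∧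
      2 * R.card = vol F + 2 * k := by
  obtain ⟨M, h1, h2, h3, h4⟩ := q10_main R _ F rfl hac hF2 hR
  obtain ⟨L, rfl⟩ : ∃ L : List (List V), M = (L : Multiset (List V)) :=
    ⟨M.toList, (Multiset.coe_toList M).symm⟩
  refine ⟨L.length, fun i => L[i], fun i => (h1 _ (by simp)).1, fun i => (h1 _ (by simp)).2,
    ?_, ?_, ?_⟩
  · rw [← h2, Multiset.map_coe, Multiset.sum_coe]
    exact Fin.sum_univ_fun_getElem L Multiset.ofList
  · intro a b hab
    obtain ⟨l, hl, hli⟩ := h3 a b hab
    rw [Multiset.mem_coe] at hl
    obtain ⟨i, hi, rfl⟩ := List.getElem_of_mem hl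
    exact ⟨⟨i, hi⟩, hli⟩
  · rw [Multiset.coe_card] at h4
    exact h4

end Pool.Agent.HDS
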