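import Pool.Agent.HDS.Move

/-!
MP_134267_co, Theorem HDS, row Q1: invariants of rotation histories
-/

set_option autoImplicit false

namespace Pool.Agent.HDS

open Finset Pool.Agent.HD

theorem Hist.inv {V : Type} [Fintype V] [DecidableEq V] {G F₀ : SimpleGraph V} {U : Finset V}
    {Ok : SimpleGraph V → V → Prop} {z : V} {j : ℕ} {F : SimpleGraph V} {w : V} {τ : Finset V}
    (h : Hist G F₀ U Ok z j F w τ) (hF₀ : F₀ ≤ G) :
    F ≤ G ∧ (∀ v, (nf F v).card + (if v = w then 1 else 0) =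
      (nf F₀ v).card + (if v = z then 1 else 0)) ∧
    (∀ a b, (F.Adj a b ↔ F₀.Adj a b) ∨ (a ∈ τ ∧ b ∈ τ)) ∧ z ∈ τ ∧ w ∈ τ ∧
    τ.card ≤ 2 * j + 1 ∧ (∀ t ∈ τ, t = z ∨ t ∈ U ∨ ∃ u ∈ U, F₀.Adj u t) ∧
    (∀ a b, F₀.Adj a b → a ∉ U → b ∉ U → F.Adj a b) ∧
    (∀ a b, F.Adj a b → F₀.Adj a b ∨ a ∈ U ∨ b ∈ U) ∧
    (∀ t ∈ τ, ∃ (i : ℕ) (F' : SimpleGraph V) (w' : V) (τ' : Finset V), i ≤ j ∧
      Hist G F₀ U Ok z i F' w' τ' ∧ (t = w' ∨ F₀.Adj t w')) ∧
    (j = 0 ∧ F = F₀ ∧ w = z ∧ τ = {z} ∨ 1 ≤ j ∧ Ok F w ∧ ∃ u ∈ U, F₀.Adj u w) := by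
  induction h with
  | start =>
    refine ⟨hF₀, fun v => rfl, fun a b => Or.inl Iff.rfl, Finset.mem_singleton_self z,
      Finset.mem_singleton_self z, by simp, ?_, fun a b h _ _ => h, fun a b h => Or.inl h, ?_,
      Or.inl ⟨rfl, rfl, rfl, rfl⟩⟩
    · intro t ht
      exact Or.inl (Finset.mem_singleton.1 ht)
    · intro t ht
      exact ⟨0, F₀, z, {z}, le_rfl, Hist.start, Or.inl (Finset.mem_singleton.1 ht)⟩
  | @step j F w τ h u x hu huτ hG hF hx hok ih =>
    obtain ⟨i1, i2, i3, i4, i5, i6, i7, i8, i9, i10, i11⟩ := ih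
    have hux : F.Adj u x := by
      rcases i3 u x with h1 | h1
      · exact h1.2 hx
      · exact absurd h1.1 huτ
    have hwu : w ≠ u := hG.ne
    refine ⟨?_, ?_, ?_, ?_, ?_, ?_, ?_, ?_, ?_, ?_, ?_⟩
    · intro a b hab
      rw [move_adj] at hab
      rcases hab with ⟨h1, _⟩ | ⟨_, ⟨h1, h2⟩ | ⟨h1, h2⟩⟩
      · exact i1 h1
      · rw [h1, h2]; exact hG
      · rw [h1, h2]; exact hG.symm
    · intro v
      have h1 := card_nf_mv F hwu hF hux v
      have h2 := i2 v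
      omega
    · intro a b
      by_cases h1 : (a = u ∧ b = x) ∨ (a = x ∧ b = u)
      · right
        rcases h1 with ⟨h2, h3⟩ | ⟨h2, h3⟩ <;> rw [h2, h3] <;> simp
      · by_cases h2 : (a = w ∧ b = u) ∨ (a = u ∧ b = w)
        · right
          rcases h2 with ⟨h2, h3⟩ | ⟨h2, h3⟩ <;> rw [h2, h3] <;> simp [i5]
        · rcases i3 a b with h3 | h3
          · left
            rw [move_adj, ← h3]
            constructor
            · rintro (⟨h4, _⟩ | ⟨_, h4⟩)
              · exact h4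
              · exact absurd h4 h2
            · exact fun h4 => Or.inl ⟨h4, h1⟩
          · right
            exact ⟨Finset.mem_insert_of_mem (Finset.mem_insert_of_mem h3.1),
              Finset.mem_insert_of_mem (Finset.mem_insert_of_mem h3.2)⟩
    · exact Finset.mem_insert_of_mem (Finset.mem_insert_of_mem i4)
    · exact Finset.mem_insert_of_mem (Finset.mem_insert_self _ _)
    · have h1 := Finset.card_insert_le u (insert x τ)
      have h2 := Finset.card_insert_le x τ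
      omega
    · intro t ht
      rcases Finset.mem_insert.1 ht with h1 | h1
      · exact Or.inr (Or.inl (h1 ▸ hu))
      · rcases Finset.mem_insert.1 h1 with h2 | h2
        · exact Or.inr (Or.inr ⟨u, hu, h2 ▸ hx⟩)
        · exact i7 t h2
    · intro a b h1 ha hb
      rw [move_adj]
      refine Or.inl ⟨i8 a b h1 ha hb, ?_⟩
      rintro (⟨h2, _⟩ | ⟨_, h2⟩)
      · exact ha (h2 ▸ hu)
      · exact hb (h2 ▸ hu)
    · intro a b h1
      rw [move_adj] at h1
      rcases h1 with ⟨h2, _⟩ | ⟨_, ⟨_, h2⟩ | ⟨h2, _⟩⟩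
      · exact i9 a b h2
      · exact Or.inr (Or.inr (h2 ▸ hu))
      · exact Or.inr (Or.inl (h2 ▸ hu))
    · have hnew := Hist.step h u x hu huτ hG hF hx hok
      intro t ht
      rcases Finset.mem_insert.1 ht with h1 | h1
      · exact ⟨j + 1, _, x, _, le_rfl, hnew, Or.inr (h1 ▸ hx)⟩
      · rcases Finset.mem_insert.1 h1 with h2 | h2
        · exact ⟨j + 1, _, x, _, le_rfl, hnew, Or.inl h2⟩
        · obtain ⟨i, F', w', τ', h3, h4, h5⟩ := i10 t h2
          exact ⟨i, F', w', τ', by omega, h4, h5⟩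
    · exact Or.inr ⟨by omega, hok, u, hu, hx⟩

end Pool.Agent.HDS
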