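import Pool.Agent.HDS.ParamsDef
import Pool.Agent.HD.NetBuild

/-!
MP_134267_co, Theorem HDS, row P (helper14): existence of the parameters.
-/

set_option autoImplicit false

namespace Pool.Agent.HDS

open Finset Pool.Agent.HD

theorem pS_nnet (j q κ : ℕ) :
    nnet j q κ ≤ κ * (2 * (1 + (2 * j + 1) + j * q) + 2 * q) := by
  rcases κ with _ | κ
  · simp [nnet]
  · induction κ with
    | zero =>
      rw [nnet]
      nlinarith [Nat.zero_le (j * q)]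
    | succ k ih =>
      rw [nnet]
      calc 2 * (1 + (2 * j + 1) + j * q) + nnet j q (k + 1) + 2 * q
          ≤ 2 * (1 + (2 * j + 1) + j * q) +
            (k + 1) * (2 * (1 + (2 * j + 1) + j * q) + 2 * q) + 2 * q := by
            gcongr
        _ = (k + 1 + 1) * (2 * (1 + (2 * j + 1) + j * q) + 2 * q) := by ring

/-- quadratic against exponential -/
theorem pS_exp (e : ℕ) (he : 19 ≤ e) : 480 * e ^ 2 + 112 * e + 17 ≤ 2 ^ (e - 1) := by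
  induction e, he using Nat.le_induction with
  | base => norm_num
  | succ k hk ih =>
    have h1 : 2 ^ (k + 1 - 1) = 2 * 2 ^ (k - 1) := by
      rw [Nat.add_sub_cancel]
      obtain ⟨r, rfl⟩ := Nat.exists_eq_add_of_le (le_trans (by norm_num : 1 ≤ 19) hk)
      rw [Nat.add_sub_cancel_left, pow_add, pow_one]
    rw [h1]
    nlinarith

/-- `c L^i ≤ L^j` -/
theorem pS_mul {L : ℕ} (c i j : ℕ) (hL : 1 ≤ L) (hc : c ≤ L) (hij : i < j) :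
    c * L ^ i ≤ L ^ j := by
  calc c * L ^ i ≤ L * L ^ i := Nat.mul_le_mul_right _ hc
    _ = L ^ (i + 1) := by ring
    _ ≤ L ^ j := Nat.pow_le_pow_right hL hij

/-- the facts about `L = log₂ n` -/
theorem pS_facts (n L : ℕ) (hL : 262144 ≤ L) (hn1 : 2 ^ L ≤ n) :
    L ^ 60 ≤ n ∧ L ^ 20 ≤ 2 ^ (20 * (Nat.log 2 L + 1)) ∧
    ∀ d, d + 1 ≤ L ^ 6 → 400 * L ^ 40 * (3 ^ (20 * (Nat.log 2 L + 1)) * (200 * L ^ 20 + 2) *
      (d + 1) ^ (4 * (20 * (Nat.log 2 L + 1)) + 2)) ≤ n := by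
  set e := Nat.log 2 L + 1 with he
  have hLe : L ≤ 2 ^ e := (Nat.lt_pow_succ_log_self (by norm_num) L).le
  have he19 : 19 ≤ e := by
    have h1 : 18 ≤ Nat.log 2 L := by
      apply Nat.le_log_of_pow_le (by norm_num)
      exact le_trans (by norm_num) hL
    omega
  have h1 : 480 * e ^ 2 + 112 * e + 17 ≤ L := by
    refine (pS_exp e he19).trans ?_
    rw [he, Nat.add_sub_cancel]
    exact Nat.pow_log_le_self 2 (by omega)
  refine ⟨?_, ?_, ?_⟩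
  · calc L ^ 60 ≤ (2 ^ e) ^ 60 := Nat.pow_le_pow_left hLe 60
      _ = 2 ^ (e * 60) := (pow_mul 2 e 60).symm
      _ ≤ 2 ^ L := Nat.pow_le_pow_right (by norm_num) (by nlinarith)
      _ ≤ n := hn1
  · calc L ^ 20 ≤ (2 ^ e) ^ 20 := Nat.pow_le_pow_left hLe 20
      _ = 2 ^ (20 * e) := by rw [← pow_mul, mul_comm]
  · intro d hd
    have hd' : d + 1 ≤ 2 ^ (6 * e) := by
      calc d + 1 ≤ L ^ 6 := hd
        _ ≤ (2 ^ e) ^ 6 := Nat.pow_le_pow_left hLe 6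
        _ = 2 ^ (6 * e) := by rw [← pow_mul, mul_comm]
    have h40 : L ^ 40 ≤ 2 ^ (40 * e) := by
      calc L ^ 40 ≤ (2 ^ e) ^ 40 := Nat.pow_le_pow_left hLe 40
        _ = 2 ^ (40 * e) := by rw [← pow_mul, mul_comm]
    have h20 : 200 * L ^ 20 + 2 ≤ 2 ^ (8 + 20 * e) := by
      have h2 : L ^ 20 ≤ 2 ^ (20 * e) := by
        calc L ^ 20 ≤ (2 ^ e) ^ 20 := Nat.pow_le_pow_left hLe 20
          _ = 2 ^ (20 * e) := by rw [← pow_mul, mul_comm]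
      have h3 : 1 ≤ L ^ 20 := Nat.one_le_pow _ _ (by omega)
      rw [pow_add]
      norm_num
      omega
    have h3K : 3 ^ (20 * e) ≤ 2 ^ (40 * e) := by
      calc 3 ^ (20 * e) ≤ 4 ^ (20 * e) := Nat.pow_le_pow_left (by norm_num) _
        _ = (2 ^ 2) ^ (20 * e) := by norm_num
        _ = 2 ^ (40 * e) := by rw [← pow_mul]; congr 1; ring
    have hdd : (d + 1) ^ (4 * (20 * e) + 2) ≤ 2 ^ (480 * e ^ 2 + 12 * e) := by
      calc (d + 1) ^ (4 * (20 * e) + 2) ≤ (2 ^ (6 * e)) ^ (4 * (20 * e) + 2) :=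
            Nat.pow_le_pow_left hd' _
        _ = 2 ^ (480 * e ^ 2 + 12 * e) := by rw [← pow_mul]; congr 1; ring
    calc 400 * L ^ 40 * (3 ^ (20 * e) * (200 * L ^ 20 + 2) * (d + 1) ^ (4 * (20 * e) + 2))
        ≤ 2 ^ 9 * 2 ^ (40 * e) * (2 ^ (40 * e) * 2 ^ (8 + 20 * e) *
          2 ^ (480 * e ^ 2 + 12 * e)) := by
          gcongr
          norm_num
      _ = 2 ^ (480 * e ^ 2 + 112 * e + 17) := by
          rw [← pow_add, ← pow_add, ← pow_add, ← pow_add]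
          congr 1
          ring
      _ ≤ 2 ^ L := Nat.pow_le_pow_right (by norm_num) h1
      _ ≤ n := hn1

theorem pS_n {n L : ℕ} (hL : 262144 ≤ L) (h60 : L ^ 60 ≤ n) : 1000000 ≤ n := by
  have h1 := pS_mul (L := L) 262144 1 60 (by omega) hL (by omega)
  rw [pow_one] at h1
  have h2 := h1.trans h60
  omega

/-- facts about `p = n / L ^ 20` -/
theorem pS_p {n L p : ℕ} (hL : 262144 ≤ L) (h60 : L ^ 60 ≤ n) (hp : p = n / L ^ 20) :
    p * L ^ 20 ≤ n ∧ L ^ 40 ≤ p ∧ n ≤ 2 * (p * L ^ 20) ∧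
    ∀ c i, c ≤ L → i < 20 → c * (p * L ^ i) ≤ n := by
  have hL1 : 1 ≤ L := by omega
  have hL20pos : 0 < L ^ 20 := by positivity
  have hp1 : p * L ^ 20 ≤ n := by
    rw [hp]
    exact Nat.div_mul_le_self _ _
  have hp40 : L ^ 40 ≤ p := by
    rw [hp, Nat.le_div_iff_mul_le hL20pos, ← pow_add]
    exact h60
  have hppos : 1 ≤ p := le_trans (Nat.one_le_pow _ _ hL1) hp40
  refine ⟨hp1, hp40, ?_, ?_⟩
  · have h1 := Nat.div_add_mod n (L ^ 20)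
    have h2 := Nat.mod_lt n hL20pos
    rw [← hp] at h1
    have h3 : L ^ 20 ≤ p * L ^ 20 := Nat.le_mul_of_pos_left _ hppos
    have h4 : L ^ 20 * p = p * L ^ 20 := mul_comm _ _
    omega
  · intro c i hc hi
    calc c * (p * L ^ i) = p * (c * L ^ i) := by ring
      _ ≤ p * L ^ 20 := Nat.mul_le_mul_left _ (pS_mul c i 20 hL1 hc hi)
      _ ≤ n := hp1

/-- facts about `Lc = n / L ^ 12` and the number of touched blocks -/
theorem pS_T {n L p Lc : ℕ} (hL : 262144 ≤ L) (h60 : L ^ 60 ≤ n) (hp40 : L ^ 40 ≤ p)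
    (hLc : Lc = n / L ^ 12) :
    Lc * L ^ 12 ≤ n ∧ 1 ≤ Lc ∧ ntch n p Lc (L + 1) ≤ 14 * (p * L) := by
  have hL1 : 1 ≤ L := by omega
  have hL12pos : 0 < L ^ 12 := by positivity
  have hLc1 : Lc * L ^ 12 ≤ n := by
    rw [hLc]
    exact Nat.div_mul_le_self _ _
  have hLcpos : 1 ≤ Lc := by
    rw [hLc, Nat.le_div_iff_mul_le hL12pos, one_mul]
    exact (Nat.pow_le_pow_right hL1 (by norm_num)).trans h60
  refine ⟨hLc1, hLcpos, ?_⟩
  have hnLc : n / Lc ≤ 2 * L ^ 12 := by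
    have h1 := Nat.div_add_mod n (L ^ 12)
    have h2 := Nat.mod_lt n hL12pos
    rw [← hLc] at h1
    have h3 : L ^ 12 ≤ Lc * L ^ 12 := Nat.le_mul_of_pos_left _ hLcpos
    have h4 : L ^ 12 * Lc = Lc * L ^ 12 := mul_comm _ _
    have h5 : Lc * (2 * L ^ 12) = 2 * (Lc * L ^ 12) := by ring
    have h6 : n < Lc * (2 * L ^ 12) := by omega
    exact (Nat.div_lt_of_lt_mul h6).le
  unfold ntch
  have h1 : 2 * L ^ 12 ≤ p := (pS_mul 2 12 40 hL1 (by omega) (by omega)).trans hp40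
  calc (n / Lc + p) * (6 * (L + 1) + 3) ≤ (p + p) * (7 * L) := by
        apply Nat.mul_le_mul
        · omega
        · omega
    _ = 14 * (p * L) := by ring

theorem pS_clog {x : ℕ} (hx : 2 ≤ x) :
    x ≤ 2 ^ Nat.clog 2 x ∧ 2 ^ Nat.clog 2 x ≤ 2 * x ∧ 1 ≤ Nat.clog 2 x := by
  have h2 : 1 ≤ Nat.clog 2 x := Nat.clog_pos (by norm_num) hx
  refine ⟨Nat.le_pow_clog (by norm_num) _, ?_, h2⟩
  have h1 : 2 ^ (Nat.clog 2 x).pred < x := Nat.pow_pred_clog_lt_self (by norm_num) (by omega)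
  rw [Nat.pred_eq_sub_one] at h1
  obtain ⟨r, hr⟩ := Nat.exists_eq_add_of_le h2
  rw [hr, Nat.add_sub_cancel_left] at h1
  rw [hr, pow_add, pow_one]
  omega

/-- facts about the number of ports -/
theorem pS_ports {n L p Q : ℕ} (hL : 262144 ≤ L) (h60 : L ^ 60 ≤ n) (hn2 : n < 2 ^ (L + 1))
    (hpc : ∀ c i, c ≤ L → i < 20 → c * (p * L ^ i) ≤ n) (t : ℕ) (ht2 : 2 ≤ t)
    (ht8 : t ^ 2 ≤ L ^ 8) (hQ : Q = 2 * (n / L ^ 5 + 2 * p) + 2 * t ^ 2) :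
    Q ≤ 2 ^ Nat.clog 2 Q ∧ 1 ≤ Nat.clog 2 Q ∧ Nat.clog 2 Q ≤ L ∧
    ∀ c i, c ≤ L → i < 5 → c * (2 ^ Nat.clog 2 Q * L ^ i) ≤ 6 * n := by
  have hL1 : 1 ≤ L := by omega
  have hQ2 : 2 ≤ Q := by
    have h1 : 1 ≤ t ^ 2 := Nat.one_le_pow _ _ (by omega)
    omega
  have hQ5 : Q * L ^ 5 ≤ 3 * n := by
    have h1 : n / L ^ 5 * L ^ 5 ≤ n := Nat.div_mul_le_self _ _
    have h2 : 8 * (p * L ^ 5) ≤ n := hpc 8 5 (by omega) (by omega)
    have h3 : t ^ 2 * L ^ 5 ≤ L ^ 8 * L ^ 5 := Nat.mul_le_mul_right _ ht8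
    have h4 : L ^ 8 * L ^ 5 = L ^ 13 := by rw [← pow_add]
    have h5 : 4 * L ^ 13 ≤ n :=
      (pS_mul 4 13 60 hL1 (by omega) (by omega)).trans h60
    calc Q * L ^ 5 = 2 * (n / L ^ 5 * L ^ 5) + 4 * (p * L ^ 5) + 2 * (t ^ 2 * L ^ 5) := by
          rw [hQ]; ring
      _ ≤ 3 * n := by omega
  obtain ⟨h1, h2, h3⟩ := pS_clog hQ2
  have hκ2 : 2 ^ Nat.clog 2 Q * L ^ 5 ≤ 6 * n := by
    calc 2 ^ Nat.clog 2 Q * L ^ 5 ≤ (2 * Q) * L ^ 5 := Nat.mul_le_mul_right _ h2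
      _ = 2 * (Q * L ^ 5) := by ring
      _ ≤ 6 * n := by omega
  have hκc : ∀ c i, c ≤ L → i < 5 → c * (2 ^ Nat.clog 2 Q * L ^ i) ≤ 6 * n := by
    intro c i hc hi
    calc c * (2 ^ Nat.clog 2 Q * L ^ i) = 2 ^ Nat.clog 2 Q * (c * L ^ i) := by ring
      _ ≤ 2 ^ Nat.clog 2 Q * L ^ 5 := Nat.mul_le_mul_left _ (pS_mul c i 5 hL1 hc hi)
      _ ≤ 6 * n := hκ2
  refine ⟨h1, h3, ?_, hκc⟩
  have h4 := hκc 12 0 (by omega) (by omega)
  rw [pow_zero, mul_one] at h4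
  have h5 : 2 ^ Nat.clog 2 Q < 2 ^ L := by
    rw [pow_succ] at hn2
    omega
  exact ((Nat.pow_lt_pow_iff_right (by norm_num)).mp h5).le

/-- the network -/
theorem pS_net {L hh κn : ℕ} (hL : 262144 ≤ L) (hhL : hh ≤ L) (hκL : κn ≤ L) :
    wsw (hh + 1) (2 * hh + 2) + 2 * (2 * hh + 2) ≤ 5 * L ^ 2 ∧ nline hh κn ≤ 11 * L ^ 3 := by
  have hL1 : 1 ≤ L := by omega
  have hLL : 1000 * L ≤ L ^ 2 := by
    have := pS_mul (L := L) 1000 1 2 hL1 (by omega) (by omega)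
    rwa [pow_one] at this
  have hL23 : 1000 * L ^ 2 ≤ L ^ 3 := pS_mul 1000 2 3 hL1 (by omega) (by omega)
  have h1 : hh * hh ≤ L ^ 2 := by
    rw [sq]
    exact Nat.mul_le_mul hhL hhL
  constructor
  · have h2 : wsw (hh + 1) (2 * hh + 2) + 2 * (2 * hh + 2) = 4 * (hh * hh) + 16 * hh + 14 := by
      unfold wsw
      ring
    omega
  · unfold nline
    have h3 := pS_nnet (hh + 1) (2 * hh + 2) κn
    have h2 : 2 * (1 + (2 * (hh + 1) + 1) + (hh + 1) * (2 * hh + 2)) + 2 * (2 * hh + 2) =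
        4 * (hh * hh) + 16 * hh + 16 := by ring
    have h4 : 4 * (hh * hh) + 16 * hh + 16 ≤ 5 * L ^ 2 := by omega
    rw [h2] at h3
    have h5 : nnet (hh + 1) (2 * hh + 2) κn ≤ L * (5 * L ^ 2) :=
      h3.trans (Nat.mul_le_mul hκL h4)
    have h6 : L * (5 * L ^ 2) = 5 * L ^ 3 := by ring
    omega

/-- the large weights -/
theorem pS_W {n L p Lc T hh Wm nl : ℕ} (hL : 262144 ≤ L) (h60 : L ^ 60 ≤ n)
    (hpc : ∀ c i, c ≤ L → i < 20 → c * (p * L ^ i) ≤ n) (hLc1 : Lc * L ^ 12 ≤ n)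
    (hspT : (L ^ 5 + 3) * T ≤ 28 * (p * L ^ 6)) (hnl : nl ≤ 11 * L ^ 3) (hhL : hh ≤ L)
    (hWm : Wm = Lc + (L ^ 5 + 3) + (L ^ 5 + 3) * T + 2 * (2 * hh + 2) + nl) :
    1000 * (L ^ 8 * Wm) ≤ n := by
  have hL1 : 1 ≤ L := by omega
  have hLL : 1000 * L ≤ L ^ 2 := by
    have := pS_mul (L := L) 1000 1 2 hL1 (by omega) (by omega)
    rwa [pow_one] at this
  have hL23 : 1000 * L ^ 2 ≤ L ^ 3 := pS_mul 1000 2 3 hL1 (by omega) (by omega)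
  have hL35 : 1000 * L ^ 3 ≤ L ^ 5 := pS_mul 1000 3 5 hL1 (by omega) (by omega)
  have h1 : 5000 * (L ^ 8 * Lc) ≤ n := by
    calc 5000 * (L ^ 8 * Lc) = Lc * (5000 * L ^ 8) := by ring
      _ ≤ Lc * L ^ 12 := Nat.mul_le_mul_left _ (pS_mul 5000 8 12 hL1 (by omega) (by omega))
      _ ≤ n := hLc1
  have h2 : 200000 * (p * L ^ 14) ≤ n := hpc 200000 14 (by omega) (by omega)
  have h3 : 20000 * L ^ 13 ≤ n := (pS_mul 20000 13 60 hL1 (by omega) (by omega)).trans h60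
  have h4 : Wm ≤ Lc + 3 * L ^ 5 + 28 * (p * L ^ 6) := by
    omega
  have h5 : L ^ 8 * Wm ≤ L ^ 8 * (Lc + 3 * L ^ 5 + 28 * (p * L ^ 6)) :=
    Nat.mul_le_mul_left _ h4
  have h6 : L ^ 8 * (Lc + 3 * L ^ 5 + 28 * (p * L ^ 6)) =
      L ^ 8 * Lc + 3 * L ^ 13 + 28 * (p * L ^ 14) := by ring
  omega

/-- the join condition, real part -/
theorem pS_join {n d : ℕ} {lam : ℝ} (hn : 1000000 ≤ n) (hd : 100000 ≤ d)
    (hC : 100000 * lam ≤ d) : (n : ℝ) * lam < d * ((n / 5120 : ℕ) : ℝ) := by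
  have hdR : (100000 : ℝ) ≤ d := by exact_mod_cast hd
  have hnR : (1000000 : ℝ) ≤ n := by exact_mod_cast hn
  have h1 : (n : ℝ) < 5120 * ((n / 5120 : ℕ) : ℝ) + 5120 := by
    have : n < 5120 * (n / 5120) + 5120 := by omega
    exact_mod_cast this
  have h2 : lam ≤ d / 100000 := by linarith
  have h3 : (n : ℝ) * lam ≤ n * (d / 100000) := mul_le_mul_of_nonneg_left h2 (by linarith)
  have h4 : (n : ℝ) / 100000 < ((n / 5120 : ℕ) : ℝ) := by linarith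
  have h5 : (d : ℝ) * (n / 100000) < d * ((n / 5120 : ℕ) : ℝ) :=
    mul_lt_mul_of_pos_left h4 (by linarith)
  linarith

theorem pS_expo {d : ℕ} (hd : 100000 ≤ d) : 40 * (d : ℝ) ^ 2 ≤ Real.exp (d / 50) := by
  have hdR : (100000 : ℝ) ≤ d := by exact_mod_cast hd
  have h1 := Real.pow_div_factorial_le_exp ((d : ℝ) / 50) (by positivity) 4
  have h2 : ((Nat.factorial 4 : ℕ) : ℝ) = 24 := by norm_num [Nat.factorial]
  rw [h2] at h1
  refine le_trans ?_ h1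
  have h3 : ((d : ℝ) / 50) ^ 4 / 24 = (d : ℝ) ^ 2 * ((d : ℝ) ^ 2 / 150000000) := by
    ring
  rw [h3, mul_comm]
  apply mul_le_mul_of_nonneg_left _ (by positivity)
  rw [le_div_iff₀ (by norm_num)]
  nlinarith

/-- the locality condition of the bulk lemma -/
theorem pS_local {n L p Z : ℕ} (hL1 : 1 ≤ L) (hp2 : n ≤ 2 * (p * L ^ 20))
    (h1 : 400 * L ^ 40 * Z ≤ n) : 100 * n * Z ≤ p ^ 2 := by
  have h2 : 200 * L ^ 20 * Z ≤ p := by
    have h3 : 200 * L ^ 20 * Z * (2 * L ^ 20) ≤ p * (2 * L ^ 20) := by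
      calc 200 * L ^ 20 * Z * (2 * L ^ 20) = 400 * L ^ 40 * Z := by ring
        _ ≤ n := h1
        _ ≤ 2 * (p * L ^ 20) := hp2
        _ = p * (2 * L ^ 20) := by ring
    exact Nat.le_of_mul_le_mul_right h3 (by positivity)
  calc 100 * n * Z ≤ 100 * (2 * (p * L ^ 20)) * Z := by gcongr
    _ = p * (200 * L ^ 20 * Z) := by ring
    _ ≤ p * p := Nat.mul_le_mul_left _ h2
    _ = p ^ 2 := by ring

/-- the numerical facts, in natural numbers -/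
theorem pS_core (n d t L : ℕ) (lam : ℝ) (hlam0 : 0 ≤ lam) (hL : 262144 ≤ L) (hn1 : 2 ^ L ≤ n)
    (hn2 : n < 2 ^ (L + 1)) (hd0 : 100000 ≤ d) (hdL : d + 1 ≤ L ^ 6)
    (ht2 : 2 ≤ t) (htd : 40 * t ≤ d) (htL : t ≤ L ^ 4) (hC : 100000 * lam ≤ d) :
    ∃ (κn m hh K sp p₀ m₁ D₁ K₁ s₁ Lc k Wm : ℕ),
      ParamsS n d t lam κn m hh K sp p₀ m₁ D₁ K₁ s₁ Lc k Wm := by
  obtain ⟨h60, hL20, hI⟩ := pS_facts n L hL hn1
  have hL1 : 1 ≤ L := by omega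
  have hnbig := pS_n hL h60
  have ht8 : t ^ 2 ≤ L ^ 8 := by
    calc t ^ 2 ≤ (L ^ 4) ^ 2 := Nat.pow_le_pow_left htL 2
      _ = L ^ 8 := by rw [← pow_mul]
  obtain ⟨p, hp⟩ : ∃ p, p = n / L ^ 20 := ⟨_, rfl⟩
  obtain ⟨Lc, hLc⟩ : ∃ Lc, Lc = n / L ^ 12 := ⟨_, rfl⟩
  obtain ⟨Q, hQ⟩ : ∃ Q, Q = 2 * (n / L ^ 5 + 2 * p) + 2 * t ^ 2 := ⟨_, rfl⟩
  obtain ⟨hp1, hp40, hp2, hpc⟩ := pS_p hL h60 hp
  obtain ⟨hLc1, hLcpos, hT⟩ := pS_T hL h60 hp40 hLc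
  obtain ⟨hκ1, hκpos, hκL, hκc⟩ := pS_ports hL h60 hn2 hpc t ht2 ht8 hQ
  obtain ⟨m, hm⟩ : ∃ m, m = n / 400 + 1 := ⟨_, rfl⟩
  obtain ⟨hm1, hm2, -⟩ := pS_clog (x := m) (by omega)
  have hhL : Nat.clog 2 m ≤ L := by
    apply Nat.clog_le_of_le_pow
    rw [pow_succ] at hn2
    omega
  obtain ⟨hh, hhh⟩ : ∃ hh, hh = Nat.clog 2 m := ⟨_, rfl⟩
  obtain ⟨κn, hκn⟩ : ∃ κn, κn = Nat.clog 2 Q := ⟨_, rfl⟩
  rw [← hhh] at hm1 hm2 hhL
  rw [← hκn] at hκ1 hκpos hκL hκc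
  obtain ⟨T, hTT⟩ : ∃ T, T = ntch n p Lc (L + 1) := ⟨_, rfl⟩
  rw [← hTT] at hT
  obtain ⟨hwsw, hnl⟩ := pS_net hL hhL hκL
  have hLL : 1000 * L ≤ L ^ 2 := by
    have := pS_mul (L := L) 1000 1 2 hL1 (by omega) (by omega)
    rwa [pow_one] at this
  have hL23 : 1000 * L ^ 2 ≤ L ^ 3 := pS_mul 1000 2 3 hL1 (by omega) (by omega)
  have hL34 : 1000 * L ^ 3 ≤ L ^ 4 := pS_mul 1000 3 4 hL1 (by omega) (by omega)
  have hL45 : 1000 * L ^ 4 ≤ L ^ 5 := pS_mul 1000 4 5 hL1 (by omega) (by omega)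
  have hwA : wtA (L ^ 5) hh κn + 1 ≤ 2 * L ^ 5 := by
    unfold wtA
    omega
  have hsp3 : L ^ 5 + 3 ≤ 2 * L ^ 5 := by omega
  have hspT : (L ^ 5 + 3) * T ≤ 28 * (p * L ^ 6) := by
    calc (L ^ 5 + 3) * T ≤ (2 * L ^ 5) * (14 * (p * L)) := Nat.mul_le_mul hsp3 hT
      _ = 28 * (p * L ^ 6) := by ring
  obtain ⟨Wm, hWm⟩ : ∃ Wm, Wm = Lc + (L ^ 5 + 3) + (L ^ 5 + 3) * T + 2 * (2 * hh + 2) +
    nline hh κn := ⟨_, rfl⟩
  have hWm8 := pS_W hL h60 hpc hLc1 hspT hnl hhL hWm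
  have hn8 : 1000 * L ^ 8 ≤ n := (pS_mul 1000 8 60 hL1 (by omega) (by omega)).trans h60
  have hn18 : 1000 * L ^ 18 ≤ n := (pS_mul 1000 18 60 hL1 (by omega) (by omega)).trans h60
  have hn12 : 1000 * L ^ 12 ≤ n := (pS_mul 1000 12 60 hL1 (by omega) (by omega)).trans h60
  have hn4 : 1000 * L ^ 4 ≤ n := (pS_mul 1000 4 60 hL1 (by omega) (by omega)).trans h60
  have hp6 := hpc 28000 6 (by omega) (by omega)
  have hp5 := hpc 28000 5 (by omega) (by omega)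
  refine ⟨κn, m, hh, n / 20, L ^ 5, p, n / 5120, 64, 20 * (Nat.log 2 L + 1), 200 * L ^ 20, Lc,
    L + 1, Wm, ?_⟩
  constructor
  case ht => exact ht2
  case lam0 => exact hlam0
  case hn => omega
  case hd => omega
  case hlp => exact pS_expo hd0
  case hst => exact htd
  case hst2 => omega
  case hm1 => omega
  case hm2 => omega
  case hm3 => omega
  case hmh => exact hm1
  case hK => omega
  case hκn => exact hκpos
  case hports =>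
    rw [← hQ]
    exact hκ1
  case hseed =>
    have h1 := znet_le κn
    have h2 : 2 * κn * 2 ^ κn ≤ 2 * (2 ^ κn * L ^ 1) := by
      rw [pow_one]
      calc 2 * κn * 2 ^ κn = 2 * (2 ^ κn * κn) := by ring
        _ ≤ 2 * (2 ^ κn * L) := by gcongr
    have h3 := hκc 1000 1 (by omega) (by omega)
    omega
  case hcap =>
    rw [Nat.le_div_iff_mul_le (by norm_num)]
    have h1 : wnet (hh + 1) (2 * hh + 2) κn ≤ 5 * (2 ^ κn * L ^ 3) := by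
      calc wnet (hh + 1) (2 * hh + 2) κn
          ≤ κn * 2 ^ κn * (wsw (hh + 1) (2 * hh + 2) + 2 * (2 * hh + 2)) := wnet_le _ _ _
        _ ≤ L * 2 ^ κn * (5 * L ^ 2) := by gcongr
        _ = 5 * (2 ^ κn * L ^ 3) := by ring
    have h2 : 2 * 2 ^ κn * (2 * hh + 2) ≤ 2 ^ κn * L ^ 3 := by
      calc 2 * 2 ^ κn * (2 * hh + 2) = 2 ^ κn * (4 * hh + 4) := by ring
        _ ≤ 2 ^ κn * L ^ 3 := by
          apply Nat.mul_le_mul_left
          omega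
    have h3 := hκc 100000 3 (by omega) (by omega)
    have h4 : 2 ^ (hh + 2) = 4 * 2 ^ hh := by rw [pow_add]; ring
    omega
  case hlam => linarith
  case hD₁ => norm_num
  case hlamD =>
    push_cast
    linarith
  case hm₁ => omega
  case hjoin => exact pS_join hnbig hd0 hC
  case hs₁ =>
    calc 100 * n ≤ 100 * (2 * (p * L ^ 20)) := Nat.mul_le_mul_left _ hp2
      _ = 200 * L ^ 20 * p := by ring
  case hK₁ =>
    have h1 : (64 : ℕ) ^ (20 * (Nat.log 2 L + 1)) =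
        2 ^ (20 * (Nat.log 2 L + 1)) * 32 ^ (20 * (Nat.log 2 L + 1)) :=
      mul_pow 2 32 (20 * (Nat.log 2 L + 1))
    rw [h1]
    have h2 : 5 * (n / 5120) ≤ p * L ^ 20 := by omega
    have h3 : p * L ^ 20 ≤ p * 2 ^ (20 * (Nat.log 2 L + 1)) := Nat.mul_le_mul_left _ hL20
    calc 5 * (n / 5120) * 32 ^ (20 * (Nat.log 2 L + 1))
        ≤ (p * 2 ^ (20 * (Nat.log 2 L + 1))) * 32 ^ (20 * (Nat.log 2 L + 1)) :=
          Nat.mul_le_mul_right _ (h2.trans h3)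
      _ = _ := by ring
  case hI₁ => exact pS_local hL1 hp2 (hI d hdL)
  case hsp => exact Nat.one_le_pow _ _ hL1
  case hLc => exact hLcpos
  case hk => exact hn2.le
  case hq =>
    rw [← hTT]
    omega
  case hWm =>
    rw [← hTT, hWm]
  case hb1 =>
    rw [← hTT]
    have h1 : t ^ 2 * (wtA (L ^ 5) hh κn + 1) ≤ 2 * L ^ 13 := by
      calc t ^ 2 * (wtA (L ^ 5) hh κn + 1) ≤ L ^ 8 * (2 * L ^ 5) := Nat.mul_le_mul ht8 hwA
        _ = 2 * L ^ 13 := by ring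
    have h2 : p ≤ p * L := Nat.le_mul_of_pos_right _ (by omega)
    have h3 : 10 * (L ^ 5 + 1) ≤ 20 * L ^ 5 := by omega
    calc 10 * (L ^ 5 + 1) * (t ^ 2 * (wtA (L ^ 5) hh κn + 1) + T + p)
        ≤ 20 * L ^ 5 * (2 * L ^ 13 + 14 * (p * L) + p * L) := by gcongr
      _ = 40 * L ^ 18 + 300 * (p * L ^ 6) := by ring
      _ ≤ n := by omega
  case hb3 =>
    rw [← hTT]
    have h1 : t ^ 2 * (Wm + 2 + (wtA (L ^ 5) hh κn + 1) ^ 2) ≤
        L ^ 8 * Wm + (2 * L ^ 8 + 4 * L ^ 18) := by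
      calc t ^ 2 * (Wm + 2 + (wtA (L ^ 5) hh κn + 1) ^ 2)
          ≤ L ^ 8 * (Wm + 2 + (2 * L ^ 5) ^ 2) := by gcongr
        _ = L ^ 8 * Wm + (2 * L ^ 8 + 4 * L ^ 18) := by ring
    have h2 : L ^ 5 * p = p * L ^ 5 := by ring
    have h3 : L ^ 5 * T ≤ 14 * (p * L ^ 6) := by
      calc L ^ 5 * T ≤ L ^ 5 * (14 * (p * L)) := Nat.mul_le_mul_left _ hT
        _ = 14 * (p * L ^ 6) := by ring
    rw [h2]
    omega
  case hl =>
    have h1 : t ^ 2 * (2 * (2 * hh + 2) + nline hh κn + 3) ≤ L ^ 12 := by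
      calc t ^ 2 * (2 * (2 * hh + 2) + nline hh κn + 3) ≤ L ^ 8 * L ^ 4 := by
            apply Nat.mul_le_mul ht8
            omega
        _ = L ^ 12 := by ring
    omega

theorem parametersS (A : ℝ) : ∃ C c : ℝ, 0 < C ∧ 0 < c ∧ ∀ (n d t : ℕ) (lam : ℝ), 0 ≤ lam →
    C * lam ≤ d → d ≤ n → (d : ℝ) ≤ A * (Real.log n) ^ 4 → 2 ≤ t → (t : ℝ) ≤ c * d →
    ∃ (κn m hh K sp p₀ m₁ D₁ K₁ s₁ Lc k Wm : ℕ),
      ParamsS n d t lam κn m hh K sp p₀ m₁ D₁ K₁ s₁ Lc k Wm := by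
  obtain ⟨L₀, hL₀, hA₀⟩ : ∃ L₀ : ℕ, 262144 ≤ L₀ ∧ |A| ≤ L₀ := by
    obtain ⟨k, hk⟩ := exists_nat_ge |A|
    exact ⟨262144 + k, by omega, by push_cast; linarith⟩
  have hN₀ : (0 : ℝ) < 2 ^ L₀ := by positivity
  have hN1 : (1 : ℝ) ≤ 2 ^ L₀ := one_le_pow₀ (by norm_num)
  have hA1 : (0 : ℝ) < |A| + 1 := by positivity
  refine ⟨100000, min (1 / 40) (min (1 / 2 ^ L₀) (1 / (|A| + 1))), by norm_num, by positivity, ?_⟩
  intro n d t lam hlam0 hC hdn hdA ht2 htc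
  have hd0 : (0 : ℝ) ≤ d := Nat.cast_nonneg _
  have ht2R : (2 : ℝ) ≤ t := by exact_mod_cast ht2
  have hc1 : (t : ℝ) ≤ 1 / 40 * d :=
    htc.trans (mul_le_mul_of_nonneg_right (min_le_left _ _) hd0)
  have hc2 : (t : ℝ) ≤ 1 / 2 ^ L₀ * d :=
    htc.trans (mul_le_mul_of_nonneg_right ((min_le_right _ _).trans (min_le_left _ _)) hd0)
  have hc3 : (t : ℝ) ≤ 1 / (|A| + 1) * d :=
    htc.trans (mul_le_mul_of_nonneg_right ((min_le_right _ _).trans (min_le_right _ _)) hd0)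
  have hdN : (2 : ℝ) ^ L₀ ≤ d := by
    rw [div_mul_eq_mul_div, one_mul, le_div_iff₀ hN₀] at hc2
    nlinarith
  have hdN' : 2 ^ L₀ ≤ d := by exact_mod_cast hdN
  have hnN' : 2 ^ L₀ ≤ n := hdN'.trans hdn
  have hn0 : n ≠ 0 := by
    have : 0 < 2 ^ L₀ := by positivity
    omega
  set L : ℕ := Nat.log 2 n with hL
  have hLL₀ : L₀ ≤ L := Nat.le_log_of_pow_le (by norm_num) hnN'
  have hn1 : 2 ^ L ≤ n := Nat.pow_log_le_self 2 hn0
  have hn2 : n < 2 ^ (L + 1) := Nat.lt_pow_succ_log_self (by norm_num) n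
  have hLR : (262144 : ℝ) ≤ L := by exact_mod_cast hL₀.trans hLL₀
  have hAL : |A| ≤ L := hA₀.trans (by exact_mod_cast hLL₀)
  -- the logarithm
  have hlog : Real.log n ≤ L := by
    have h1 : (n : ℝ) ≤ 2 ^ (L + 1) := by exact_mod_cast hn2.le
    have h2 : Real.log n ≤ Real.log (2 ^ (L + 1)) :=
      Real.log_le_log (by exact_mod_cast Nat.pos_of_ne_zero hn0) h1
    rw [Real.log_pow] at h2
    have h3 := Real.log_two_lt_d9
    push_cast at h2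
    nlinarith
  have hlog0 : 0 ≤ Real.log n := Real.log_natCast_nonneg n
  have hlog4 : (Real.log n) ^ 4 ≤ (L : ℝ) ^ 4 := pow_le_pow_left₀ hlog0 hlog 4
  have hlog4' : 0 ≤ (Real.log n) ^ 4 := by positivity
  have hdA' : (d : ℝ) ≤ |A| * (L : ℝ) ^ 4 := by
    calc (d : ℝ) ≤ A * (Real.log n) ^ 4 := hdA
      _ ≤ |A| * (Real.log n) ^ 4 := mul_le_mul_of_nonneg_right (le_abs_self A) hlog4'
      _ ≤ |A| * (L : ℝ) ^ 4 := mul_le_mul_of_nonneg_left hlog4 (abs_nonneg A)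
  have hd5 : (d : ℝ) ≤ (L : ℝ) ^ 5 := by
    calc (d : ℝ) ≤ |A| * (L : ℝ) ^ 4 := hdA'
      _ ≤ L * (L : ℝ) ^ 4 := mul_le_mul_of_nonneg_right hAL (by positivity)
      _ = (L : ℝ) ^ 5 := by ring
  have hd5' : d ≤ L ^ 5 := by exact_mod_cast hd5
  have ht4 : (t : ℝ) ≤ (L : ℝ) ^ 4 := by
    have h1 : (t : ℝ) * (|A| + 1) ≤ d := by
      rw [div_mul_eq_mul_div, one_mul, le_div_iff₀ hA1] at hc3
      exact hc3
    have h2 : (t : ℝ) * (|A| + 1) ≤ (L : ℝ) ^ 4 * (|A| + 1) := by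
      have h3 : (0 : ℝ) ≤ (L : ℝ) ^ 4 := by positivity
      nlinarith
    exact le_of_mul_le_mul_right h2 hA1
  have ht4' : t ≤ L ^ 4 := by exact_mod_cast ht4
  have hLge : 262144 ≤ L := hL₀.trans hLL₀
  apply pS_core n d t L lam hlam0 hLge hn1 hn2
  · -- 100000 ≤ d
    refine le_trans ?_ hdN'
    calc 100000 ≤ 2 ^ 17 := by norm_num
      _ ≤ 2 ^ L₀ := Nat.pow_le_pow_right (by norm_num) (by omega)
  · have h1 := pS_mul (L := L) 2 5 6 (by omega) (by omega) (by omega)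
    have h2 : 1 ≤ L ^ 5 := Nat.one_le_pow _ _ (by omega)
    omega
  · exact ht2
  · have : (40 : ℝ) * t ≤ d := by linarith
    exact_mod_cast this
  · exact ht4'
  · exact hC

end Pool.Agent.HDS
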