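import Pool.Agent.HDS.Core
import Pool.Agent.HDS.Params

/-!
MP_134267_co, Theorem HDS: the low degree range.
-/

set_option autoImplicit false

namespace Pool.Agent.HDS

open Finset Pool.Agent.HD

/-- **The low degree range**: for every `A` there are `C` and `c` such that every
`(n, d, lam)`-graph with `C * lam ≤ d ≤ A * (log n) ^ 4` has a spanning nearly balanced
`K_t`-subdivision for all `2 ≤ t ≤ c * d`. -/
theorem low_degree (A : ℝ) : ∃ C c : ℝ, 0 < C ∧ 0 < c ∧
    ∀ (V : Type) [Fintype V] [DecidableEq V] (G : SimpleGraph V) [DecidableRel G.Adj]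
      (d : ℕ) (lam : ℝ), IsNDL G d lam → 0 ≤ lam → C * lam ≤ d →
      (d : ℝ) ≤ A * (Real.log (Fintype.card V)) ^ 4 →
      ∀ t : ℕ, 2 ≤ t → (t : ℝ) ≤ c * d → HasSubdivision G t := by
  obtain ⟨C, c, hC, hc, H⟩ := parametersS A
  refine ⟨C, c, hC, hc, ?_⟩
  intro V _ _ G _ d lam h h0 hlam hd t ht htd
  have hdn : d ≤ Fintype.card V := by
    by_contra hcon
    push Not at hcon
    have hemp : IsEmpty V := by
      rw [← not_nonempty_iff]
      rintro ⟨v⟩
      have h2 := h.reg v
      have h3 := Finset.card_le_univ (G.neighborFinset v)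
      omega
    have hcard : Fintype.card V = 0 := Fintype.card_eq_zero
    rw [hcard] at hd
    simp at hd
    rw [hd] at htd
    have : (2 : ℝ) ≤ t := by exact_mod_cast ht
    simp at htd
    rw [htd] at ht
    omega
  obtain ⟨κn, m, hh, K, sp, p₀, m₁, D₁, K₁, s₁, Lc, k, Wm, hp⟩ :=
    H (Fintype.card V) d t lam h0 hlam hdn hd ht htd
  exact core G h hp

end Pool.Agent.HDS
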