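import Pool.Agent.HDS.Defs

/-!
MP_134267_co, Theorem HDS, row Q0: degrees after a rotation and after adding an edge
-/

set_option autoImplicit false

namespace Pool.Agent.HDS

open Finset Pool.Agent.HD

theorem move_adj {V : Type} {F : SimpleGraph V} {w u x a b : V} :
    (mv F w u x).Adj a b ↔ (F.Adj a b ∧ ¬ ((a = u ∧ b = x) ∨ (a = x ∧ b = u))) ∨
      (a ≠ b ∧ ((a = w ∧ b = u) ∨ (a = u ∧ b = w))) := by
  rw [← Sym2.eq_iff, ← Sym2.eq_iff]
  rfl

theorem card_nf_mv {V : Type} [Fintype V] [DecidableEq V] (F : SimpleGraph V) {w u x : V}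
    (hwu : w ≠ u) (hn : ¬ F.Adj w u) (hx : F.Adj u x) (v : V) :
    (nf (mv F w u x) v).card + (if v = x then 1 else 0) =
      (nf F v).card + (if v = w then 1 else 0) := by
  have hxw : x ≠ w := by
    rintro rfl
    exact hn hx.symm
  have hux : u ≠ x := hx.ne
  by_cases h1 : v = x
  · subst h1
    have h2 : nf (mv F w u v) v = (nf F v).erase u := by
      ext b
      rw [mem_nf, Finset.mem_erase, mem_nf, move_adj]
      constructor
      · rintro (⟨h3, h4⟩ | ⟨_, h4⟩)
        · exact ⟨fun h => h4 (Or.inr ⟨rfl, h⟩), h3⟩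
        · rcases h4 with ⟨h5, _⟩ | ⟨h5, _⟩
          · exact absurd h5 hxw
          · exact absurd h5.symm hux
      · rintro ⟨h3, h4⟩
        refine Or.inl ⟨h4, ?_⟩
        rintro (⟨h5, _⟩ | ⟨_, h5⟩)
        · exact hux h5.symm
        · exact h3 h5
    have h3 : u ∈ nf F v := mem_nf.2 hx.symm
    rw [h2, if_pos rfl, if_neg hxw, Finset.card_erase_of_mem h3]
    have : 0 < (nf F v).card := Finset.card_pos.2 ⟨u, h3⟩
    omega
  · rw [if_neg h1]
    by_cases h2 : v = w
    · subst h2
      have h3 : nf (mv F v u x) v = insert u (nf F v) := by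
        ext b
        rw [mem_nf, Finset.mem_insert, mem_nf, move_adj]
        constructor
        · rintro (⟨h3, _⟩ | ⟨_, h4⟩)
          · exact Or.inr h3
          · rcases h4 with ⟨_, h5⟩ | ⟨h5, _⟩
            · exact Or.inl h5
            · exact absurd h5 hwu
        · rintro (h3 | h3)
          · subst h3
            exact Or.inr ⟨hwu, Or.inl ⟨rfl, rfl⟩⟩
          · refine Or.inl ⟨h3, ?_⟩
            rintro (⟨h5, _⟩ | ⟨h5, _⟩)
            · exact hwu h5
            · exact h1 h5
      rw [h3, if_pos rfl, Finset.card_insert_of_notMem (fun h => hn (mem_nf.1 h))]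
    · rw [if_neg h2]
      by_cases h3 : v = u
      · subst h3
        have h4 : nf (mv F w v x) v = insert w ((nf F v).erase x) := by
          ext b
          rw [mem_nf, Finset.mem_insert, Finset.mem_erase, mem_nf, move_adj]
          constructor
          · rintro (⟨h3, h4⟩ | ⟨_, h4⟩)
            · exact Or.inr ⟨fun h => h4 (Or.inl ⟨rfl, h⟩), h3⟩
            · rcases h4 with ⟨h5, _⟩ | ⟨_, h5⟩
              · exact absurd h5 h2
              · exact Or.inl h5
          · rintro (h3 | ⟨h3, h4⟩)
            · subst h3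
              exact Or.inr ⟨h2, Or.inr ⟨rfl, rfl⟩⟩
            · refine Or.inl ⟨h4, ?_⟩
              rintro (⟨_, h5⟩ | ⟨h5, _⟩)
              · exact h3 h5
              · exact h1 h5
        have h5 : x ∈ nf F v := mem_nf.2 hx
        have h6 : w ∉ (nf F v).erase x := by
          rw [Finset.mem_erase, mem_nf]
          exact fun h => hn h.2.symm
        have h7 : 0 < (nf F v).card := Finset.card_pos.2 ⟨x, h5⟩
        rw [h4, Finset.card_insert_of_notMem h6, Finset.card_erase_of_mem h5]
        omega
      · have h4 : nf (mv F w u x) v = nf F v := by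
          ext b
          rw [mem_nf, mem_nf, move_adj]
          constructor
          · rintro (⟨h3, _⟩ | ⟨_, h4⟩)
            · exact h3
            · rcases h4 with ⟨h5, _⟩ | ⟨h5, _⟩
              · exact absurd h5 h2
              · exact absurd h5 h3
          · intro h5
            refine Or.inl ⟨h5, ?_⟩
            rintro (⟨h6, _⟩ | ⟨h6, _⟩)
            · exact h3 h6
            · exact h1 h6
        rw [h4]

theorem vol_mv {V : Type} [Fintype V] [DecidableEq V] (F : SimpleGraph V) {w u x : V}
    (hwu : w ≠ u) (hn : ¬ F.Adj w u) (hx : F.Adj u x) : vol (mv F w u x) = vol F := by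
  have h := Finset.sum_congr (rfl : (univ : Finset V) = univ)
    (fun v _ => card_nf_mv F hwu hn hx v)
  rw [Finset.sum_add_distrib, Finset.sum_add_distrib] at h
  simp only [Finset.sum_ite_eq', Finset.mem_univ, if_true] at h
  unfold vol
  omega

/-- adding an edge -/
theorem card_nf_sup_edge {V : Type} [Fintype V] [DecidableEq V] (F : SimpleGraph V) {a b : V}
    (hab : a ≠ b) (hn : ¬ F.Adj a b) (v : V) :
    (nf (F ⊔ SimpleGraph.edge a b) v).card =
      (nf F v).card + (if v = a then 1 else 0) + (if v = b then 1 else 0) := by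
  have hadj : ∀ y, (F ⊔ SimpleGraph.edge a b).Adj v y ↔
      F.Adj v y ∨ ((v = a ∧ y = b) ∨ (v = b ∧ y = a)) := by
    intro y
    rw [SimpleGraph.sup_adj, SimpleGraph.edge_adj]
    constructor
    · rintro (h | ⟨⟨h1, h2⟩ | ⟨h1, h2⟩, _⟩)
      · exact Or.inl h
      · exact Or.inr (Or.inl ⟨h1, h2⟩)
      · exact Or.inr (Or.inr ⟨h1, h2⟩)
    · rintro (h | ⟨h1, h2⟩ | ⟨h1, h2⟩)
      · exact Or.inl h
      · subst h1; subst h2
        exact Or.inr ⟨Or.inl ⟨rfl, rfl⟩, hab⟩
      · subst h1; subst h2
        exact Or.inr ⟨Or.inr ⟨rfl, rfl⟩, hab.symm⟩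
  by_cases h1 : v = a
  · subst h1
    have h2 : nf (F ⊔ SimpleGraph.edge v b) v = insert b (nf F v) := by
      ext y
      rw [mem_nf, Finset.mem_insert, mem_nf, hadj]
      constructor
      · rintro (h | ⟨_, h⟩ | ⟨h, _⟩)
        · exact Or.inr h
        · exact Or.inl h
        · exact absurd h hab
      · rintro (h | h)
        · exact Or.inr (Or.inl ⟨rfl, h⟩)
        · exact Or.inl h
    rw [h2, if_pos rfl, if_neg hab, Finset.card_insert_of_notMem (fun h => hn (mem_nf.1 h))]
  · by_cases h2 : v = b
    · subst h2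
      have h3 : nf (F ⊔ SimpleGraph.edge a v) v = insert a (nf F v) := by
        ext y
        rw [mem_nf, Finset.mem_insert, mem_nf, hadj]
        constructor
        · rintro (h | ⟨h, _⟩ | ⟨_, h⟩)
          · exact Or.inr h
          · exact absurd h h1
          · exact Or.inl h
        · rintro (h | h)
          · exact Or.inr (Or.inr ⟨rfl, h⟩)
          · exact Or.inl h
      rw [h3, if_neg h1, if_pos rfl,
        Finset.card_insert_of_notMem (fun h => hn (mem_nf.1 h).symm)]
    · have h3 : nf (F ⊔ SimpleGraph.edge a b) v = nf F v := by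
        ext y
        rw [mem_nf, mem_nf, hadj]
        constructor
        · rintro (h | ⟨h, _⟩ | ⟨h, _⟩)
          · exact h
          · exact absurd h h1
          · exact absurd h h2
        · exact Or.inl
      rw [h3, if_neg h1, if_neg h2, add_zero, add_zero]

end Pool.Agent.HDS
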