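import Pool.Agent.HD.Defs
import Pool.Agent.HD.Final

/-!
MP_134267_co, Theorem HDS (helper25): the list of all numerical requirements.
-/

set_option autoImplicit false

namespace Pool.Agent.HDS

open Finset Pool.Agent.HD

/-- number of vertices of a line of the pairing network -/
def nline (hh κn : ℕ) : ℕ := 2 * nnet (hh + 1) (2 * hh + 2) κn + (2 * hh + 2)

/-- number of blocks touched in the closing phase: `p₀` paths in every cover, pieces of length at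
most `Lc` -/
def ntch (n p₀ Lc k : ℕ) : ℕ := (n / Lc + p₀) * (6 * k + 3)

/-- weight of a class A item -/
def wtA (sp hh κn : ℕ) : ℕ := sp + 2 * (2 * hh + 2) + nline hh κn

/-- all the numerical requirements of the low degree construction: `n` vertices, degree `d`, `t`
branch vertices, `2 ^ κn` ports, Friedman-Pippenger sets of `m` vertices and trees of depth `hh`,
blocks of length `sp` and `sp + 1`, path covers with at most `p₀` paths (parameters `m₁`, `D₁`,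
`K₁`, `s₁` of the bulk lemma), cores of length at most `Lc`, histories of length `k`, items of
weight at most `Wm` -/
structure ParamsS (n d t : ℕ) (lam : ℝ) (κn m hh K sp p₀ m₁ D₁ K₁ s₁ Lc k Wm : ℕ) : Prop where
  ht : 2 ≤ t
  lam0 : 0 ≤ lam
  hn : 100000 ≤ n
  hd : 10000 ≤ d
  hlp : 40 * (d : ℝ) ^ 2 ≤ Real.exp (d / 50)
  hst : 40 * t ≤ d
  hst2 : 1000 * t ^ 2 ≤ n
  hm1 : 1 ≤ m
  hm2 : n ≤ 400 * m
  hm3 : 200 * m ≤ n
  hmh : m ≤ 2 ^ hh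
  hK : 20 * K ≤ n
  hκn : 1 ≤ κn
  hports : 2 * (n / sp + 2 * p₀) + 2 * t ^ 2 ≤ 2 ^ κn
  hseed : 10 * (t + t ^ 2 + znet κn) ≤ n
  hcap : wnet (hh + 1) (2 * hh + 2) κn + 2 * 2 ^ κn * (2 * hh + 2) + 2 ^ (hh + 2) ≤ K
  hlam : 10000 * lam ≤ d
  hD₁ : 32 ≤ D₁
  hlamD : 60 * D₁ * lam ≤ d
  hm₁ : 80 * (D₁ * m₁) ≤ n
  hjoin : (n : ℝ) * lam < d * m₁
  hs₁ : 100 * n ≤ s₁ * p₀
  hK₁ : 5 * m₁ * 32 ^ K₁ ≤ D₁ ^ K₁ * p₀
  hI₁ : 100 * n * (3 ^ K₁ * (s₁ + 2) * (d + 1) ^ (4 * K₁ + 2)) ≤ p₀ ^ 2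
  hsp : 1 ≤ sp
  hLc : 1 ≤ Lc
  hk : n ≤ 2 ^ k
  hq : 1000 * ((sp + 3) * ntch n p₀ Lc k) ≤ n
  hWm : Lc + (sp + 3) + (sp + 3) * ntch n p₀ Lc k + 2 * (2 * hh + 2) + nline hh κn ≤ Wm
  hb1 : 10 * (sp + 1) * (t ^ 2 * (wtA sp hh κn + 1) + ntch n p₀ Lc k + p₀) ≤ n
  hb3 : 10 * (t ^ 2 * (Wm + 2 + (wtA sp hh κn + 1) ^ 2) + sp * p₀ + sp * ntch n p₀ Lc k) ≤ n
  hl : t ^ 2 * (2 * (2 * hh + 2) + nline hh κn + 3) + t ≤ n

end Pool.Agent.HDS
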